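import Pool.Agent.LFD.St
import Pool.Agent.RRC.B2
import Pool.Agent.RRC.DF
import Pool.Agent.RRC.K1

/-!
# LFD [BACK]: from linear free divisors `t P = 0` to admissible collections (MP_835236_al)
-/

set_option autoImplicit false

noncomputable section

namespace Pool.Agent.LFD

open scoped Polynomial
open MvPolynomial Helper28.Nij RRC

/-- **Back.** -/
theorem thm_Back (hLf1 : St_Lf1) (hSep : St_Sep) (hNdc : St_Ndc) : St_Back := by
  intro n σ h
  obtain ⟨m, hm, hc⟩ := hLf1 n σ h
  obtain ⟨x, hx⟩ := hSep n σ h.1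
  have hdeg : (m.flip x).charpoly.natDegree = n := by
    rw [LinearMap.charpoly_natDegree, Module.finrank_fintype_fun_eq_card, Fintype.card_fin]
  obtain ⟨h1, h2⟩ := hx (m.flip x).charpoly (LinearMap.charpoly_monic _) hdeg fun k => hc x k
  exact thm_B2 (thm_DF thm_K1) n σ m hm ⟨x, hNdc (Fin n → ℝ) m hm x h1 h2⟩ hc

end Pool.Agent.LFD
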