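import Pool.Agent.LFD.St

/-!
# Module Com: linear fields tangent to a linear free divisor
-/

set_option autoImplicit false

namespace Pool.Agent.LFD

open MvPolynomial

namespace Comx

variable {ι : Type} [Fintype ι]

/-- The derivation of `MvPolynomial ι ℝ` belonging to a linear field. -/
noncomputable def D (A : Matrix ι ι ℝ) :
    Derivation ℝ (MvPolynomial ι ℝ) (MvPolynomial ι ℝ) :=
  ∑ i, fld A i • pderiv i

theorem D_apply (A : Matrix ι ι ℝ) (f : MvPolynomial ι ℝ) : D A f = der A f := by
  have h1 : ∀ s : Finset ι, (∑ i ∈ s, fld A i • pderiv i :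
      Derivation ℝ (MvPolynomial ι ℝ) (MvPolynomial ι ℝ)) f = ∑ i ∈ s, fld A i * pderiv i f := by
    intro s
    classical
    induction s using Finset.induction_on with
    | empty => rfl
    | insert a s ha ih =>
      rw [Finset.sum_insert ha, Finset.sum_insert ha, Derivation.add_apply, ih]
      rfl
  exact h1 Finset.univ

theorem D_X (A : Matrix ι ι ℝ) (i : ι) : D A (X i) = fld A i := by
  classical
  rw [D_apply, der]
  rw [Finset.sum_eq_single i]
  · rw [pderiv_X_self, mul_one]
  · intro j _ hj
    rw [pderiv_X_of_ne (Ne.symm hj), mul_zero]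
  · intro h
    exact absurd (Finset.mem_univ i) h

theorem D_fld (A B : Matrix ι ι ℝ) (i : ι) : D A (fld B i) = fld (B * A) i := by
  rw [fld, map_sum]
  have h1 : ∀ j, D A (C (B i j) * X j) = ∑ k, C (B i j * A j k) * X k := by
    intro j
    rw [C_mul', Derivation.map_smul, D_X, fld, Finset.smul_sum]
    refine Finset.sum_congr rfl fun k _ => ?_
    rw [smul_eq_C_mul, C_mul, mul_assoc]
  rw [Finset.sum_congr rfl fun j _ => h1 j, Finset.sum_comm, fld]
  refine Finset.sum_congr rfl fun k _ => ?_
  rw [← Finset.sum_mul, ← map_sum, Matrix.mul_apply]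

theorem fld_sub (A B : Matrix ι ι ℝ) (i : ι) : fld (A - B) i = fld A i - fld B i := by
  simp only [fld]
  rw [← Finset.sum_sub_distrib]
  refine Finset.sum_congr rfl fun k _ => ?_
  rw [Matrix.sub_apply, C_sub, sub_mul]

theorem comm (A B : Matrix ι ι ℝ) : ⁅D A, D B⁆ = D (B * A - A * B) := by
  apply MvPolynomial.derivation_ext
  intro i
  rw [Derivation.commutator_apply, D_X, D_X, D_X, D_fld, D_fld, fld_sub]

theorem coeff_fld (A : Matrix ι ι ℝ) (i j : ι) :
    coeff (Finsupp.single j 1) (fld A i) = A i j := by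
  classical
  rw [fld, coeff_sum, Finset.sum_eq_single j]
  · rw [coeff_C_mul, coeff_X, if_pos rfl, mul_one]
  · intro k _ hk
    rw [coeff_C_mul, coeff_X, if_neg, mul_zero]
    intro h
    exact hk (Finsupp.single_left_injective one_ne_zero h)
  · intro h
    exact absurd (Finset.mem_univ j) h

theorem hom_fld (A : Matrix ι ι ℝ) (i : ι) : (fld A i).IsHomogeneous 1 := by
  rw [fld]
  apply IsHomogeneous.sum
  intro j _
  have h := (isHomogeneous_C ι (A i j)).mul (isHomogeneous_X ℝ j)
  rwa [zero_add] at h

theorem hom_det [DecidableEq ι] (A : ι → Matrix ι ι ℝ) :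
    (Matrix.of fun k i => fld (A k) i).det.IsHomogeneous (Fintype.card ι) := by
  rw [Matrix.det_apply]
  apply IsHomogeneous.sum
  intro s _
  have h1 : (∏ i, (Matrix.of fun k i => fld (A k) i) (s i) i).IsHomogeneous (∑ _i : ι, 1) :=
    IsHomogeneous.prod _ _ _ fun i _ => hom_fld _ _
  rw [Finset.sum_const, Finset.card_univ, smul_eq_mul, mul_one] at h1
  rcases Int.units_eq_one_or (Equiv.Perm.sign s) with h | h
  · rw [h, one_smul]; exact h1
  · rw [h, Units.neg_smul, one_smul]
    exact h1.neg

omit [Fintype ι] in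
theorem quot {n : ℕ} {h u : MvPolynomial ι ℝ} (hh : h.IsHomogeneous n) (hu : u.IsHomogeneous n)
    (h0 : h ≠ 0) (hd : h ∣ u) : ∃ a : ℝ, u = C a * h := by
  obtain ⟨q, hq⟩ := hd
  by_cases hu0 : u = 0
  · exact ⟨0, by rw [hu0, C_0, zero_mul]⟩
  have hq0 : q ≠ 0 := by
    rintro rfl
    exact hu0 (by rw [hq, mul_zero])
  have h1 : u.totalDegree = h.totalDegree + q.totalDegree := by
    rw [hq]; exact totalDegree_mul_of_isDomain h0 hq0
  rw [hh.totalDegree h0, hu.totalDegree hu0] at h1
  have h2 : q.totalDegree = 0 := by omega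
  have h3 := totalDegree_eq_zero_iff_eq_C.mp h2
  exact ⟨_, by rw [hq, mul_comm]; congr 1⟩

end Comx

open Comx

theorem thm_Com (hSai : St_Sai) : St_Com := by
  refine ⟨?_, ?_⟩
  · intro ι _ _ h hsq A c hA hc hdet
    have hh0 : h ≠ 0 := hsq.ne_zero
    have hdetH := hom_det A
    have hH : h.IsHomogeneous (Fintype.card ι) := by
      have h1 : h = C c⁻¹ * (Matrix.of fun k i => fld (A k) i).det := by
        rw [hdet, ← mul_assoc, ← C_mul, inv_mul_cancel₀ hc, C_1, one_mul]
      have h2 := (isHomogeneous_C ι c⁻¹).mul hdetH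
      rw [zero_add, ← h1] at h2
      exact h2
    refine ⟨hH, ?_⟩
    intro B hB
    have key : ∀ k, ∃ a : ℝ,
        ((Matrix.of fun k i => fld (A k) i).updateRow k (fun i => fld B i)).det = C a * h := by
      intro k
      have h1 : (Matrix.of fun k i => fld (A k) i).updateRow k (fun i => fld B i) =
          Matrix.of fun k' i => fld (Function.update A k B k') i := by
        refine Matrix.ext fun k' i => ?_
        rw [Matrix.updateRow_apply, Matrix.of_apply, Matrix.of_apply]
        by_cases hk : k' = k
        · subst hk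
          rw [if_pos rfl, Function.update_self]
        · rw [if_neg hk, Function.update_of_ne hk]
      rw [h1]
      apply quot hH (hom_det _) hh0
      apply hSai ι h hsq
      intro k'
      by_cases hk : k' = k
      · subst hk
        rw [Function.update_self]; exact hB
      · rw [Function.update_of_ne hk]; exact hA k'
    choose g hg using key
    refine ⟨fun k => g k / c, ?_⟩
    ext i j
    have h2 := congrFun (Matrix.mulVec_cramer (Matrix.of fun k i => fld (A k) i).transpose
      (fun i => fld B i)) i
    rw [Matrix.mulVec, dotProduct, Matrix.det_transpose, hdet, Pi.smul_apply, smul_eq_mul] at h2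
    have h3 : ∀ k, (Matrix.of fun k i => fld (A k) i).transpose i k *
        (Matrix.of fun k i => fld (A k) i).transpose.cramer (fun i => fld B i) k =
        h * (C (g k) * fld (A k) i) := by
      intro k
      rw [Matrix.cramer_transpose_apply, hg k, Matrix.transpose_apply, Matrix.of_apply]
      ring
    rw [Finset.sum_congr rfl fun k _ => h3 k, ← Finset.mul_sum] at h2
    have h4 : ∑ k, C (g k) * fld (A k) i = C c * fld B i := by
      apply mul_left_cancel₀ hh0
      rw [h2]
      ring
    have h5 := congrArg (coeff (Finsupp.single j 1)) h4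
    rw [coeff_C_mul, coeff_fld, coeff_sum] at h5
    rw [Matrix.sum_apply]
    have h6 : ∀ k, ((g k / c) • A k) i j = (g k * A k i j) / c := by
      intro k
      rw [Matrix.smul_apply, smul_eq_mul]
      ring
    rw [Finset.sum_congr rfl fun k _ => h6 k, ← Finset.sum_div, eq_div_iff hc, mul_comm, ← h5]
    refine Finset.sum_congr rfl fun k _ => ?_
    rw [coeff_C_mul, coeff_fld]
  · intro ι _ h A B hA hB
    rw [← D_apply] at hA hB ⊢
    obtain ⟨u, hu⟩ := hA
    obtain ⟨v, hv⟩ := hB
    rw [← Comx.comm, Derivation.commutator_apply, hu, hv, Derivation.leibniz, Derivation.leibniz, hu, hv]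
    refine ⟨D A v - D B u, ?_⟩
    simp only [smul_eq_mul]
    ring

end Pool.Agent.LFD
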