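import Pool.Agent.LFD.St

/-!
# LFD: homogeneous polynomials of the form `c PP σ`
-/

open MvPolynomial

namespace Pool.Agent.LFD

namespace Frmx

variable {n : ℕ}

theorem deg_of {u : MvPolynomial (Option (Fin n)) ℝ} (hu : u.IsHomogeneous n) {j : ℕ}
    {m : Fin n →₀ ℕ} (h : coeff m ((optionEquivLeft ℝ (Fin n) u).coeff j) ≠ 0) :
    j + ∑ i, m i = n := by
  have h1 : m ∈ ((optionEquivLeft ℝ (Fin n) u).coeff j).support := mem_support_iff.2 h
  rw [mem_support_coeff_optionEquivLeft] at h1
  have h2 := hu (mem_support_iff.1 h1)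
  rw [Finsupp.weight_apply, Finsupp.sum_fintype _ _ (by simp), Fintype.sum_option] at h2
  simpa using h2

theorem phi_rename (p : MvPolynomial (Fin n) ℝ) :
    optionEquivLeft ℝ (Fin n) (rename some p) = Polynomial.C p := by
  induction p using MvPolynomial.induction_on with
  | C a =>
    rw [rename_C]
    simp
  | add p q hp hq => rw [map_add, map_add, hp, hq, Polynomial.C_add]
  | mul_X p i hp =>
    rw [map_mul, map_mul, hp, rename_X, Polynomial.C_mul, optionEquivLeft_X_some]

theorem coeff_eq {u : MvPolynomial (Option (Fin n)) ℝ} (hu : u.IsHomogeneous n) :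
    (optionEquivLeft ℝ (Fin n) u).coeff n =
      C (MvPolynomial.eval (fun i => Option.elim i 1 fun _ => 0) u) := by
  set v := optionEquivLeft ℝ (Fin n) u with hv
  have h0 : ∀ m, m ≠ 0 → coeff m (v.coeff n) = 0 := by
    intro m hm
    by_contra hc
    have h1 := deg_of hu hc
    apply hm
    have h2 : ∑ i, m i = 0 := by omega
    ext i
    exact (Finset.sum_eq_zero_iff.1 h2) i (Finset.mem_univ i)
  have h1 : MvPolynomial.eval (fun i => Option.elim i 1 fun _ => 0) u =
      coeff 0 (v.coeff n) := by
    rw [optionEquivLeft_elim_eval, ← hv, Polynomial.eval_eq_sum_range' (n := v.natDegree + n + 1)]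
    · rw [Finset.sum_eq_single n]
      · simp [constantCoeff_eq, ← constantCoeff_eq]
      · intro j _ hj
        have : coeff 0 (v.coeff j) = 0 := by
          by_contra hc
          have h1 := deg_of hu hc
          simp at h1
          exact hj h1
        simp [constantCoeff_eq, this]
      · intro h
        exact absurd (Finset.mem_range.2 (by omega)) h
    · exact lt_of_le_of_lt Polynomial.natDegree_map_le (by omega)
  rw [h1]
  ext m
  rw [coeff_C]
  split_ifs with hm
  · rw [← hm]
  · exact h0 m (fun h => hm h.symm)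

end Frmx

open Frmx in
theorem thm_Frm : St_Frm := by
  intro n u c hu hc hc0
  set v := optionEquivLeft ℝ (Fin n) u with hv
  refine ⟨fun k => C c⁻¹ * v.coeff (n - 1 - (k : ℕ)), ?_⟩
  apply (optionEquivLeft ℝ (Fin n)).injective
  rw [map_mul, optionEquivLeft_C, PP, map_add, map_pow, map_sum, optionEquivLeft_X_none, ← hv]
  have hcc : (C c : MvPolynomial (Fin n) ℝ) * C c⁻¹ = 1 := by
    rw [← C_mul, mul_inv_cancel₀ hc0, C_1]
  ext1 j
  rw [Polynomial.coeff_C_mul, Polynomial.coeff_add, Polynomial.coeff_X_pow,
    Polynomial.finsetSum_coeff]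
  have h2 : ∀ k : Fin n, (optionEquivLeft ℝ (Fin n)
      (rename some (C c⁻¹ * v.coeff (n - 1 - (k : ℕ))) * X none ^ (n - 1 - (k : ℕ)))).coeff j =
      if j = n - 1 - (k : ℕ) then C c⁻¹ * v.coeff j else 0 := by
    intro k
    rw [map_mul, phi_rename, map_pow, optionEquivLeft_X_none, Polynomial.coeff_C_mul,
      Polynomial.coeff_X_pow]
    split_ifs with h
    · rw [← h, mul_one]
    · rw [mul_zero]
  rw [Finset.sum_congr rfl fun k _ => h2 k]
  rcases lt_trichotomy j n with h | h | h
  · rw [if_neg h.ne, zero_add, Finset.sum_eq_single (⟨n - 1 - j, by omega⟩ : Fin n)]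
    · rw [if_pos (by simp only; omega), ← mul_assoc, hcc, one_mul]
    · intro k _ hk
      refine if_neg fun h' => hk ?_
      apply Fin.ext
      have := k.2
      simp only
      omega
    · intro h'
      exact absurd (Finset.mem_univ _) h'
  · subst h
    rw [if_pos rfl, Finset.sum_eq_zero, add_zero, mul_one, coeff_eq hu, hc]
    intro k _
    exact if_neg (by have := k.2; omega)
  · rw [if_neg h.ne', Finset.sum_eq_zero, add_zero, mul_zero]
    · ext m
      rw [coeff_zero]
      by_contra hcon
      have := deg_of hu hcon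
      omega
    · intro k _
      exact if_neg (by have := k.2; omega)

end Pool.Agent.LFD
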