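import Pool.Agent.LFD.St
import Pool.Agent.RRC.B1a
import Pool.Agent.RRC.B1b

/-!
# Linear free divisors, module Fwd: the tangent fields of an admissible collection
-/

set_option autoImplicit false

noncomputable section

namespace Pool.Agent.LFD

open MvPolynomial Helper28.Nij RRC

namespace Fwdx

/-! ### the derivations -/

section

variable {ι : Type} [Fintype ι]

theorem der_mul (A : Matrix ι ι ℝ) (f g : MvPolynomial ι ℝ) :
    der A (f * g) = f * der A g + g * der A f := by
  rw [der, der, der, Finset.mul_sum, Finset.mul_sum, ← Finset.sum_add_distrib]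
  refine Finset.sum_congr rfl fun i _ => ?_
  rw [pderiv_mul]
  ring

theorem der_X [DecidableEq ι] (A : Matrix ι ι ℝ) (k : ι) : der A (X k) = fld A k := by
  rw [der, Finset.sum_eq_single k]
  · rw [pderiv_X_self, mul_one]
  · intro b _ hb
    rw [pderiv_X_of_ne (Ne.symm hb), mul_zero]
  · intro h; exact absurd (Finset.mem_univ k) h

theorem fld_one [DecidableEq ι] (k : ι) : fld (1 : Matrix ι ι ℝ) k = X k := by
  rw [fld, Finset.sum_eq_single k]
  · rw [Matrix.one_apply_eq, C_1, one_mul]
  · intro b _ hb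
    rw [Matrix.one_apply_ne (Ne.symm hb), C_0, zero_mul]
  · intro h; exact absurd (Finset.mem_univ k) h

end

variable {n : ℕ}

theorem PP_hom {σ : Fin n → MvPolynomial (Fin n) ℝ} (h : ∀ i, (σ i).IsHomogeneous (i + 1)) :
    (PP σ).IsHomogeneous n := by
  refine IsHomogeneous.add ?_ (IsHomogeneous.sum _ _ _ fun k _ => ?_)
  · have := (isHomogeneous_X ℝ (none : Option (Fin n))).pow n
    rwa [one_mul] at this
  · have h1 := ((h k).rename_isHomogeneous (f := (some : Fin n → Option (Fin n)))).mul
      ((isHomogeneous_X ℝ (none : Option (Fin n))).pow (n - 1 - (k : ℕ)))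
    have h2 : (k : ℕ) + 1 + 1 * (n - 1 - (k : ℕ)) = n := by have := k.2; omega
    rwa [h2] at h1

theorem euler {σ : Fin n → MvPolynomial (Fin n) ℝ} (h : ∀ i, (σ i).IsHomogeneous (i + 1)) :
    (X none * PP σ) ∣ der (1 : Matrix (Option (Fin n)) (Option (Fin n)) ℝ) (X none * PP σ) := by
  have h1 := (isHomogeneous_X ℝ (none : Option (Fin n))).mul (PP_hom h)
  have h2 := h1.sum_X_mul_pderiv
  have h3 : der (1 : Matrix (Option (Fin n)) (Option (Fin n)) ℝ) (X none * PP σ) =
      ∑ i, X i * pderiv i (X none * PP σ) := by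
    rw [der]
    exact Finset.sum_congr rfl fun i _ => by rw [fld_one]
  rw [h3, h2]
  exact Dvd.intro_left _ (nsmul_eq_mul _ _).symm

/-- The tangent matrix of index `j`. -/
def TM (c : Fin n → Fin n → Fin n → ℝ) (j : Fin n) :
    Matrix (Option (Fin n)) (Option (Fin n)) ℝ :=
  Matrix.of fun i l => Option.elim i 0 fun i' => Option.elim l (if i' = j then 1 else 0)
    fun l' => - c i' j l'

theorem fld_TM_none (c : Fin n → Fin n → Fin n → ℝ) (j : Fin n) : fld (TM c j) none = 0 := by
  rw [fld]
  refine Finset.sum_eq_zero fun l _ => ?_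
  show C (0 : ℝ) * X l = 0
  rw [C_0, zero_mul]

theorem fld_TM_some {σ : Fin n → MvPolynomial (Fin n) ℝ} {M : Matrix (Fin n) (Fin n)
    (MvPolynomial (Fin n) ℝ)} {c : Fin n → Fin n → Fin n → ℝ} (h : B1b.Dat σ M c)
    (i j : Fin n) :
    fld (TM c j) (some i) = (if i = j then X none else 0) - rename some (M i j) := by
  rw [fld, Fintype.sum_option]
  have h1 : TM c j (some i) none = if i = j then 1 else 0 := rfl
  have h2 : ∀ l, TM c j (some i) (some l) = - c i j l := fun l => rfl
  rw [h1, h.hM, map_sum, sub_eq_add_neg, ← Finset.sum_neg_distrib]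
  congr 1
  · split_ifs
    · rw [C_1, one_mul]
    · rw [C_0, zero_mul]
  · refine Finset.sum_congr rfl fun l _ => ?_
    rw [h2, map_mul, rename_C, rename_X, C_neg, neg_mul]

/-- The derivative of `PP σ` in the direction `some i`. -/
theorem pderiv_PP (σ : Fin n → MvPolynomial (Fin n) ℝ) (i : Fin n) :
    pderiv (some i) (PP σ) =
      ∑ k : Fin n, rename some (pderiv i (σ k)) * X none ^ (n - 1 - (k : ℕ)) := by
  have h0 : pderiv (some i) (X none : MvPolynomial (Option (Fin n)) ℝ) = 0 :=
    pderiv_X_of_ne (by simp)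
  have h1 : ∀ r : ℕ, pderiv (some i) (X none ^ r : MvPolynomial (Option (Fin n)) ℝ) = 0 := by
    intro r
    rw [pderiv_pow, h0, mul_zero]
  rw [PP, map_add, h1, zero_add, map_sum]
  refine Finset.sum_congr rfl fun k _ => ?_
  rw [pderiv_mul, h1, mul_zero, add_zero,
    pderiv_rename (f := (some : Fin n → Option (Fin n))) (Option.some_injective _)]

theorem tel (g : ℕ → MvPolynomial (Option (Fin n)) ℝ) :
    ∑ k : Fin n, g k - ∑ k : Fin n, g (k + 1) = g 0 - g n := by
  rw [Fin.sum_univ_eq_sum_range (fun k => g k) n, Fin.sum_univ_eq_sum_range (fun k => g (k + 1)) n,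
    ← Finset.sum_sub_distrib]
  have := Finset.sum_range_sub' g n
  exact this

theorem der_PP {σ : Fin n → MvPolynomial (Fin n) ℝ} {M : Matrix (Fin n) (Fin n)
    (MvPolynomial (Fin n) ℝ)} {c : Fin n → Fin n → Fin n → ℝ} (h : B1b.Dat σ M c) (j : Fin n) :
    der (TM c j) (PP σ) = rename some (pderiv j (B1b.SS' σ 0)) * PP σ := by
  classical
  rw [der, Fintype.sum_option, fld_TM_none, zero_mul, zero_add]
  have h1 : ∀ i : Fin n, fld (TM c j) (some i) * pderiv (some i) (PP σ) =
      (if i = j then X none * pderiv (some i) (PP σ) else 0) -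
        ∑ k : Fin n, rename some (pderiv i (σ k) * M i j) * X none ^ (n - 1 - (k : ℕ)) := by
    intro i
    rw [fld_TM_some h, sub_mul]
    congr 1
    · split_ifs
      · rfl
      · rw [zero_mul]
    · rw [pderiv_PP, Finset.mul_sum]
      refine Finset.sum_congr rfl fun k _ => ?_
      rw [map_mul]
      ring
  rw [Finset.sum_congr rfl fun i _ => h1 i, Finset.sum_sub_distrib, Finset.sum_ite_eq',
    if_pos (Finset.mem_univ j), Finset.sum_comm]
  have h2 : ∀ k : Fin n, ∑ i : Fin n,
      rename (some : Fin n → Option (Fin n)) (pderiv i (σ k) * M i j) *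
        X none ^ (n - 1 - (k : ℕ)) =
      rename some (pderiv j (B1b.SS' σ (k + 1))) * X none ^ (n - ((k : ℕ) + 1)) -
        rename some (pderiv j (B1b.SS' σ 0)) *
          (rename some (σ k) * X none ^ (n - 1 - (k : ℕ))) := by
    intro k
    rw [← Finset.sum_mul, ← map_sum]
    have h3 : ∑ i : Fin n, pderiv i (σ k) * M i j =
        pderiv j (B1b.SS' σ (k + 1)) - σ k * pderiv j (B1b.SS' σ 0) := by
      rw [← B1b.comp_jac, ← h.JM, Matrix.mul_apply]
      rfl
    have h4 : n - ((k : ℕ) + 1) = n - 1 - (k : ℕ) := by omega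
    rw [h3, map_sub, map_mul, h4]
    ring
  rw [Finset.sum_congr rfl fun k _ => h2 k, Finset.sum_sub_distrib, ← Finset.mul_sum]
  have h5 : X none * pderiv (some j) (PP σ) = ∑ k : Fin n,
      rename some (pderiv j (B1b.SS' σ k)) * X none ^ (n - (k : ℕ)) := by
    rw [pderiv_PP, Finset.mul_sum]
    refine Finset.sum_congr rfl fun k _ => ?_
    have h6 : n - (k : ℕ) = n - 1 - (k : ℕ) + 1 := by have := k.2; omega
    rw [B1b.SS'_fin, h6, pow_succ]
    ring
  have h7 := tel (fun k => rename (some : Fin n → Option (Fin n)) (pderiv j (B1b.SS' σ k)) *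
    X none ^ (n - k))
  simp only [Nat.sub_zero, Nat.sub_self, B1b.SS'_of_le σ n le_rfl, map_zero, zero_mul,
    sub_zero] at h7
  rw [h5, PP]
  linear_combination h7

theorem tangent {σ : Fin n → MvPolynomial (Fin n) ℝ} {M : Matrix (Fin n) (Fin n)
    (MvPolynomial (Fin n) ℝ)} {c : Fin n → Fin n → Fin n → ℝ} (h : B1b.Dat σ M c) (j : Fin n) :
    (X none * PP σ) ∣ der (TM c j) (X none * PP σ) := by
  rw [der_mul, der_X, fld_TM_none, mul_zero, add_zero, der_PP h]
  exact ⟨rename some (pderiv j (B1b.SS' σ 0)), by ring⟩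

/-- The determinant. -/
theorem det_eq {σ : Fin n → MvPolynomial (Fin n) ℝ} {M : Matrix (Fin n) (Fin n)
    (MvPolynomial (Fin n) ℝ)} {c : Fin n → Fin n → Fin n → ℝ} (h : B1b.Dat σ M c) :
    (Matrix.of fun k i => fld (Option.elim k 1 (TM c)) i :
      Matrix (Option (Fin n)) (Option (Fin n)) (MvPolynomial (Option (Fin n)) ℝ)).det =
      X none * PP σ := by
  classical
  set φ : Polynomial (MvPolynomial (Fin n) ℝ) →+* MvPolynomial (Option (Fin n)) ℝ :=
    Polynomial.eval₂RingHom (rename (some : Fin n → Option (Fin n))).toRingHom (X none) with hφ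
  have hX : φ Polynomial.X = X none := Polynomial.eval₂_X _ _
  have hC : ∀ p, φ (Polynomial.C p) = rename some p := fun p => Polynomial.eval₂_C _ _
  have h1 : φ (B1b.PP σ) = PP σ := by
    rw [B1b.PP, PP, map_add, map_pow, hX, map_sum]
    congr 1
    refine Finset.sum_congr rfl fun k _ => ?_
    rw [map_mul, map_pow, hX, hC]
  have h2 : (φ.mapMatrix M.charmatrix).det = PP σ := by
    rw [← RingHom.map_det, ← h1, ← B1b.charpoly_M h]
    rfl
  set W : Matrix (Option (Fin n)) (Option (Fin n)) (MvPolynomial (Option (Fin n)) ℝ) :=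
    Matrix.of fun k i => fld (Option.elim k 1 (TM c)) i with hW
  have h3 : Matrix.reindex (Equiv.optionEquivSumPUnit (Fin n))
      (Equiv.optionEquivSumPUnit (Fin n)) W =
      Matrix.fromBlocks ((φ.mapMatrix M.charmatrix).transpose) 0
        (Matrix.of fun (_ : PUnit.{1}) (i : Fin n) => X (some i))
        (Matrix.of fun (_ : PUnit.{1}) (_ : PUnit.{1}) => X none) := by
    ext1 a b
    rcases a with a | a <;> rcases b with b | b
    · show fld (TM c a) (some b) = φ (M.charmatrix b a)
      rw [fld_TM_some h, Matrix.charmatrix_apply, map_sub, hC, Matrix.diagonal_apply]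
      congr 1
      split_ifs
      · exact hX.symm
      · exact (map_zero φ).symm
    · show fld (TM c a) none = 0
      exact fld_TM_none c a
    · show fld (1 : Matrix (Option (Fin n)) (Option (Fin n)) ℝ) (some b) = X (some b)
      exact fld_one _
    · show fld (1 : Matrix (Option (Fin n)) (Option (Fin n)) ℝ) none = X none
      exact fld_one _
  rw [← Matrix.det_reindex_self (Equiv.optionEquivSumPUnit (Fin n)) W, h3,
    Matrix.det_fromBlocks_zero₁₂, Matrix.det_transpose, h2, Matrix.det_unique, mul_comm]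
  rfl

end Fwdx

/-- **Fwd.** The tangent fields of an admissible collection. -/
theorem thm_Fwd : St_Fwd := by
  intro n σ hσ
  obtain ⟨hdet, M, hM, hJM⟩ := thm_B1a n σ hσ
  have h : B1b.Dat σ M (fun i j l => MvPolynomial.coeff (Finsupp.single l 1) (M i j)) :=
    ⟨hσ.homog, hdet, fun i j => B1b.lin_eq _ (hM i j), hJM⟩
  refine ⟨fun k => Option.elim k 1 (Fwdx.TM _), ?_, Fwdx.det_eq h⟩
  intro k
  rcases k with _ | k
  · exact Fwdx.euler hσ.homog
  · exact Fwdx.tangent h k

end Pool.Agent.LFD
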