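import Pool.Agent.LFD.St

set_option autoImplicit false

/-!
# Linear equivalences (statement Inj)
-/

noncomputable section

namespace Pool.Agent.LFD

namespace Injx

open MvPolynomial Helper28.Nij

variable {n : ℕ}

/-- The block diagonal matrix `(A, 1)`. -/
def blk (A : Matrix (Fin n) (Fin n) ℝ) : Matrix (Option (Fin n)) (Option (Fin n)) ℝ :=
  (Matrix.fromBlocks A 0 0 (1 : Matrix PUnit.{1} PUnit.{1} ℝ)).submatrix
    (Equiv.optionEquivSumPUnit (Fin n)) (Equiv.optionEquivSumPUnit (Fin n))

theorem blk_det (A : Matrix (Fin n) (Fin n) ℝ) : (blk A).det = A.det := by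
  unfold blk
  rw [Matrix.det_submatrix_equiv_self, Matrix.det_fromBlocks_zero₁₂, Matrix.det_one, mul_one]

theorem blk_ss (A : Matrix (Fin n) (Fin n) ℝ) (i j : Fin n) :
    blk A (some i) (some j) = A i j := by
  simp [blk]

theorem blk_sn (A : Matrix (Fin n) (Fin n) ℝ) (i : Fin n) : blk A (some i) none = 0 := by
  simp [blk]

theorem blk_ns (A : Matrix (Fin n) (Fin n) ℝ) (j : Fin n) : blk A none (some j) = 0 := by
  simp [blk]

theorem blk_nn (A : Matrix (Fin n) (Fin n) ℝ) : blk A none none = 1 := by
  simp [blk]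

theorem eq_blk (B : Matrix (Option (Fin n)) (Option (Fin n)) ℝ)
    (h1 : ∀ i, B (some i) none = 0) (h2 : ∀ j, B none (some j) = 0) (h3 : B none none = 1) :
    B = blk (Matrix.of fun i j => B (some i) (some j)) := by
  ext i j
  rcases i with _ | i
  · rcases j with _ | j
    · rw [blk_nn, h3]
    · rw [blk_ns, h2]
  · rcases j with _ | j
    · rw [blk_sn, h1]
    · rw [blk_ss, Matrix.of_apply]

theorem sub_none (A : Matrix (Fin n) (Fin n) ℝ) : sub (blk A) (X none) = X none := by
  unfold sub
  rw [aeval_X]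
  unfold fld
  rw [Fintype.sum_option, blk_nn, Finset.sum_eq_zero (fun j _ => by rw [blk_ns, map_zero, zero_mul]),
    map_one, one_mul, add_zero]

theorem fld_some (A : Matrix (Fin n) (Fin n) ℝ) (i : Fin n) :
    fld (blk A) (some i) = rename some (fld A i) := by
  unfold fld
  rw [Fintype.sum_option, blk_sn, map_zero, zero_mul, zero_add, map_sum]
  refine Finset.sum_congr rfl fun j _ => ?_
  rw [blk_ss, map_mul, rename_C, rename_X]

theorem sub_rename (A : Matrix (Fin n) (Fin n) ℝ) (f : MvPolynomial (Fin n) ℝ) :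
    sub (blk A) (rename some f) = rename some (sub A f) := by
  unfold sub
  rw [aeval_rename]
  have h : ((fun i => fld (blk A) i) ∘ some) = fun i => rename some (fld A i) := by
    funext i
    exact fld_some A i
  rw [h]
  exact (comp_aeval_apply (fun i => fld A i) (rename some) f).symm

theorem sub_PP (A : Matrix (Fin n) (Fin n) ℝ) (σ : Fin n → MvPolynomial (Fin n) ℝ) :
    sub (blk A) (PP σ) = PP fun k => sub A (σ k) := by
  have h1 := sub_none A
  have h2 := fun f => sub_rename A f
  unfold PP
  have h3 : sub (blk A) (X none ^ n + ∑ k : Fin n, rename some (σ k) * X none ^ (n - 1 - (k : ℕ))) =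
      sub (blk A) (X none) ^ n +
        ∑ k : Fin n, sub (blk A) (rename some (σ k)) * sub (blk A) (X none) ^ (n - 1 - (k : ℕ)) := by
    unfold sub
    rw [map_add, map_pow, map_sum]
    congr 1
    refine Finset.sum_congr rfl fun k _ => ?_
    rw [map_mul, map_pow]
  rw [h3, h1]
  congr 1
  exact Finset.sum_congr rfl fun k _ => by rw [h2]

theorem sub_mul' (B : Matrix (Option (Fin n)) (Option (Fin n)) ℝ)
    (f g : MvPolynomial (Option (Fin n)) ℝ) : sub B (f * g) = sub B f * sub B g := by
  unfold sub
  rw [map_mul]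

/-- the value of `PP σ` as a polynomial in `t` -/
theorem eval_PP (σ : Fin n → MvPolynomial (Fin n) ℝ) (x : Fin n → ℝ) (t : ℝ) :
    MvPolynomial.eval (fun i => Option.elim i t x) (PP σ) =
      t ^ n + ∑ k : Fin n, MvPolynomial.eval x (σ k) * t ^ (n - 1 - (k : ℕ)) := by
  unfold PP
  rw [map_add, map_pow, eval_X, map_sum]
  congr 1
  refine Finset.sum_congr rfl fun k _ => ?_
  rw [map_mul, map_pow, eval_X, eval_rename]
  rfl

theorem PP_inj (σ τ : Fin n → MvPolynomial (Fin n) ℝ) (h : PP σ = PP τ) (k : Fin n) :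
    σ k = τ k := by
  refine MvPolynomial.funext fun x => ?_
  let P : (Fin n → MvPolynomial (Fin n) ℝ) → Polynomial ℝ := fun ρ =>
    ∑ k : Fin n, Polynomial.C (MvPolynomial.eval x (ρ k)) * Polynomial.X ^ (n - 1 - (k : ℕ))
  have h1 : P σ = P τ := by
    refine Polynomial.funext fun t => ?_
    have h2 := congrArg (MvPolynomial.eval (fun i => Option.elim i t x)) h
    rw [eval_PP, eval_PP] at h2
    have h3 := add_left_cancel h2
    show Polynomial.eval t (∑ k : Fin n, _) = Polynomial.eval t (∑ k : Fin n, _)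
    rw [Polynomial.eval_finsetSum, Polynomial.eval_finsetSum]
    simpa only [Polynomial.eval_mul, Polynomial.eval_C, Polynomial.eval_pow,
      Polynomial.eval_X] using h3
  have h4 : ∀ ρ : Fin n → MvPolynomial (Fin n) ℝ,
      (P ρ).coeff (n - 1 - (k : ℕ)) = MvPolynomial.eval x (ρ k) := by
    intro ρ
    show Polynomial.coeff (∑ k : Fin n, _) _ = _
    rw [Polynomial.finsetSum_coeff, Finset.sum_eq_single k]
    · rw [Polynomial.coeff_C_mul, Polynomial.coeff_X_pow, if_pos rfl, mul_one]
    · intro l _ hl
      rw [Polynomial.coeff_C_mul, Polynomial.coeff_X_pow, if_neg, mul_zero]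
      intro hc
      have h5 := k.2
      have h6 := l.2
      exact hl (Fin.ext (by omega))
    · intro hc
      exact absurd (Finset.mem_univ k) hc
  rw [← h4 σ, ← h4 τ, h1]

theorem eval_fld (B : Matrix (Option (Fin n)) (Option (Fin n)) ℝ) (i j : Option (Fin n)) :
    MvPolynomial.eval (fun l => if l = j then (1 : ℝ) else 0) (fld B i) = B i j := by
  unfold fld
  rw [map_sum, Finset.sum_eq_single j]
  · rw [map_mul, eval_C, eval_X, if_pos rfl, mul_one]
  · intro l _ hl
    rw [map_mul, eval_C, eval_X, if_neg hl, mul_zero]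
  · intro hc
    exact absurd (Finset.mem_univ j) hc

end Injx

open MvPolynomial Helper28.Nij Injx in
/-- Linear equivalences of collections are the isomorphisms of the triples `(t P, t, (0, 1))`. -/
theorem thm_Inj : St_Inj := by
  intro n σ τ
  constructor
  · rintro ⟨A, hA, h⟩
    refine ⟨blk A, by rw [blk_det]; exact hA, blk_sn A, sub_none A, ?_⟩
    rw [sub_mul', sub_none, sub_PP]
    congr 2
    funext k
    exact h k
  · rintro ⟨B, hB, h1, h2, h3⟩
    have h4 : fld B none = X none := by
      have h5 := h2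
      unfold sub at h5
      rw [aeval_X] at h5
      exact h5
    have h5 : ∀ j : Option (Fin n), B none j = if none = j then 1 else 0 := by
      intro j
      rw [← eval_fld B none j, h4, eval_X]
    have h6 := eq_blk B h1 (fun j => by rw [h5, if_neg (by simp)]) (by rw [h5, if_pos rfl])
    refine ⟨Matrix.of fun i j => B (some i) (some j), ?_, fun k => ?_⟩
    · rw [← blk_det, ← h6]
      exact hB
    · rw [sub_mul', h2] at h3
      have h7 := mul_left_cancel₀ (X_ne_zero _) h3
      rw [h6, sub_PP] at h7
      exact PP_inj _ _ h7 k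

end Pool.Agent.LFD
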