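import Pool.Agent.LFD.St

/-!
# Linear free divisors (MP_835236_al): from linear free divisors to left-symmetric algebras (`Lf1`)
-/

set_option autoImplicit false

noncomputable section

namespace Pool.Agent.LFD

open scoped Polynomial
open MvPolynomial Helper28.Nij RRC

namespace Lf1x

section gen

variable {ι : Type} [Fintype ι]

lemma eval_fld (A : Matrix ι ι ℝ) (i : ι) (v : ι → ℝ) :
    MvPolynomial.eval v (fld A i) = (A.mulVec v) i := by
  simp [fld, Matrix.mulVec, dotProduct]

lemma fld_sum {κ : Type} (s : Finset κ) (g : κ → ℝ) (A : κ → Matrix ι ι ℝ) (i : ι) :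
    fld (∑ k ∈ s, g k • A k) i = ∑ k ∈ s, C (g k) * fld (A k) i := by
  simp only [fld, Matrix.sum_apply, Matrix.smul_apply, smul_eq_mul, map_sum, C_mul, Finset.sum_mul,
    Finset.mul_sum, mul_assoc]
  exact Finset.sum_comm

lemma der_sum {κ : Type} (s : Finset κ) (g : κ → ℝ) (A : κ → Matrix ι ι ℝ)
    (f : MvPolynomial ι ℝ) :
    der (∑ k ∈ s, g k • A k) f = ∑ k ∈ s, C (g k) * der (A k) f := by
  simp only [der, fld_sum, Finset.sum_mul, Finset.mul_sum, mul_assoc]
  exact Finset.sum_comm

lemma dvd_der_sum {κ : Type} (s : Finset κ) (g : κ → ℝ) (A : κ → Matrix ι ι ℝ)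
    {h : MvPolynomial ι ℝ} (hA : ∀ k, h ∣ der (A k) h) : h ∣ der (∑ k ∈ s, g k • A k) h := by
  rw [der_sum]
  exact Finset.dvd_sum fun k _ => (hA k).mul_left _

lemma eval_homog {h : MvPolynomial ι ℝ} {N : ℕ} (hh : h.IsHomogeneous N) (t : ℝ) (v : ι → ℝ) :
    MvPolynomial.eval (t • v) h = t ^ N * MvPolynomial.eval v h := by
  rw [eval_eq', eval_eq', Finset.mul_sum]
  refine Finset.sum_congr rfl fun d hd => ?_
  have h1 : ∑ i, d i = N := by
    have h2 := hh.degree_eq_sum_deg_support hd
    rw [h2]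
    exact (Finset.sum_subset (Finset.subset_univ _) (fun i _ hi => by simpa using hi)).symm
  have h2 : ∏ i, (t • v) i ^ d i = t ^ N * ∏ i, v i ^ d i := by
    simp only [Pi.smul_apply, smul_eq_mul, mul_pow, Finset.prod_mul_distrib]
    rw [Finset.prod_pow_eq_pow_sum, h1]
  rw [h2]
  ring

end gen

/-- The point `(x, t)`. -/
def vec {n : ℕ} (x : Fin n → ℝ) (t : ℝ) : Option (Fin n) → ℝ := fun o => o.elim t x

variable {n : ℕ}

lemma vec_none (x : Fin n → ℝ) (t : ℝ) : vec x t none = t := rfl

lemma vec_some (x : Fin n → ℝ) (t : ℝ) (i : Fin n) : vec x t (some i) = x i := rfl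

lemma eval_PP (σ : Fin n → MvPolynomial (Fin n) ℝ) (x : Fin n → ℝ) (t : ℝ) :
    MvPolynomial.eval (vec x t) (PP σ) =
      t ^ n + ∑ k : Fin n, MvPolynomial.eval x (σ k) * t ^ (n - 1 - (k : ℕ)) := by
  have h : vec x t ∘ (some : Fin n → Option (Fin n)) = x := by
    ext i; rfl
  simp only [PP, map_add, map_pow, map_sum, map_mul, eval_X, vec_none, eval_rename, h]

/-- The polynomial `P(x, .)`. -/
def mp (a : Fin n → ℝ) : ℝ[X] :=
  Polynomial.X ^ n + ∑ k : Fin n, Polynomial.C (a k) * Polynomial.X ^ (n - 1 - (k : ℕ))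

lemma eval_mp (a : Fin n → ℝ) (t : ℝ) :
    (mp a).eval t = t ^ n + ∑ k : Fin n, a k * t ^ (n - 1 - (k : ℕ)) := by
  simp [mp, Polynomial.eval_finsetSum]

lemma coeff_mp_n (a : Fin n → ℝ) : (mp a).coeff n = 1 := by
  simp only [mp, Polynomial.coeff_add, Polynomial.coeff_X_pow, if_true, Polynomial.finsetSum_coeff,
    Polynomial.coeff_C_mul]
  rw [Finset.sum_eq_zero, add_zero]
  intro k _
  rw [if_neg, mul_zero]
  have := k.2
  omega

lemma coeff_mp (a : Fin n → ℝ) (k : Fin n) : (mp a).coeff (n - 1 - (k : ℕ)) = a k := by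
  simp only [mp, Polynomial.coeff_add, Polynomial.coeff_X_pow, Polynomial.finsetSum_coeff,
    Polynomial.coeff_C_mul]
  have hk := k.2
  rw [if_neg (by omega), zero_add, Finset.sum_eq_single k]
  · simp
  · intro j _ hj
    rw [if_neg, mul_zero]
    intro h
    apply hj
    have := j.2
    ext
    omega
  · intro h
    exact absurd (Finset.mem_univ _) h

lemma der_X_mul (A : Matrix (Option (Fin n)) (Option (Fin n)) ℝ)
    (P : MvPolynomial (Option (Fin n)) ℝ) :
    der A (X none * P) = fld A none * P + X none * der A P := by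
  have h : ∀ i, fld A i * pderiv i (X none * P) =
      (if i = none then fld A none * P else 0) + X none * (fld A i * pderiv i P) := by
    intro i
    rw [Derivation.leibniz, pderiv_X, smul_eq_mul, smul_eq_mul]
    by_cases hi : i = none
    · subst hi
      rw [Pi.single_eq_same, if_pos rfl]
      ring
    · rw [Pi.single_eq_of_ne (fun h => hi h.symm), if_neg hi]
      ring
  unfold der
  rw [Finset.sum_congr rfl fun i _ => h i, Finset.sum_add_distrib, ← Finset.mul_sum]
  simp

lemma row_zero {P : MvPolynomial (Option (Fin n)) ℝ} (hP : ¬ (X none ∣ P))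
    {A : Matrix (Option (Fin n)) (Option (Fin n)) ℝ} (hA : X none * P ∣ der A (X none * P))
    (j : Fin n) : A none (some j) = 0 := by
  have h1 : (X none : MvPolynomial (Option (Fin n)) ℝ) ∣ fld A none * P := by
    have h2 : (X none : MvPolynomial (Option (Fin n)) ℝ) ∣ der A (X none * P) :=
      (Dvd.intro _ rfl).trans hA
    rw [der_X_mul] at h2
    exact (dvd_add_left (Dvd.intro _ rfl)).1 h2
  rcases (X_prime (R := ℝ) (i := (none : Option (Fin n)))).dvd_or_dvd h1 with h3 | h3
  · obtain ⟨u, hu⟩ := h3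
    have h4 := congrArg (MvPolynomial.eval (Pi.single (some j) 1 : Option (Fin n) → ℝ)) hu
    rw [eval_fld] at h4
    simpa using h4
  · exact absurd h3 hP

/-- The determinant of a matrix with the row structure of the tangent fields. -/
lemma det_block (N : Matrix (Option (Fin n)) (Option (Fin n)) ℝ)
    (h : ∀ j : Fin n, N (some j) none = 0) :
    N.det = N none none * (Matrix.of fun j i : Fin n => N (some j) (some i)).det := by
  rw [← Matrix.det_submatrix_equiv_self (Equiv.optionEquivSumPUnit.{0, 0} (Fin n)).symm N]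
  have h1 : N.submatrix (Equiv.optionEquivSumPUnit.{0, 0} (Fin n)).symm
      (Equiv.optionEquivSumPUnit.{0, 0} (Fin n)).symm =
      Matrix.fromBlocks (Matrix.of fun j i : Fin n => N (some j) (some i)) 0
        (Matrix.of fun (_ : PUnit.{1}) (i : Fin n) => N none (some i))
        (Matrix.of fun (_ _ : PUnit.{1}) => N none none) := by
    ext a b
    rcases a with a | a <;> rcases b with b | b <;> simp [h]
  rw [h1, Matrix.det_fromBlocks_zero₁₂, mul_comm]
  congr 1
  rw [Matrix.det_unique]
  rfl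

section main

variable (h : MvPolynomial (Option (Fin n)) ℝ)
  (B : Option (Fin n) → Matrix (Option (Fin n)) (Option (Fin n)) ℝ)

/-- The combination `∑ a_j B_j`. -/
def LL (a : Fin n → ℝ) : Matrix (Option (Fin n)) (Option (Fin n)) ℝ := ∑ j : Fin n, a j • B (some j)

lemma LL_eq (a : Fin n → ℝ) : LL B a = ∑ k : Option (Fin n), vec a 0 k • B k := by
  rw [Fintype.sum_option]
  simp [LL, vec]

lemma LL_add (a b : Fin n → ℝ) : LL B (a + b) = LL B a + LL B b := by
  simp [LL, add_smul, Finset.sum_add_distrib]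

lemma LL_smul (c : ℝ) (a : Fin n → ℝ) : LL B (c • a) = c • LL B a := by
  simp [LL, Finset.smul_sum, mul_smul]

/-- The product `a * x`. -/
def mm : (Fin n → ℝ) →ₗ[ℝ] (Fin n → ℝ) →ₗ[ℝ] (Fin n → ℝ) :=
  LinearMap.mk₂ ℝ (fun a x i => - ((LL B a).mulVec (vec x 0)) (some i))
    (fun a b x => by
      ext i
      rw [LL_add, Matrix.add_mulVec]
      simp only [Pi.add_apply]
      ring)
    (fun c a x => by
      ext i
      rw [LL_smul, Matrix.smul_mulVec]
      simp only [Pi.smul_apply, smul_eq_mul]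
      ring)
    (fun a x y => by
      ext i
      have h1 : vec (x + y) 0 = vec x 0 + vec y 0 := by
        ext o
        rcases o with _ | o <;> simp [vec]
      rw [h1, Matrix.mulVec_add]
      simp only [Pi.add_apply]
      ring)
    (fun c a x => by
      ext i
      have h1 : vec (c • x) 0 = c • vec x 0 := by
        ext o
        rcases o with _ | o <;> simp [vec]
      rw [h1, Matrix.mulVec_smul]
      simp only [Pi.smul_apply, smul_eq_mul]
      ring)

lemma mm_apply (a x : Fin n → ℝ) (i : Fin n) :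
    mm B a x i = - ((LL B a).mulVec (vec x 0)) (some i) := rfl

variable (hrow : ∀ k (j : Fin n), B k none (some j) = 0)
  (hcol : ∀ k i, B k i none = (1 : Matrix (Option (Fin n)) (Option (Fin n)) ℝ) k i)

include hrow hcol

lemma LL_mulVec (a x : Fin n → ℝ) (t : ℝ) :
    (LL B a).mulVec (vec x t) = vec (t • a - mm B a x) 0 := by
  have h1 : ∀ i, LL B a i none = vec a 0 i := by
    intro i
    rw [LL, Matrix.sum_apply]
    simp only [Matrix.smul_apply, hcol, smul_eq_mul]
    rcases i with _ | i
    · simp [vec]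
    · simp [vec, Matrix.one_apply]
  have h2 : ∀ j, LL B a none (some j) = 0 := by
    intro j
    rw [LL, Matrix.sum_apply]
    simp only [Matrix.smul_apply, hrow, smul_zero, Finset.sum_const_zero]
  ext i
  rcases i with _ | i
  · simp only [Matrix.mulVec, dotProduct, Fintype.sum_option, h2, zero_mul,
      Finset.sum_const_zero, add_zero, h1, vec_none]
  · simp only [vec_some, Pi.sub_apply, mm_apply, Pi.smul_apply, smul_eq_mul, Matrix.mulVec,
      dotProduct, Fintype.sum_option, h1, vec_none]
    ring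

end main

lemma vec_inj {x y : Fin n → ℝ} {t : ℝ} (hxy : vec x t = vec y t) : x = y := by
  ext i
  have := congrFun hxy (some i)
  simpa [vec] using this

variable (B : Option (Fin n) → Matrix (Option (Fin n)) (Option (Fin n)) ℝ)

lemma vec_sub (x y : Fin n → ℝ) : vec x 0 - vec y 0 = vec (x - y) 0 := by
  ext o
  rcases o with _ | o <;> simp [vec]

/-- The left-symmetric identity. -/
lemma lsa (hrow : ∀ k (j : Fin n), B k none (some j) = 0)
    (hcol : ∀ k i, B k i none = (1 : Matrix (Option (Fin n)) (Option (Fin n)) ℝ) k i)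
    (hcl : ∀ a b, ∃ g : Option (Fin n) → ℝ, LL B b * LL B a - LL B a * LL B b = ∑ k, g k • B k) :
    LSA (mm B) := by
  intro a b x
  obtain ⟨g, hg⟩ := hcl a b
  have hv : ∀ A : Matrix (Option (Fin n)) (Option (Fin n)) ℝ, ∀ i,
      A i none = (A.mulVec (vec 0 1)) i := by
    intro A i
    simp [Matrix.mulVec, dotProduct, Fintype.sum_option, vec]
  have h0 : ∀ a y, (LL B a).mulVec (vec y 0) = vec (- mm B a y) 0 := by
    intro a y
    rw [LL_mulVec B hrow hcol, zero_smul, zero_sub]
  have hY : ∀ i, (LL B b * LL B a - LL B a * LL B b) i none =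
      vec (mm B a b - mm B b a) 0 i := by
    intro i
    rw [hv (LL B b * LL B a - LL B a * LL B b) i, Matrix.sub_mulVec, ← Matrix.mulVec_mulVec,
      ← Matrix.mulVec_mulVec, LL_mulVec B hrow hcol a 0 1, LL_mulVec B hrow hcol b 0 1]
    simp only [one_smul, map_zero, sub_zero]
    have h4 : -mm B b a - -mm B a b = mm B a b - mm B b a := by abel
    rw [h0 b, h0 a, vec_sub, h4]
  have hgv : g = vec (mm B a b - mm B b a) 0 := by
    ext i
    rw [← hY i, hg, Matrix.sum_apply]
    simp only [Matrix.smul_apply, hcol, smul_eq_mul, Matrix.one_apply]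
    simp
  rw [hgv, ← LL_eq] at hg
  have h1 := congrArg (fun A => A.mulVec (vec x 0)) hg
  simp only [Matrix.sub_mulVec, ← Matrix.mulVec_mulVec] at h1
  rw [h0 a x, h0 b x, h0 _ x, h0 b _, h0 a _, vec_sub] at h1
  have h2 := vec_inj h1
  simp only [map_neg, neg_neg, map_sub, LinearMap.sub_apply] at h2
  have h3 : mm B b (mm B a x) = mm B a (mm B b x) + -(mm B (mm B a b) x - mm B (mm B b a) x) := by
    rw [← h2]
    abel
  rw [h3]
  abel

/-- The characteristic polynomials. -/
lemma charp (hrow : ∀ k (j : Fin n), B k none (some j) = 0)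
    (hcol : ∀ k i, B k i none = (1 : Matrix (Option (Fin n)) (Option (Fin n)) ℝ) k i)
    (x : Fin n → ℝ) (t : ℝ) :
    (Matrix.of fun k i => ((B k).mulVec (vec x t)) i).det =
      t * ((mm B).flip x).charpoly.eval t := by
  have hLe : ∀ j : Fin n, LL B (Pi.single j 1) = B (some j) := by
    intro j
    rw [LL, Finset.sum_eq_single j]
    · simp
    · intro l _ hl
      simp [Pi.single_eq_of_ne hl]
    · intro hj
      exact absurd (Finset.mem_univ _) hj
  rw [det_block]
  · have h1 : (Matrix.of fun k i => ((B k).mulVec (vec x t)) i) none none = t := by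
      simp [Matrix.mulVec, dotProduct, Fintype.sum_option, hrow, hcol, vec]
    rw [h1]
    congr 1
    rw [← LinearMap.charpoly_toMatrix ((mm B).flip x) (Pi.basisFun ℝ (Fin n)),
      ← Matrix.charpoly_transpose, Matrix.eval_charpoly]
    congr 1
    ext j i
    rw [Matrix.of_apply, Matrix.of_apply, ← hLe, LL_mulVec B hrow hcol, vec_some]
    simp only [Matrix.sub_apply, Matrix.transpose_apply, LinearMap.toMatrix_apply,
      Pi.basisFun_apply, Pi.basisFun_repr, LinearMap.flip_apply, Pi.sub_apply, Pi.smul_apply,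
      smul_eq_mul]
    congr 1
    simp [Matrix.diagonal_apply, Pi.single_apply, eq_comm]
  · intro j
    rw [Matrix.of_apply, ← hLe, LL_mulVec B hrow hcol, vec_none]


end Lf1x

theorem thm_Lf1 (hCom : St_Com) : St_Lf1 := by
  classical
  intro n σ hf
  obtain ⟨hsq, A, hA, c, hc, hdet⟩ := hf
  have hhom := (hCom.1 _ _ hsq A c hA hc hdet).1
  -- `h(q) = 1`
  have hev : ∀ x t, MvPolynomial.eval (Lf1x.vec x t) (X none * PP σ) =
      t * (Lf1x.mp fun k => MvPolynomial.eval x (σ k)).eval t := by
    intro x t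
    rw [map_mul, eval_X, Lf1x.eval_PP, Lf1x.eval_mp, Lf1x.vec_none]
  have hq : MvPolynomial.eval (Lf1x.vec (0 : Fin n → ℝ) 1) (X none * PP σ) = 1 := by
    set e := MvPolynomial.eval (Lf1x.vec (0 : Fin n → ℝ) 1) (X none * PP σ) with he
    have h1 : (Polynomial.X * Lf1x.mp fun k => MvPolynomial.eval (0 : Fin n → ℝ) (σ k) : ℝ[X]) =
        Polynomial.C e * Polynomial.X ^ (n + 1) := by
      apply Polynomial.funext
      intro t
      rw [Polynomial.eval_mul, Polynomial.eval_X, ← hev 0 t]
      have h2 : Lf1x.vec (0 : Fin n → ℝ) t = t • Lf1x.vec (0 : Fin n → ℝ) 1 := by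
        ext o
        rcases o with _ | o <;> simp [Lf1x.vec]
      rw [h2, Lf1x.eval_homog hhom, ← he, Fintype.card_option, Fintype.card_fin,
        Polynomial.eval_mul, Polynomial.eval_C, Polynomial.eval_pow, Polynomial.eval_X, mul_comm]
    have h3 := congrArg (fun p => Polynomial.coeff p (n + 1)) h1
    simp only [Polynomial.coeff_X_mul, Lf1x.coeff_mp_n, Polynomial.coeff_C_mul,
      Polynomial.coeff_X_pow, if_true, mul_one] at h3
    exact h3.symm
  -- tangent matrices
  have hP : ¬ ((X none : MvPolynomial (Option (Fin n)) ℝ) ∣ PP σ) := by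
    intro hd
    have h1 := hsq (X none) (mul_dvd_mul_left _ hd)
    exact (X_prime (R := ℝ) (i := (none : Option (Fin n)))).not_isUnit h1
  -- the matrix `Q`
  let Q : Matrix (Option (Fin n)) (Option (Fin n)) ℝ := Matrix.of fun k i => A k i none
  have hvq : ∀ (D : Matrix (Option (Fin n)) (Option (Fin n)) ℝ) i,
      (D.mulVec (Lf1x.vec 0 1)) i = D i none := by
    intro D i
    simp [Matrix.mulVec, dotProduct, Fintype.sum_option, Lf1x.vec]
  have hQ : Q.det = c := by
    have h1 := congrArg (MvPolynomial.eval (Lf1x.vec (0 : Fin n → ℝ) 1)) hdet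
    rw [RingHom.map_det, map_mul, eval_C, hq, mul_one] at h1
    rw [← h1]
    congr 1
    ext k i
    rw [RingHom.mapMatrix_apply, Matrix.map_apply, Matrix.of_apply, Lf1x.eval_fld, hvq]
    rfl
  have hQu : IsUnit Q.det := by
    rw [hQ]
    exact isUnit_iff_ne_zero.2 hc
  let B : Option (Fin n) → Matrix (Option (Fin n)) (Option (Fin n)) ℝ :=
    fun j => ∑ k, Q⁻¹ j k • A k
  have hB : ∀ k, X none * PP σ ∣ der (B k) (X none * PP σ) := fun k => Lf1x.dvd_der_sum _ _ _ hA
  have hrow : ∀ k (j : Fin n), B k none (some j) = 0 := fun k j => Lf1x.row_zero hP (hB k) j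
  have hcol : ∀ k i, B k i none = (1 : Matrix (Option (Fin n)) (Option (Fin n)) ℝ) k i := by
    intro k i
    rw [← Matrix.nonsing_inv_mul Q hQu, Matrix.mul_apply]
    change (∑ k', Q⁻¹ k k' • A k') i none = _
    rw [Matrix.sum_apply]
    rfl
  have hBdet : (Matrix.of fun k i => fld (B k) i).det = C 1 * (X none * PP σ) := by
    have h1 : (Matrix.of fun k i => fld (B k) i) =
        (Q⁻¹.map C) * (Matrix.of fun k i => fld (A k) i) := by
      ext1 k i
      rw [Matrix.of_apply, Lf1x.fld_sum, Matrix.mul_apply]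
      rfl
    rw [h1, Matrix.det_mul, hdet]
    have h2 : (Q⁻¹.map (C : ℝ →+* MvPolynomial (Option (Fin n)) ℝ)).det = C (Q⁻¹.det) := by
      rw [RingHom.map_det]
      rfl
    rw [h2, ← mul_assoc, ← C_mul, Matrix.det_nonsing_inv, hQ, Ring.inverse_eq_inv',
      inv_mul_cancel₀ hc]
  have hun := (hCom.1 _ _ hsq B 1 hB one_ne_zero hBdet).2
  refine ⟨Lf1x.mm B, ?_, ?_⟩
  · apply Lf1x.lsa B hrow hcol
    intro a b
    apply hun
    apply hCom.2
    · exact Lf1x.dvd_der_sum _ _ _ fun j => hB (some j)
    · exact Lf1x.dvd_der_sum _ _ _ fun j => hB (some j)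
  · intro x k
    have h1 : (Polynomial.X * ((Lf1x.mm B).flip x).charpoly : ℝ[X]) =
        Polynomial.X * Lf1x.mp fun k => MvPolynomial.eval x (σ k) := by
      apply Polynomial.funext
      intro t
      rw [Polynomial.eval_mul, Polynomial.eval_mul, Polynomial.eval_X, ← hev x t,
        ← Lf1x.charp B hrow hcol x t]
      have h2 := congrArg (MvPolynomial.eval (Lf1x.vec x t)) hBdet
      rw [RingHom.map_det, C_1, one_mul] at h2
      rw [← h2]
      congr 1
      ext k i
      rw [RingHom.mapMatrix_apply, Matrix.map_apply, Matrix.of_apply, Matrix.of_apply,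
        Lf1x.eval_fld]
    rw [mul_left_cancel₀ Polynomial.X_ne_zero h1, Lf1x.coeff_mp]

end Pool.Agent.LFD
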