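import Pool.Agent.LFD.St

/-!
# Linear free divisors, module Lin: linear changes of the variables (helper90)
-/

set_option autoImplicit false

open MvPolynomial

namespace Pool.Agent.LFD.Linx

variable {ι : Type} [Fintype ι]

theorem fld_mul (A B : Matrix ι ι ℝ) (i : ι) : ∑ j, C (A i j) * fld B j = fld (A * B) i := by
  unfold fld
  simp only [Finset.mul_sum, Matrix.mul_apply, map_sum, Finset.sum_mul]
  rw [Finset.sum_comm]
  refine Finset.sum_congr rfl fun j _ => Finset.sum_congr rfl fun l _ => ?_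
  rw [map_mul]
  ring

theorem sub_fld (A B : Matrix ι ι ℝ) (i : ι) : sub B (fld A i) = fld (A * B) i := by
  rw [← fld_mul]
  unfold sub
  conv_lhs => rw [fld]
  simp only [map_sum, map_mul, aeval_X, ← algebraMap_eq, AlgHom.commutes]

theorem sub_sub (A B : Matrix ι ι ℝ) (f : MvPolynomial ι ℝ) : sub B (sub A f) = sub (A * B) f := by
  unfold sub
  rw [← AlgHom.comp_apply]
  congr 1
  apply MvPolynomial.algHom_ext
  intro i
  rw [AlgHom.comp_apply, aeval_X, aeval_X]
  exact sub_fld A B i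

theorem sub_one [DecidableEq ι] (f : MvPolynomial ι ℝ) : sub (1 : Matrix ι ι ℝ) f = f := by
  unfold sub
  have h : (aeval (fun i => fld (1 : Matrix ι ι ℝ) i) : MvPolynomial ι ℝ →ₐ[ℝ] MvPolynomial ι ℝ) =
      AlgHom.id ℝ _ := by
    apply MvPolynomial.algHom_ext
    intro i
    rw [aeval_X, AlgHom.id_apply]
    unfold fld
    rw [Finset.sum_eq_single i]
    · rw [Matrix.one_apply_eq, C_1, one_mul]
    · intro j _ hj
      rw [Matrix.one_apply_ne hj.symm, C_0, zero_mul]
    · intro h
      exact absurd (Finset.mem_univ i) h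
  rw [h, AlgHom.id_apply]

theorem pderiv_fld (B : Matrix ι ι ℝ) (i j : ι) [DecidableEq ι] :
    pderiv j (fld B i) = C (B i j) := by
  unfold fld
  simp only [map_sum, Derivation.leibniz, pderiv_C, pderiv_X, smul_eq_mul, mul_zero, add_zero]
  rw [Finset.sum_eq_single j]
  · simp
  · intro k _ hk
    simp [hk]
  · intro h
    exact absurd (Finset.mem_univ j) h

theorem pderiv_aev (σ : ι → MvPolynomial ι ℝ) (F : MvPolynomial ι ℝ) (m : ι) :
    pderiv m (aeval σ F) = ∑ k, aeval σ (pderiv k F) * pderiv m (σ k) := by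
  classical
  induction F using MvPolynomial.induction_on with
  | C a => simp
  | add p q hp hq =>
    simp only [map_add, hp, hq, add_mul, Finset.sum_add_distrib]
  | mul_X p i hp =>
    rw [map_mul, aeval_X, Derivation.leibniz, hp]
    simp only [Derivation.leibniz, smul_eq_mul, map_add, map_mul, aeval_X, pderiv_X, add_mul,
      Finset.sum_add_distrib, Finset.mul_sum]
    congr 1
    · rw [Finset.sum_eq_single i]
      · simp
      · intro j _ hj
        simp [hj.symm]
      · intro h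
        exact absurd (Finset.mem_univ i) h
    · refine Finset.sum_congr rfl fun k _ => ?_
      ring

theorem pderiv_sub [DecidableEq ι] (B : Matrix ι ι ℝ) (f : MvPolynomial ι ℝ) (j : ι) :
    pderiv j (sub B f) = ∑ i, sub B (pderiv i f) * C (B i j) := by
  unfold sub
  rw [pderiv_aev]
  refine Finset.sum_congr rfl fun i _ => ?_
  rw [pderiv_fld]

theorem der_sub [DecidableEq ι] (A B : Matrix ι ι ℝ) (hB : IsUnit B.det) (f : MvPolynomial ι ℝ) :
    der (B⁻¹ * A * B) (sub B f) = sub B (der A f) := by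
  unfold der
  simp only [pderiv_sub, Finset.mul_sum]
  rw [Finset.sum_comm]
  have h : sub B (∑ i, fld A i * pderiv i f) = ∑ i, sub B (fld A i) * sub B (pderiv i f) := by
    unfold sub
    rw [map_sum]
    exact Finset.sum_congr rfl fun i _ => map_mul _ _ _
  rw [h]
  refine Finset.sum_congr rfl fun i _ => ?_
  rw [sub_fld, show A * B = B * (B⁻¹ * A * B) by
    rw [← Matrix.mul_assoc, ← Matrix.mul_assoc, Matrix.mul_nonsing_inv B hB, Matrix.one_mul],
    ← fld_mul, Finset.sum_mul]
  refine Finset.sum_congr rfl fun j _ => ?_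
  ring

theorem lf_sub [DecidableEq ι] (h : MvPolynomial ι ℝ) (B : Matrix ι ι ℝ) (hB : IsUnit B.det)
    (hf : LinFree h) : LinFree (sub B h) := by
  obtain ⟨hs, A, hA, c, hc, hd⟩ := hf
  have hmul : ∀ f g : MvPolynomial ι ℝ, sub B (f * g) = sub B f * sub B g := fun f g => by
    unfold sub
    exact map_mul _ _ _
  have hmul' : ∀ f g : MvPolynomial ι ℝ, sub B⁻¹ (f * g) = sub B⁻¹ f * sub B⁻¹ g := fun f g => by
    unfold sub
    exact map_mul _ _ _
  refine ⟨fun x hx => ?_, fun k => B⁻¹ * A k * B, fun k => ?_, c * (B⁻¹).det, ?_, ?_⟩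
  · have h1 : sub B⁻¹ x * sub B⁻¹ x ∣ h := by
      obtain ⟨y, hy⟩ := hx
      refine ⟨sub B⁻¹ y, ?_⟩
      rw [← hmul', ← hmul', ← hy, sub_sub, Matrix.mul_nonsing_inv B hB, sub_one]
    have h2 : IsUnit (sub B (sub B⁻¹ x)) := by
      have h3 := hs _ h1
      have h4 := h3.map (aeval (fun i => fld B i) : MvPolynomial ι ℝ →ₐ[ℝ] MvPolynomial ι ℝ)
      exact h4
    rwa [sub_sub, Matrix.nonsing_inv_mul B hB, sub_one] at h2
  · rw [der_sub (A k) B hB]
    obtain ⟨y, hy⟩ := hA k
    refine ⟨sub B y, ?_⟩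
    rw [hy, hmul]
  · refine mul_ne_zero hc ?_
    exact (Matrix.isUnit_nonsing_inv_det B hB).ne_zero
  · have h1 : (Matrix.of fun k i => fld (B⁻¹ * A k * B) i) =
        (Matrix.of fun k i => fld (A k) i).map
          (aeval (fun i => fld B i) : MvPolynomial ι ℝ →ₐ[ℝ] MvPolynomial ι ℝ) *
          ((B⁻¹).map (C : ℝ →+* MvPolynomial ι ℝ)).transpose := by
      ext1 k i
      rw [Matrix.mul_apply, Matrix.of_apply, Matrix.mul_assoc, ← fld_mul]
      refine Finset.sum_congr rfl fun l _ => ?_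
      rw [Matrix.transpose_apply, Matrix.map_apply, Matrix.map_apply, Matrix.of_apply, mul_comm]
      congr 1
      exact (sub_fld (A k) B l).symm
    have h2 : ((Matrix.of fun k i => fld (A k) i).map
        (aeval (fun i => fld B i) : MvPolynomial ι ℝ →ₐ[ℝ] MvPolynomial ι ℝ)).det =
        sub B (Matrix.of fun k i => fld (A k) i).det := by
      unfold sub
      rw [AlgHom.map_det]
      rfl
    have h3 : ((B⁻¹).map (C : ℝ →+* MvPolynomial ι ℝ)).det = C (B⁻¹).det := by
      rw [RingHom.map_det]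
      rfl
    rw [h1, Matrix.det_mul, Matrix.det_transpose, h2, h3, hd, hmul]
    have h4 : sub B (C c) = C c := by
      unfold sub
      rw [← algebraMap_eq, AlgHom.commutes]
    rw [h4, map_mul]
    ring

theorem lf_C [DecidableEq ι] (h : MvPolynomial ι ℝ) (c : ℝ) (hc : c ≠ 0) (hf : LinFree h) :
    LinFree (C c * h) := by
  obtain ⟨hs, A, hA, d, hd0, hd⟩ := hf
  have hu : IsUnit (C c : MvPolynomial ι ℝ) := (isUnit_iff_ne_zero.2 hc).map C
  refine ⟨fun x hx => hs x ((hu.dvd_mul_left).1 hx), A, fun k => ?_, d * c⁻¹,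
    mul_ne_zero hd0 (inv_ne_zero hc), ?_⟩
  · have h1 : der (A k) (C c * h) = C c * der (A k) h := by
      unfold der
      rw [Finset.mul_sum]
      refine Finset.sum_congr rfl fun i _ => ?_
      rw [pderiv_C_mul]
      ring
    rw [h1]
    exact mul_dvd_mul_left _ (hA k)
  · rw [hd, ← mul_assoc, ← C_mul, mul_assoc, inv_mul_cancel₀ hc, mul_one]

end Pool.Agent.LFD.Linx

namespace Pool.Agent.LFD

theorem thm_Lin : St_Lin := by
  refine ⟨fun ι _ _ h B hB hf => Linx.lf_sub h B hB hf, fun ι _ _ h c hc =>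
    ⟨fun hf => ?_, Linx.lf_C h c hc⟩⟩
  have h1 := Linx.lf_C (C c * h) c⁻¹ (inv_ne_zero hc) hf
  rwa [← mul_assoc, ← C_mul, inv_mul_cancel₀ hc, C_1, one_mul] at h1

end Pool.Agent.LFD
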