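import Pool.Agent.LFD.St
import Pool.Agent.RRC.B1a

/-!
# LFD [MainA]: admissible collections are the linear free divisors `t P = 0`
-/

set_option autoImplicit false

namespace Pool.Agent.LFD

open MvPolynomial Helper28.Nij RRC

/-- **MainA.** -/
theorem thm_MainA (hFwd : St_Fwd) (hSqf : St_Sqf) (hBack : St_Back) : St_MainA := by
  intro n σ
  constructor
  · intro h
    obtain ⟨A, hA, hd⟩ := hFwd n σ h
    refine ⟨hSqf n σ (thm_B1a n σ h).1, A, hA, 1, one_ne_zero, ?_⟩
    rw [hd, C_1, one_mul]
  · exact hBack n σ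

end Pool.Agent.LFD
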