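import Pool.Agent.LFD.St

/-!
# Linear free divisors with a base point give admissible collections (MP_835236_al): assembly
-/

set_option autoImplicit false

noncomputable section

namespace Pool.Agent.LFD

open scoped Polynomial
open MvPolynomial Helper28.Nij RRC

namespace MainBx

lemma hom_lin {n : ℕ} (p : Fin n → ℝ) (i : Fin n) :
    (X (some i) + C (p i) * X none : MvPolynomial (Option (Fin n)) ℝ).IsHomogeneous 1 := by
  refine (isHomogeneous_X _ _).add ?_
  simpa using (isHomogeneous_C _ (p i)).mul (isHomogeneous_X ℝ (none : Option (Fin n)))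

lemma eval_base {n : ℕ} (f : MvPolynomial (Fin n) ℝ) (p : Fin n → ℝ) :
    MvPolynomial.eval (fun i : Option (Fin n) => Option.elim i (1 : ℝ) fun _ => 0)
      (aeval (fun i => X (some i) + C (p i) * X none :
        Fin n → MvPolynomial (Option (Fin n)) ℝ) f) = MvPolynomial.eval p f := by
  induction f using MvPolynomial.induction_on with
  | C a => simp [algebraMap_eq]
  | add a b ha hb => rw [map_add, map_add, ha, hb, map_add]
  | mul_X a i ha => rw [map_mul, map_mul, ha, map_mul]; simp

end MainBx

open MainBx in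
theorem thm_MainB (hCom : St_Com) (hLin : St_Lin) (hFrm : St_Frm) (hPrd : St_Prd)
    (hA : St_MainA) : St_MainB := by
  intro n f p hf h0
  obtain ⟨hsq, A, hA1, c, hc, hdet⟩ := id hf
  have hhom : f.IsHomogeneous n := by
    have h := (hCom.1 (Fin n) f hsq A c hA1 hc hdet).1
    rwa [Fintype.card_fin] at h
  have hh : (aeval (fun i => X (some i) + C (p i) * X none :
      Fin n → MvPolynomial (Option (Fin n)) ℝ) f).IsHomogeneous n := by
    have h := hhom.aeval (fun i => X (some i) + C (p i) * X none :
      Fin n → MvPolynomial (Option (Fin n)) ℝ) (n := 1) (hom_lin p)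
    rwa [one_mul] at h
  obtain ⟨σ, hσ⟩ := hFrm n _ (MvPolynomial.eval p f) hh (eval_base f p) h0
  refine ⟨σ, ?_, hσ⟩
  rw [hA, ← hLin.2 _ _ _ h0]
  have h := hPrd n f p hf
  rw [hσ] at h
  have he : (X none * (C (MvPolynomial.eval p f) * PP σ) :
      MvPolynomial (Option (Fin n)) ℝ) = C (MvPolynomial.eval p f) * (X none * PP σ) := by ring
  rwa [he] at h

end Pool.Agent.LFD
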