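import Pool.Agent.LFD.St
import Pool.Agent.RRC.K1
import Pool.Agent.RRC.Cr

/-!
# LFD, module Ndc: a criterion for nondegeneracy (MP_835236_al) (helper24)
-/

set_option autoImplicit false

noncomputable section

namespace Pool.Agent.LFD

open scoped Polynomial
open Polynomial RRC

namespace Ndcx

variable {V : Type} [AddCommGroup V] [Module ℝ V] [FiniteDimensional ℝ V]

/-- If all the traces of `(f g X)(R)` vanish then the characteristic polynomial divides `g`. -/
theorem dvd_of_trace (R : V →ₗ[ℝ] V) (hs : R.charpoly.Separable)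
    (h0 : R.charpoly.eval 0 ≠ 0) (g : ℝ[X])
    (h : ∀ f : ℝ[X], LinearMap.trace ℝ V (aeval R (f * g * X)) = 0) : R.charpoly ∣ g := by
  classical
  have hm := LinearMap.charpoly_monic R
  have hX : ¬ (X : ℝ[X]) ∣ R.charpoly := by
    rw [X_dvd_iff, coeff_zero_eq_eval_zero]
    exact h0
  have hcop : IsCoprime (X : ℝ[X]) R.charpoly :=
    (irreducible_X.coprime_iff_not_dvd).2 hX
  obtain ⟨u, v, huv⟩ := hcop
  set d := EuclideanDomain.gcd R.charpoly g with hd
  have hdχ : d ∣ R.charpoly := EuclideanDomain.gcd_dvd_left _ _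
  have hdg : d ∣ g := EuclideanDomain.gcd_dvd_right _ _
  have hbez := EuclideanDomain.gcd_eq_gcd_ab R.charpoly g
  obtain ⟨e, he⟩ := hdχ
  have hsq : (d * e).Separable := he ▸ hs
  have hde : IsCoprime d e := hsq.isCoprime
  obtain ⟨f, k, hfk⟩ := hde
  have hd0 : d ≠ 0 := fun h0' => hm.ne_zero (by rw [he, h0', zero_mul])
  have he0 : e ≠ 0 := fun h0' => hm.ne_zero (by rw [he, h0', mul_zero])
  -- the trace of `(f d)(R)` vanishes
  have hCH : aeval R R.charpoly = 0 := LinearMap.aeval_self_charpoly R
  have htr : LinearMap.trace ℝ V (aeval R (f * d)) = 0 := by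
    rw [← h (f * EuclideanDomain.gcdB R.charpoly g * u)]
    congr 1
    have e1 : f * d = f * EuclideanDomain.gcdB R.charpoly g * u * g * X +
        R.charpoly * (f * EuclideanDomain.gcdA R.charpoly g +
          f * g * EuclideanDomain.gcdB R.charpoly g * v) := by
      have : f * d = f * (R.charpoly * EuclideanDomain.gcdA R.charpoly g +
        g * EuclideanDomain.gcdB R.charpoly g * (u * X + v * R.charpoly)) := by
        rw [huv, mul_one, hd, hbez]
      rw [this]; ring
    rw [e1, map_add, map_mul _ R.charpoly, hCH, zero_mul, add_zero]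
  -- the trace is the number of roots of `e`
  have hcr := (thm_Cr V R).2.1 (f * d)
  rw [htr] at hcr
  have hroots : cr R = (d.map (algebraMap ℝ ℂ)).roots + (e.map (algebraMap ℝ ℂ)).roots := by
    unfold cr
    rw [he, Polynomial.map_mul, roots_mul]
    rw [← Polynomial.map_mul]
    exact (Polynomial.map_ne_zero_iff (algebraMap ℝ ℂ).injective).2 (mul_ne_zero hd0 he0)
  have hr1 : ((d.map (algebraMap ℝ ℂ)).roots.map fun l => aeval l (f * d)).sum = 0 := by
    refine Multiset.sum_eq_zero fun z hz => ?_
    obtain ⟨l, hl, rfl⟩ := Multiset.mem_map.1 hz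
    have := isRoot_of_mem_roots hl
    rw [IsRoot.def, eval_map_algebraMap] at this
    rw [map_mul, this, mul_zero]
  have hr2 : ((e.map (algebraMap ℝ ℂ)).roots.map fun l => aeval l (f * d)).sum =
      (e.natDegree : ℂ) := by
    have : ((e.map (algebraMap ℝ ℂ)).roots.map fun l => aeval l (f * d)) =
        ((e.map (algebraMap ℝ ℂ)).roots.map fun _ => (1 : ℂ)) := by
      refine Multiset.map_congr rfl fun l hl => ?_
      have h3 := isRoot_of_mem_roots hl
      rw [IsRoot.def, eval_map_algebraMap] at h3
      have h4 : f * d = 1 - k * e := by rw [← hfk]; ring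
      rw [h4, map_sub, map_one, map_mul, h3, mul_zero, sub_zero]
    rw [this, Multiset.map_const', Multiset.sum_replicate, nsmul_eq_mul, mul_one,
      ← natDegree_map_eq_of_injective (algebraMap ℝ ℂ).injective e]
    congr 1
    exact (IsAlgClosed.splits (e.map (algebraMap ℝ ℂ))).natDegree_eq_card_roots.symm
  rw [hroots, Multiset.map_add, Multiset.sum_add, hr1, hr2, zero_add] at hcr
  have hdeg : e.natDegree = 0 := by
    have : ((e.natDegree : ℕ) : ℂ) = 0 := by rw [← hcr]; simp
    exact_mod_cast this
  have hu : IsUnit e := by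
    rw [Polynomial.isUnit_iff_degree_eq_zero, degree_eq_natDegree he0, hdeg]
    rfl
  obtain ⟨w, hw⟩ := hu.exists_right_inv
  have : R.charpoly ∣ d := ⟨w, by rw [he, mul_assoc, hw, mul_one]⟩
  exact this.trans hdg

end Ndcx

open Ndcx in
theorem thm_Ndc : St_Ndc := by
  intro V _ _ _ m hL x hs h0 v hv
  classical
  have hK := (thm_K1 V m hL).2.2.1
  set R := m.flip x with hR
  have hm := LinearMap.charpoly_monic R
  -- polynomials killing `x`
  have hkill : ∀ g : ℝ[X], (∀ f : ℝ[X], tr m (aeval R (f * g) x) = 0) → R.charpoly ∣ g := by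
    intro g hg
    refine dvd_of_trace R hs h0 g fun f => ?_
    have := hK (f * g) x x
    rw [← hR] at this
    rw [map_mul _ (f * g) X, aeval_X, this, hg f]
  have hkill0 : ∀ g : ℝ[X], aeval R g x = 0 → R.charpoly ∣ g := by
    intro g hg
    refine hkill g fun f => ?_
    rw [map_mul, Module.End.mul_apply, hg, map_zero, map_zero]
  -- every vector is `g(R) x`
  let L : degreeLT ℝ (Module.finrank ℝ V) →ₗ[ℝ] V :=
    { toFun := fun g => aeval R (g : ℝ[X]) x
      map_add' := fun a b => by simp
      map_smul' := fun c a => by simp }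
  have hLinj : Function.Injective L := by
    rw [← LinearMap.ker_eq_bot, LinearMap.ker_eq_bot']
    intro g hg
    have h1 : R.charpoly ∣ (g : ℝ[X]) := hkill0 g hg
    have h2 : (g : ℝ[X]).degree < R.charpoly.degree := by
      rw [degree_eq_natDegree hm.ne_zero, LinearMap.charpoly_natDegree]
      exact mem_degreeLT.1 g.2
    have h3 := eq_zero_of_dvd_of_degree_lt h1 h2
    exact Subtype.ext h3
  have hfr : Module.finrank ℝ (degreeLT ℝ (Module.finrank ℝ V)) = Module.finrank ℝ V := by
    rw [(degreeLTEquiv ℝ (Module.finrank ℝ V)).finrank_eq]; simp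
  have : Module.Finite ℝ (degreeLT ℝ (Module.finrank ℝ V)) :=
    Module.Finite.equiv (degreeLTEquiv ℝ (Module.finrank ℝ V)).symm
  have hLsurj := (LinearMap.injective_iff_surjective_of_finrank_eq_finrank hfr).1 hLinj
  obtain ⟨g, hg⟩ := hLsurj v
  have hg' : aeval R (g : ℝ[X]) x = v := hg
  have hv' : ∀ f : ℝ[X], tr m (aeval R f v) = 0 := by
    intro f
    induction f using Polynomial.induction_on' with
    | add p q hp hq => rw [map_add, LinearMap.add_apply, map_add, hp, hq, add_zero]
    | monomial k a =>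
      rw [aeval_monomial, Module.End.mul_apply, Module.algebraMap_end_apply, map_smul, hv k,
        smul_zero]
  have hdvd : R.charpoly ∣ (g : ℝ[X]) := by
    refine hkill g fun f => ?_
    rw [map_mul, Module.End.mul_apply, hg', hv' f]
  obtain ⟨w, hw⟩ := hdvd
  rw [← hg', hw, map_mul, LinearMap.aeval_self_charpoly, zero_mul, LinearMap.zero_apply]

end Pool.Agent.LFD
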