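import Pool.Agent.LFD.St2

/-!
# Linear free divisors (MP_835236_al): the orbits of the symmetries are open (`Opn`)
-/

set_option autoImplicit false

noncomputable section

namespace Pool.Agent.LFD

open MvPolynomial Helper28.Nij

namespace Opnx

section

variable {ι : Type} [Fintype ι] [DecidableEq ι]

lemma surj (A : ι → Matrix ι ι ℝ) (q : ι → ℝ)
    (hdet : (Matrix.of fun k i => ((A k).mulVec q) i).det ≠ 0) (v : ι → ℝ) :
    ∃ y : ι → ℝ, (∑ k, y k • A k).mulVec q = v := by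
  set N : Matrix ι ι ℝ := Matrix.of fun k i => ((A k).mulVec q) i with hN
  have hu : IsUnit N.det := isUnit_iff_ne_zero.2 hdet
  refine ⟨Matrix.vecMul v N⁻¹, ?_⟩
  have h1 : (∑ k, (Matrix.vecMul v N⁻¹) k • A k).mulVec q =
      Matrix.vecMul (Matrix.vecMul v N⁻¹) N := by
    ext i
    rw [Matrix.sum_mulVec]
    simp only [Matrix.smul_mulVec, Finset.sum_apply, Pi.smul_apply, smul_eq_mul]
    simp [Matrix.vecMul, dotProduct, hN]
  rw [h1, Matrix.vecMul_vecMul, Matrix.nonsing_inv_mul N hu, Matrix.vecMul_one]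

set_option backward.isDefEq.respectTransparency false in
open scoped Matrix.Norms.Operator in
lemma key (A : ι → Matrix ι ι ℝ) (q : ι → ℝ)
    (hdet : (Matrix.of fun k i => ((A k).mulVec q) i).det ≠ 0) :
    ∀ᶠ v in nhds q, ∃ y : ι → ℝ, (NormedSpace.exp (∑ k, y k • A k)).mulVec q = v := by
  let E : (ι → ℝ) →ₗ[ℝ] Matrix ι ι ℝ := ∑ k, (LinearMap.proj k).smulRight (A k)
  have hE : ∀ y, E y = ∑ k, y k • A k := by
    intro y
    simp [E, LinearMap.sum_apply]
  let V : Matrix ι ι ℝ →ₗ[ℝ] (ι → ℝ) := (Matrix.mulVecBilin ℝ ℝ).flip q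
  have hV : ∀ B, V B = B.mulVec q := by
    intro B
    rfl
  have h1 : HasStrictFDerivAt (NormedSpace.exp : Matrix ι ι ℝ → Matrix ι ι ℝ)
      (1 : Matrix ι ι ℝ →L[ℝ] Matrix ι ι ℝ) 0 := hasStrictFDerivAt_exp_zero
  have h2 : HasStrictFDerivAt (fun y => (LinearMap.toContinuousLinearMap V)
      (NormedSpace.exp ((LinearMap.toContinuousLinearMap E) y)))
      ((LinearMap.toContinuousLinearMap V).comp
        ((1 : Matrix ι ι ℝ →L[ℝ] Matrix ι ι ℝ).comp (LinearMap.toContinuousLinearMap E))) 0 := by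
    apply (LinearMap.toContinuousLinearMap V).hasStrictFDerivAt.comp
    apply HasStrictFDerivAt.comp _ _ (LinearMap.toContinuousLinearMap E).hasStrictFDerivAt
    rw [map_zero]
    exact h1
  have h3 := h2.map_nhds_eq_of_surj (by
    rw [LinearMap.range_eq_top]
    intro v
    obtain ⟨y, hy⟩ := surj A q hdet v
    refine ⟨y, ?_⟩
    change V (E y) = v
    rw [hV, hE, hy])
  have h4 : (LinearMap.toContinuousLinearMap V)
      (NormedSpace.exp ((LinearMap.toContinuousLinearMap E) 0)) = q := by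
    rw [map_zero, NormedSpace.exp_zero]
    change V 1 = q
    rw [hV, Matrix.one_mulVec]
  rw [h4] at h3
  rw [← h3, Filter.eventually_map]
  refine Filter.Eventually.of_forall fun y => ⟨y, ?_⟩
  rw [← hE, ← hV]
  rfl

set_option backward.isDefEq.respectTransparency false in
lemma key' (A : ι → Matrix ι ι ℝ) (q : ι → ℝ)
    (hdet : (Matrix.of fun k i => ((A k).mulVec q) i).det ≠ 0) :
    ∀ᶠ v in nhds q, ∃ y : ι → ℝ, (NormedSpace.exp (∑ k, y k • A k)).mulVec q = v :=
  key A q hdet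

omit [DecidableEq ι] in
lemma fld_sum (g : ι → ℝ) (A : ι → Matrix ι ι ℝ) (i : ι) :
    fld (∑ k, g k • A k) i = ∑ k, C (g k) * fld (A k) i := by
  simp only [fld, Matrix.sum_apply, Matrix.smul_apply, smul_eq_mul, map_sum, C_mul, Finset.sum_mul,
    Finset.mul_sum, mul_assoc]
  exact Finset.sum_comm

omit [DecidableEq ι] in
lemma dvd_der_sum (g : ι → ℝ) (A : ι → Matrix ι ι ℝ) {h : MvPolynomial ι ℝ}
    (hA : ∀ k, h ∣ der (A k) h) : h ∣ der (∑ k, g k • A k) h := by
  have h1 : der (∑ k, g k • A k) h = ∑ k, C (g k) * der (A k) h := by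
    simp only [der, fld_sum, Finset.sum_mul, Finset.mul_sum, mul_assoc]
    exact Finset.sum_comm
  rw [h1]
  exact Finset.dvd_sum fun k _ => (hA k).mul_left _

omit [DecidableEq ι] in
lemma eval_fld (A : Matrix ι ι ℝ) (i : ι) (v : ι → ℝ) :
    MvPolynomial.eval v (fld A i) = (A.mulVec v) i := by
  simp [fld, Matrix.mulVec, dotProduct]

omit [DecidableEq ι] in
lemma der_mul (A : Matrix ι ι ℝ) (f g : MvPolynomial ι ℝ) :
    der A (f * g) = der A f * g + f * der A g := by
  classical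
  unfold der
  rw [Finset.sum_mul, Finset.mul_sum, ← Finset.sum_add_distrib]
  refine Finset.sum_congr rfl fun i _ => ?_
  rw [Derivation.leibniz, smul_eq_mul, smul_eq_mul]
  ring

omit [DecidableEq ι] in
lemma dvd_factor {h l : MvPolynomial ι ℝ} (hsq : Squarefree h) (hl : Irreducible l) (hlh : l ∣ h)
    {A : Matrix ι ι ℝ} (hA : h ∣ der A h) : l ∣ der A l := by
  obtain ⟨h', rfl⟩ := hlh
  have h1 : ¬ l ∣ h' := by
    intro hd
    exact hl.not_isUnit (hsq l (mul_dvd_mul_left _ hd))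
  have h2 : l ∣ der A (l * h') := (Dvd.intro _ rfl).trans hA
  rw [der_mul] at h2
  have h3 : l ∣ der A l * h' := (dvd_add_left (Dvd.intro _ rfl)).1 h2
  have hp : Prime l := UniqueFactorizationMonoid.irreducible_iff_prime.1 hl
  rcases hp.dvd_or_dvd h3 with h4 | h4
  · exact h4
  · exact absurd h4 h1

end

end Opnx

theorem thm_Opn (hSem : St_Sem) : St_Opn := by
  intro ι _ _ h hf l hl hlh q hq
  obtain ⟨hsq, A, hA, c, hc, hdet⟩ := hf
  have hN : (Matrix.of fun k i => ((A k).mulVec q) i).det ≠ 0 := by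
    have h1 := congrArg (MvPolynomial.eval q) hdet
    rw [RingHom.map_det, map_mul, eval_C] at h1
    have h2 : (MvPolynomial.eval q).mapMatrix (Matrix.of fun k i => fld (A k) i) =
        Matrix.of fun k i => ((A k).mulVec q) i := by
      ext k i
      rw [RingHom.mapMatrix_apply, Matrix.map_apply, Matrix.of_apply, Matrix.of_apply,
        Opnx.eval_fld]
    rw [h2] at h1
    rw [h1]
    exact mul_ne_zero hc hq
  filter_upwards [Opnx.key' A q hN] with v hv
  obtain ⟨y, hy⟩ := hv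
  have ht := Opnx.dvd_der_sum y A hA
  obtain ⟨μ, hμ⟩ := hSem ι h _ ht
  obtain ⟨ν, hν⟩ := hSem ι l _ (Opnx.dvd_factor hsq hl hlh ht)
  exact ⟨NormedSpace.exp (∑ k, y k • A k),
    (Matrix.isUnit_iff_isUnit_det _).1 (Matrix.isUnit_exp _), hy, ⟨_, hμ⟩, ⟨_, hν⟩⟩

end Pool.Agent.LFD
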