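import Pool.Agent.LFD.St2
import Pool.Agent.LFD.Lin

/-!
# Module Orb: points in the same component are related
-/

set_option autoImplicit false

namespace Pool.Agent.LFD

open MvPolynomial Helper28.Nij

namespace Orbx

variable {ι : Type} [Fintype ι] [DecidableEq ι]

theorem subCm (B : Matrix ι ι ℝ) (c : ℝ) (f : MvPolynomial ι ℝ) :
    sub B (C c * f) = C c * sub B f := by
  unfold sub
  rw [map_mul, ← algebraMap_eq, AlgHom.commutes]

theorem inv1 (B : Matrix ι ι ℝ) (hB : IsUnit B.det) (f : MvPolynomial ι ℝ) :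
    sub B⁻¹ (sub B f) = f := by
  rw [Linx.sub_sub, Matrix.mul_nonsing_inv B hB, Linx.sub_one]

theorem symC (g : Matrix ι ι ℝ) (hg : IsUnit g.det) {f : MvPolynomial ι ℝ} (hf : f ≠ 0)
    (h : ∃ c : ℝ, sub g f = C c * f) : ∃ c : ℝ, sub g⁻¹ f = C c * f := by
  obtain ⟨c, hc⟩ := h
  have h1 : f = C c * sub g⁻¹ f := by
    conv_lhs => rw [← inv1 g hg f, hc, subCm]
  have hc0 : c ≠ 0 := by
    rintro rfl
    rw [C_0, zero_mul] at h1
    exact hf h1
  refine ⟨c⁻¹, ?_⟩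
  conv_rhs => rw [h1]
  rw [← mul_assoc, ← C_mul, inv_mul_cancel₀ hc0, C_1, one_mul]

theorem trC (g g' : Matrix ι ι ℝ) {f : MvPolynomial ι ℝ}
    (h : ∃ c : ℝ, sub g f = C c * f) (h' : ∃ c : ℝ, sub g' f = C c * f) :
    ∃ c : ℝ, sub (g' * g) f = C c * f := by
  obtain ⟨c, hc⟩ := h
  obtain ⟨c', hc'⟩ := h'
  refine ⟨c' * c, ?_⟩
  rw [← Linx.sub_sub, hc', subCm, hc, C_mul, mul_assoc]

theorem refl (h l : MvPolynomial ι ℝ) (v : ι → ℝ) : Rel h l v v := by
  refine ⟨1, ?_, Matrix.one_mulVec v, ⟨1, ?_⟩, ⟨1, ?_⟩⟩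
  · rw [Matrix.det_one]
    exact isUnit_one
  · rw [Linx.sub_one, C_1, one_mul]
  · rw [Linx.sub_one, C_1, one_mul]

theorem symm {h l : MvPolynomial ι ℝ} (hh : h ≠ 0) (hl : l ≠ 0) {v w : ι → ℝ} (H : Rel h l v w) :
    Rel h l w v := by
  obtain ⟨g, hg, hgv, h1, h2⟩ := H
  refine ⟨g⁻¹, Matrix.isUnit_nonsing_inv_det g hg, ?_, symC g hg hh h1, symC g hg hl h2⟩
  rw [← hgv, Matrix.mulVec_mulVec, Matrix.nonsing_inv_mul g hg, Matrix.one_mulVec]

theorem trans {h l : MvPolynomial ι ℝ} {u v w : ι → ℝ} (H : Rel h l u v) (H' : Rel h l v w) :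
    Rel h l u w := by
  obtain ⟨g, hg, hgv, h1, h2⟩ := H
  obtain ⟨g', hg', hgv', h1', h2'⟩ := H'
  refine ⟨g' * g, ?_, ?_, trC g g' h1 h1', trC g g' h2 h2'⟩
  · rw [Matrix.det_mul]
    exact hg'.mul hg
  · rw [← Matrix.mulVec_mulVec, hgv, hgv']

end Orbx

/-- **Orb.** -/
theorem thm_Orb (hOpn : St_Opn) : St_Orb := by
  intro ι _ _ h hf l hl hlh q q' hJ
  have hh : h ≠ 0 := hf.1.ne_zero
  have hl0 : l ≠ 0 := hl.ne_zero
  obtain ⟨γ, hγ⟩ := hJ
  have hopen : ∀ s : unitInterval, ∀ᶠ t in nhds s, Rel h l (γ s) (γ t) := fun s =>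
    (γ.continuous.tendsto s).eventually (hOpn ι h hf l hl hlh (γ s) (hγ s))
  have hcl : IsClopen {s : unitInterval | Rel h l q (γ s)} := by
    constructor
    · rw [← isOpen_compl_iff, isOpen_iff_mem_nhds]
      intro s hs
      filter_upwards [hopen s] with t ht hqt
      exact hs (Orbx.trans hqt (Orbx.symm hh hl0 ht))
    · rw [isOpen_iff_mem_nhds]
      intro s hs
      filter_upwards [hopen s] with t ht
      exact Orbx.trans hs ht
  have hne : {s : unitInterval | Rel h l q (γ s)}.Nonempty := by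
    refine ⟨0, ?_⟩
    show Rel h l q (γ 0)
    rw [γ.source]
    exact Orbx.refl h l q
  have hu := hcl.eq_univ hne
  have h1 : (1 : unitInterval) ∈ {s : unitInterval | Rel h l q (γ s)} := by
    rw [hu]
    exact Set.mem_univ _
  have h2 : Rel h l q (γ 1) := h1
  rwa [γ.target] at h2

end Pool.Agent.LFD
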