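import Pool.Agent.LFD.St

/-!
# LFD Prd: the divisor `t f(x + t p)`

`thm_Prd : St_Prd`.
-/

set_option autoImplicit false

noncomputable section

namespace Pool.Agent.LFD

open MvPolynomial

namespace Prdx

variable {n : ℕ}

/-- The substitution `x_i ↦ x_i + p_i t`. -/
def ph (p : Fin n → ℝ) : MvPolynomial (Fin n) ℝ →ₐ[ℝ] MvPolynomial (Option (Fin n)) ℝ :=
  aeval (fun i => X (some i) + C (p i) * X none : Fin n → MvPolynomial (Option (Fin n)) ℝ)

/-- The endomorphism `x_i ↦ x_i + p_i t`, `t ↦ t`. -/
def Ph (p : Fin n → ℝ) : MvPolynomial (Option (Fin n)) ℝ →ₐ[ℝ] MvPolynomial (Option (Fin n)) ℝ :=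
  aeval (fun i => Option.elim i (X none) fun i => X (some i) + C (p i) * X none)

lemma Ph_some (p : Fin n → ℝ) (i : Fin n) : Ph p (X (some i)) = X (some i) + C (p i) * X none := by
  simp [Ph]

lemma Ph_none (p : Fin n → ℝ) : Ph p (X none) = X none := by
  simp [Ph]

lemma ph_X (p : Fin n → ℝ) (i : Fin n) : ph p (X i) = X (some i) + C (p i) * X none := by
  simp [ph]

lemma ph_C (p : Fin n → ℝ) (a : ℝ) : ph p (C a) = C a := by
  simp [ph]

lemma Ph_C (p : Fin n → ℝ) (a : ℝ) : Ph p (C a) = C a := by
  simp [Ph]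

lemma Ph_Ph (p p' : Fin n → ℝ) (h : ∀ i, p i + p' i = 0) (f : MvPolynomial (Option (Fin n)) ℝ) :
    Ph p (Ph p' f) = f := by
  have : (Ph p).comp (Ph p') = AlgHom.id ℝ _ := by
    apply MvPolynomial.algHom_ext
    intro i
    cases i with
    | none => simp [Ph_none]
    | some i =>
      simp only [AlgHom.comp_apply, Ph_some, map_add, map_mul, Ph_C, Ph_none, AlgHom.id_apply]
      have e : C (p i) * X none + C (p' i) * X none
          = (0 : MvPolynomial (Option (Fin n)) ℝ) := by
        rw [← add_mul, ← C_add, h i, C_0, zero_mul]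
      rw [add_assoc, e, add_zero]
  exact DFunLike.congr_fun this f

lemma Ph_rename (p : Fin n → ℝ) (f : MvPolynomial (Fin n) ℝ) :
    Ph p (rename some f) = ph p f := by
  have : (Ph p).comp (rename some) = ph p := by
    apply MvPolynomial.algHom_ext
    intro i
    simp [Ph_some, ph_X]
  exact DFunLike.congr_fun this f

lemma opt_rename (f : MvPolynomial (Fin n) ℝ) :
    optionEquivLeft ℝ (Fin n) (rename some f) = Polynomial.C f := by
  have : ((optionEquivLeft ℝ (Fin n)).toAlgHom).comp (rename some)
      = (Polynomial.CAlgHom : MvPolynomial (Fin n) ℝ →ₐ[ℝ] Polynomial (MvPolynomial (Fin n) ℝ)) := by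
    apply MvPolynomial.algHom_ext
    intro i
    simp [optionEquivLeft_X_some]
  exact DFunLike.congr_fun this f

lemma sqf_base {R : Type} [CommRing R] [IsDomain R] (f : R) (hf : Squarefree f) (hf0 : f ≠ 0) :
    Squarefree (Polynomial.X * Polynomial.C f : Polynomial R) := by
  intro q hq
  have hne : (Polynomial.X * Polynomial.C f : Polynomial R) ≠ 0 :=
    mul_ne_zero Polynomial.X_ne_zero (by simpa using hf0)
  have hq0 : q ≠ 0 := by
    rintro rfl
    rw [mul_zero] at hq
    exact hne (zero_dvd_iff.mp hq)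
  have hd := Polynomial.natDegree_le_of_dvd hq hne
  rw [Polynomial.natDegree_mul hq0 hq0, Polynomial.natDegree_mul Polynomial.X_ne_zero
    (by simpa using hf0), Polynomial.natDegree_X, Polynomial.natDegree_C] at hd
  have hd0 : q.natDegree = 0 := by omega
  obtain ⟨g, hg⟩ := Polynomial.natDegree_eq_zero.mp hd0
  rw [← hg, ← Polynomial.C_mul, Polynomial.C_dvd_iff_dvd_coeff] at hq
  have h1 := hq 1
  have e : (Polynomial.X * Polynomial.C f : Polynomial R).coeff 1 = f := by
    rw [show (1 : ℕ) = 0 + 1 from rfl, Polynomial.coeff_X_mul, Polynomial.coeff_C_zero]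
  rw [e] at h1
  rw [← hg]
  exact (hf g h1).map Polynomial.C

lemma sqf_rename (f : MvPolynomial (Fin n) ℝ) (hf : Squarefree f) :
    Squarefree (X none * rename some f : MvPolynomial (Option (Fin n)) ℝ) := by
  intro q hq
  have h := map_dvd (optionEquivLeft ℝ (Fin n)) hq
  rw [map_mul, map_mul, opt_rename, optionEquivLeft_X_none] at h
  have hu := sqf_base f hf hf.ne_zero _ h
  have := hu.map (optionEquivLeft ℝ (Fin n)).symm
  simpa using this

lemma sqf_ph (p : Fin n → ℝ) (f : MvPolynomial (Fin n) ℝ) (hf : Squarefree f) :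
    Squarefree (X none * ph p f : MvPolynomial (Option (Fin n)) ℝ) := by
  intro q hq
  have h := map_dvd (Ph fun i => - p i) hq
  rw [map_mul, map_mul, Ph_none, ← Ph_rename, Ph_Ph (fun i => - p i) p (fun i => by simp)] at h
  have hu := sqf_rename f hf _ h
  have h2 := hu.map (Ph p)
  rwa [Ph_Ph p (fun i => - p i) (fun i => by simp)] at h2

lemma der_mul {ι : Type} [Fintype ι] (A : Matrix ι ι ℝ) (f g : MvPolynomial ι ℝ) :
    der A (f * g) = f * der A g + g * der A f := by
  unfold der
  rw [Finset.mul_sum, Finset.mul_sum, ← Finset.sum_add_distrib]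
  refine Finset.sum_congr rfl fun i _ => ?_
  rw [Derivation.leibniz]
  simp only [smul_eq_mul]
  ring

lemma der_X {ι : Type} [Fintype ι] (A : Matrix ι ι ℝ) (j : ι) :
    der A (X j) = fld A j := by
  classical
  unfold der
  rw [Finset.sum_eq_single j]
  · rw [pderiv_X_self, mul_one]
  · intro i _ hij
    rw [pderiv_X_of_ne (Ne.symm hij), mul_zero]
  · intro h
    exact absurd (Finset.mem_univ j) h

lemma pd_some (p : Fin n → ℝ) (i : Fin n) (f : MvPolynomial (Fin n) ℝ) :
    pderiv (some i) (ph p f) = ph p (pderiv i f) := by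
  classical
  induction f using MvPolynomial.induction_on with
  | C a => simp [ph_C]
  | add f g hf hg => simp only [map_add, hf, hg]
  | mul_X f j hf =>
    rw [map_mul, Derivation.leibniz, Derivation.leibniz, hf, ph_X]
    simp only [smul_eq_mul, map_add, map_mul, ph_X, Derivation.leibniz, pderiv_C, mul_zero,
      pderiv_X, Pi.single_apply, Option.some.injEq]
    by_cases h : j = i
    · subst h
      simp
    · have h' : ¬ i = j := fun e => h e.symm
      simp [h, h']

lemma pd_none (p : Fin n → ℝ) (f : MvPolynomial (Fin n) ℝ) :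
    pderiv none (ph p f) = ∑ j, C (p j) * ph p (pderiv j f) := by
  classical
  induction f using MvPolynomial.induction_on with
  | C a => simp [ph_C]
  | add f g hf hg => simp only [map_add, hf, hg, mul_add, Finset.sum_add_distrib]
  | mul_X f j hf =>
    rw [map_mul, Derivation.leibniz, hf, ph_X]
    have e : ∀ i, C (p i) * ph p (pderiv i (f * X j))
        = ph p (X j) * (C (p i) * ph p (pderiv i f)) + (if i = j then C (p i) * ph p f else 0) := by
      intro i
      rw [Derivation.leibniz]
      simp only [smul_eq_mul, map_add, map_mul, pderiv_X, Pi.single_apply]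
      by_cases h : i = j
      · subst h
        simp
        ring
      · have h' : ¬ j = i := fun e => h e.symm
        simp [h, h']
        ring
    rw [Finset.sum_congr rfl fun i _ => e i, Finset.sum_add_distrib, ← Finset.mul_sum,
      Finset.sum_ite_eq' Finset.univ j, if_pos (Finset.mem_univ j), ph_X]
    simp only [smul_eq_mul, map_add, Derivation.leibniz, pderiv_C, mul_zero,
      pderiv_X, Pi.single_apply]
    simp
    ring

/-- The tangent fields. -/
def AA (p : Fin n → ℝ) (A : Fin n → Matrix (Fin n) (Fin n) ℝ) :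
    Option (Fin n) → Matrix (Option (Fin n)) (Option (Fin n)) ℝ
  | some k => Matrix.of fun i j => match i, j with
      | some i, some j => A k i j
      | some i, none => ∑ j, A k i j * p j
      | none, _ => 0
  | none => Matrix.of fun i j => match i, j with
      | some i, none => - p i
      | none, none => 1
      | _, some _ => 0

lemma fld_ss (p : Fin n → ℝ) (A : Fin n → Matrix (Fin n) (Fin n) ℝ) (k i : Fin n) :
    fld (AA p A (some k)) (some i) = ph p (fld (A k) i) := by
  unfold fld
  rw [Fintype.sum_option, map_sum]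
  simp only [map_mul, ph_C, ph_X, mul_add, Finset.sum_add_distrib]
  have e1 : AA p A (some k) (some i) none = ∑ j, A k i j * p j := rfl
  have e2 : ∀ j, AA p A (some k) (some i) (some j) = A k i j := fun j => rfl
  rw [e1, map_sum, Finset.sum_mul]
  simp only [e2, map_mul]
  rw [add_comm]
  congr 1
  refine Finset.sum_congr rfl fun j _ => ?_
  ring

lemma fld_sn (p : Fin n → ℝ) (A : Fin n → Matrix (Fin n) (Fin n) ℝ) (k : Fin n) :
    fld (AA p A (some k)) none = 0 := by
  unfold fld
  refine Finset.sum_eq_zero fun j _ => ?_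
  have e : AA p A (some k) none j = 0 := by cases j <;> rfl
  rw [e, C_0, zero_mul]

lemma fld_ns (p : Fin n → ℝ) (A : Fin n → Matrix (Fin n) (Fin n) ℝ) (i : Fin n) :
    fld (AA p A none) (some i) = C (- p i) * X none := by
  unfold fld
  rw [Fintype.sum_option]
  have e1 : AA p A none (some i) none = - p i := rfl
  have e2 : ∀ j, AA p A none (some i) (some j) = 0 := fun j => rfl
  simp only [e1, e2, C_0, zero_mul, Finset.sum_const_zero, add_zero]

lemma fld_nn (p : Fin n → ℝ) (A : Fin n → Matrix (Fin n) (Fin n) ℝ) :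
    fld (AA p A none) none = X none := by
  unfold fld
  rw [Fintype.sum_option]
  have e1 : AA p A none none none = 1 := rfl
  have e2 : ∀ j, AA p A none none (some j) = 0 := fun j => rfl
  simp only [e1, e2, C_0, zero_mul, Finset.sum_const_zero, add_zero, C_1, one_mul]

lemma der_some (p : Fin n → ℝ) (A : Fin n → Matrix (Fin n) (Fin n) ℝ) (k : Fin n)
    (f : MvPolynomial (Fin n) ℝ) : der (AA p A (some k)) (ph p f) = ph p (der (A k) f) := by
  unfold der
  rw [Fintype.sum_option, fld_sn, zero_mul, zero_add, map_sum]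
  refine Finset.sum_congr rfl fun i _ => ?_
  rw [fld_ss, pd_some, map_mul]

lemma der_none (p : Fin n → ℝ) (A : Fin n → Matrix (Fin n) (Fin n) ℝ)
    (f : MvPolynomial (Fin n) ℝ) : der (AA p A none) (ph p f) = 0 := by
  unfold der
  rw [Fintype.sum_option, fld_nn, pd_none, Finset.mul_sum, ← Finset.sum_add_distrib]
  refine Finset.sum_eq_zero fun i _ => ?_
  rw [fld_ns, pd_some, C_neg]
  ring

lemma det_AA (p : Fin n → ℝ) (A : Fin n → Matrix (Fin n) (Fin n) ℝ) :
    (Matrix.of fun k i => fld (AA p A k) i).det
      = X none * ph p (Matrix.of fun k i => fld (A k) i).det := by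
  classical
  set e : Fin n ⊕ Unit ≃ Option (Fin n) := (Equiv.optionEquivSumPUnit (Fin n)).symm with he
  rw [← Matrix.det_submatrix_equiv_self e]
  have hM : (Matrix.of fun k i => fld (AA p A k) i).submatrix e e
      = Matrix.fromBlocks ((ph p).mapMatrix (Matrix.of fun k i => fld (A k) i)) 0
          (Matrix.of fun (_ : Unit) i => C (- p i) * X none)
          (Matrix.of fun (_ _ : Unit) => X none) := by
    ext1 a b
    rcases a with a | a <;> rcases b with b | b
    · simp [he, fld_ss]
    · simp [he, fld_sn]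
    · simp [he, fld_ns]
    · simp [he, fld_nn]
  have h1 : (Matrix.of fun (_ _ : Unit) => (X none : MvPolynomial (Option (Fin n)) ℝ)).det
      = X none := Matrix.det_unique _
  rw [hM, Matrix.det_fromBlocks_zero₁₂, h1, ← AlgHom.map_det, mul_comm]

end Prdx

theorem thm_Prd : St_Prd := by
  intro n f p hf
  obtain ⟨hsq, A, hdiv, c, hc, hdet⟩ := hf
  change LinFree (X none * Prdx.ph p f)
  refine ⟨Prdx.sqf_ph p f hsq, Prdx.AA p A, ?_, c, hc, ?_⟩
  · intro k
    cases k with
    | none =>
      rw [Prdx.der_mul, Prdx.der_none, Prdx.der_X, Prdx.fld_nn, mul_zero, zero_add, mul_comm]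
    | some k =>
      rw [Prdx.der_mul, Prdx.der_some, Prdx.der_X, Prdx.fld_sn, mul_zero, add_zero]
      exact mul_dvd_mul_left _ (map_dvd (Prdx.ph p) (hdiv k))
  · rw [Prdx.det_AA, hdet, map_mul, Prdx.ph_C]
    ring

end Pool.Agent.LFD
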