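import Pool.Agent.LFD.St

/-!
# LFD, Sai: Saito's criterion (helper56)
-/

set_option autoImplicit false

noncomputable section

namespace Pool.Agent.LFD

open scoped Polynomial
open MvPolynomial Helper28.Nij RRC

namespace Saix

/-- a squarefree element divides `d` if all its prime divisors do -/
theorem dvd_of_primes {R : Type*} [CommRing R] [IsDomain R] [UniqueFactorizationMonoid R] (d h : R)
    (hs : Squarefree h) (H : ∀ p, Prime p → p ∣ h → p ∣ d) : h ∣ d := by
  revert hs H
  refine UniqueFactorizationMonoid.induction_on_prime h ?_ ?_ ?_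
  · intro hs _
    exact absurd hs not_squarefree_zero
  · intro x hx _ _
    exact hx.dvd
  · intro a p _ hp ih hs H
    obtain ⟨e, he⟩ := ih (hs.of_mul_right) fun q hq hqa => H q hq (hqa.mul_left p)
    have h1 : p ∣ a * e := he ▸ H p hp (dvd_mul_right p a)
    rcases hp.dvd_or_dvd h1 with h2 | h2
    · exfalso
      exact hp.not_isUnit (hs p (mul_dvd_mul_left p h2))
    · obtain ⟨e', rfl⟩ := h2
      exact ⟨e', by rw [he]; ring⟩

theorem eq_C {ι : Type} (F : MvPolynomial ι ℝ) (h : ∀ k, pderiv k F = 0) :
    F = C (coeff 0 F) := by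
  classical
  ext m
  rw [coeff_C]
  split_ifs with h0
  · rw [h0]
  · obtain ⟨k, hk⟩ : ∃ k, m k ≠ 0 := by
      by_contra hc
      push Not at hc
      exact h0 (by ext k; simp [hc k])
    have hm : m = (m - Finsupp.single k 1) + Finsupp.single k 1 := by
      rw [tsub_add_cancel_of_le]
      intro i
      by_cases hi : k = i
      · subst hi
        simp only [Finsupp.single_eq_same]
        omega
      · simp [hi]
    have h1 := coeff_pderiv (i := k) F (m - Finsupp.single k 1)
    rw [h k, ← hm, coeff_zero] at h1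
    have h2 : (((m - Finsupp.single k 1 : ι →₀ ℕ) k : ℕ) : ℝ) + 1 ≠ 0 := by positivity
    rcases mul_eq_zero.1 h1.symm with h3 | h3
    · exact h3
    · exact absurd h3 h2

theorem totalDegree_pderiv_lt {ι : Type} (F : MvPolynomial ι ℝ) (k : ι) (h : pderiv k F ≠ 0) :
    (pderiv k F).totalDegree < F.totalDegree := by
  classical
  have key : ∀ s ∈ (pderiv k F).support, (s.sum fun _ e => e) + 1 ≤ F.totalDegree := by
    intro s hs
    rw [mem_support_iff, coeff_pderiv] at hs
    have h1 : s + Finsupp.single k 1 ∈ F.support := mem_support_iff.2 (left_ne_zero_of_mul hs)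
    have h2 := le_totalDegree h1
    rwa [Finsupp.sum_add_index' (fun _ => rfl) (fun _ _ _ => rfl),
      Finsupp.sum_single_index rfl] at h2
  obtain ⟨s, hs⟩ := support_nonempty.2 h
  have h0 : 0 < F.totalDegree := by
    have := key s hs
    omega
  refine (Finset.sup_lt_iff h0).2 fun t ht => ?_
  have := key t ht
  omega

/-- an irreducible polynomial does not divide all its derivatives -/
theorem exists_not_dvd {ι : Type} (f : MvPolynomial ι ℝ) (hf : Prime f) :
    ∃ i, ¬ f ∣ pderiv i f := by
  by_contra hc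
  push Not at hc
  have h0 : ∀ i, pderiv i f = 0 := by
    intro i
    by_contra hi
    obtain ⟨g, hg⟩ := hc i
    have hg0 : g ≠ 0 := by
      rintro rfl
      exact hi (by rw [hg, mul_zero])
    have h1 := totalDegree_pderiv_lt f i hi
    rw [hg, totalDegree_mul_of_isDomain hf.ne_zero hg0] at h1
    omega
  have h1 := eq_C f h0
  have h2 : coeff 0 f ≠ 0 := by
    intro h
    rw [h, map_zero] at h1
    exact hf.ne_zero h1
  apply hf.not_isUnit
  rw [h1]
  exact (IsUnit.mk0 _ h2).map C

end Saix

theorem thm_Sai : St_Sai := by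
  intro ι _ _ h hs A hA
  set M : Matrix ι ι (MvPolynomial ι ℝ) := Matrix.of fun k i => fld (A k) i with hM
  choose g hg using hA
  have h1 : M.mulVec (fun i => pderiv i h) = fun k => h * g k := by
    funext k
    rw [← hg k]
    rfl
  have h2 : ∀ i, h ∣ M.det * pderiv i h := by
    intro i
    have h3 : M.adjugate.mulVec (M.mulVec fun i => pderiv i h) =
        M.adjugate.mulVec fun k => h * g k := by rw [h1]
    rw [Matrix.mulVec_mulVec, Matrix.adjugate_mul, Matrix.smul_mulVec, Matrix.one_mulVec] at h3
    have h4 := congrFun h3 i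
    rw [Pi.smul_apply, smul_eq_mul] at h4
    rw [h4]
    exact Finset.dvd_sum fun k _ => (dvd_mul_right h (g k)).mul_left _
  refine Saix.dvd_of_primes _ _ hs fun f hf hfh => ?_
  obtain ⟨h', rfl⟩ := hfh
  have hfh' : ¬ f ∣ h' := fun hd => hf.not_isUnit (hs f (mul_dvd_mul_left f hd))
  obtain ⟨i, hi⟩ := Saix.exists_not_dvd f hf
  have h5 : f ∣ M.det * pderiv i (f * h') := (dvd_mul_right f h').trans (h2 i)
  rw [Derivation.leibniz, smul_eq_mul, smul_eq_mul, mul_add] at h5
  have h6 : f ∣ M.det * (h' * pderiv i f) :=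
    (dvd_add_right ((dvd_mul_right f _).mul_left _)).1 h5
  rcases hf.dvd_or_dvd h6 with h7 | h7
  · exact h7
  · rcases hf.dvd_or_dvd h7 with h8 | h8
    · exact absurd h8 hfh'
    · exact absurd h8 hi

end Pool.Agent.LFD
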