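import Pool.Agent.LFD.St2
import Pool.Agent.LFD.Sai

/-!
# Linear free divisors, module Sem: tangent fields integrate to symmetries (helper90)
-/

set_option autoImplicit false

open MvPolynomial NormedSpace

namespace Pool.Agent.LFD.Semx

variable {ι : Type} [Fintype ι]

theorem eval_fld (B : Matrix ι ι ℝ) (v : ι → ℝ) (i : ι) : eval v (fld B i) = B.mulVec v i := by
  unfold fld
  simp only [map_sum, map_mul, eval_C, eval_X, Matrix.mulVec, dotProduct]

theorem eval_subst (B : Matrix ι ι ℝ) (v : ι → ℝ) (f : MvPolynomial ι ℝ) :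
    eval v (sub B f) = eval (B.mulVec v) f := by
  unfold sub
  induction f using MvPolynomial.induction_on with
  | C a => simp
  | add p q hp hq => rw [map_add, map_add, map_add, hp, hq]
  | mul_X p i hp => rw [map_mul, map_mul, map_mul, hp, aeval_X, eval_fld, eval_X]

theorem eval_der (A : Matrix ι ι ℝ) (v : ι → ℝ) (f : MvPolynomial ι ℝ) :
    eval v (der A f) = ∑ i, eval v (pderiv i f) * A.mulVec v i := by
  unfold der
  rw [map_sum]
  refine Finset.sum_congr rfl fun i _ => ?_
  rw [map_mul, eval_fld, mul_comm]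

theorem totalDegree_fld (A : Matrix ι ι ℝ) (i : ι) : (fld A i).totalDegree ≤ 1 := by
  unfold fld
  refine totalDegree_finsetSum_le fun j _ => ?_
  refine (totalDegree_mul _ _).trans ?_
  rw [totalDegree_C, totalDegree_X]

theorem totalDegree_der (A : Matrix ι ι ℝ) (f : MvPolynomial ι ℝ) :
    (der A f).totalDegree ≤ f.totalDegree := by
  unfold der
  refine totalDegree_finsetSum_le fun i _ => ?_
  by_cases h : pderiv i f = 0
  · rw [h, mul_zero, totalDegree_zero]
    exact Nat.zero_le _
  · have h1 := Saix.totalDegree_pderiv_lt f i h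
    have h2 := totalDegree_mul (fld A i) (pderiv i f)
    have h3 := totalDegree_fld A i
    omega

/-- the quotient is a constant -/
theorem quot (A : Matrix ι ι ℝ) (h : MvPolynomial ι ℝ) (hd : h ∣ der A h) :
    ∃ μ : ℝ, der A h = C μ * h := by
  obtain ⟨k, hk⟩ := hd
  by_cases h0 : der A h = 0
  · exact ⟨0, by rw [h0, C_0, zero_mul]⟩
  · have h1 : h ≠ 0 := fun h2 => h0 (by rw [hk, h2, zero_mul])
    have h2 : k ≠ 0 := fun h3 => h0 (by rw [hk, h3, mul_zero])
    have h3 := totalDegree_der A h
    rw [hk, totalDegree_mul_of_isDomain h1 h2] at h3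
    have h4 : k.totalDegree = 0 := by omega
    refine ⟨k.coeff 0, ?_⟩
    rw [hk, mul_comm, ← totalDegree_eq_zero_iff_eq_C.1 h4]

/-- chain rule -/
theorem hasDerivAt_eval (w : ℝ → ι → ℝ) (w' : ι → ℝ) (s : ℝ)
    (hw : ∀ i, HasDerivAt (fun t => w t i) (w' i) s) (f : MvPolynomial ι ℝ) :
    HasDerivAt (fun t => eval (w t) f) (∑ i, eval (w s) (pderiv i f) * w' i) s := by
  classical
  induction f using MvPolynomial.induction_on with
  | C a =>
    simp only [eval_C, pderiv_C, map_zero, zero_mul, Finset.sum_const_zero]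
    exact hasDerivAt_const s a
  | add p q hp hq =>
    simp only [map_add, add_mul, Finset.sum_add_distrib]
    exact hp.add hq
  | mul_X p i hp =>
    have h1 := hp.mul (hw i)
    have h2 : (∑ j, eval (w s) (pderiv j (p * X i)) * w' j) =
        (∑ j, eval (w s) (pderiv j p) * w' j) * w s i + eval (w s) p * w' i := by
      have h3 : ∀ j, eval (w s) (pderiv j (p * X i)) * w' j =
          eval (w s) (pderiv j p) * w' j * w s i +
            (if j = i then eval (w s) p * w' i else 0) := by
        intro j
        rw [pderiv_mul, map_add, map_mul, map_mul, eval_X, pderiv_X, Pi.single_apply]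
        by_cases h : i = j
        · subst h
          simp
          ring
        · rw [if_neg h, if_neg (fun h' => h h'.symm)]
          simp
          ring
      simp only [h3, Finset.sum_add_distrib, Finset.sum_ite_eq', Finset.mem_univ, if_true,
        Finset.sum_mul]
    rw [h2]
    refine h1.congr_of_eventuallyEq (Filter.Eventually.of_forall fun t => ?_)
    change eval (w t) (p * X i) = eval (w t) p * w t i
    rw [map_mul, eval_X]

open scoped Matrix.Norms.Operator in
/-- the flow of a linear vector field -/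
theorem hasDerivAt_flow [DecidableEq ι] (A : Matrix ι ι ℝ) (v : ι → ℝ) (s : ℝ) (i : ι) :
    HasDerivAt (fun t : ℝ => (exp (t • A)).mulVec v i)
      (A.mulVec ((exp (s • A)).mulVec v) i) s := by
  have h1 := hasDerivAt_exp_smul_const' (𝕂 := ℝ) A s
  let L : Matrix ι ι ℝ →ₗ[ℝ] ℝ :=
    { toFun := fun M => M.mulVec v i
      map_add' := fun M N => by rw [Matrix.add_mulVec]; rfl
      map_smul' := fun c M => by rw [Matrix.smul_mulVec]; rfl }
  have h2 := (LinearMap.toContinuousLinearMap L).hasFDerivAt.comp_hasDerivAt s h1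
  have h3 : A.mulVec ((exp (s • A)).mulVec v) i = (A * exp (s • A)).mulVec v i := by
    rw [Matrix.mulVec_mulVec]
  rw [h3]
  exact h2

end Pool.Agent.LFD.Semx

namespace Pool.Agent.LFD

open Semx

theorem thm_Sem : St_Sem := by
  intro ι _ _ h A hd
  obtain ⟨μ, hμ⟩ := quot A h hd
  refine ⟨μ, MvPolynomial.funext fun v => ?_⟩
  rw [eval_subst, map_mul, eval_C]
  have h1 : ∀ s : ℝ, HasDerivAt (fun t : ℝ => eval ((exp (t • A)).mulVec v) h)
      (μ * eval ((exp (s • A)).mulVec v) h) s := by
    intro s
    have h2 := hasDerivAt_eval (fun t : ℝ => (exp (t • A)).mulVec v)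
      (A.mulVec ((exp (s • A)).mulVec v)) s (fun i => hasDerivAt_flow A v s i) h
    rwa [← eval_der, hμ, map_mul, eval_C] at h2
  have h2 : ∀ s : ℝ, HasDerivAt
      (fun t : ℝ => eval ((exp (t • A)).mulVec v) h * Real.exp (-μ * t)) 0 s := by
    intro s
    have h3 : HasDerivAt (fun t : ℝ => Real.exp (-μ * t)) (Real.exp (-μ * s) * -μ) s := by
      have h4 : HasDerivAt (fun t : ℝ => -μ * t) (-μ) s := by
        simpa using (hasDerivAt_id s).const_mul (-μ)
      exact h4.exp
    have h4 := (h1 s).mul h3
    have h5 : μ * eval ((exp (s • A)).mulVec v) h * Real.exp (-μ * s) +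
        eval ((exp (s • A)).mulVec v) h * (Real.exp (-μ * s) * -μ) = 0 := by ring
    rwa [h5] at h4
  have h3 := is_const_of_deriv_eq_zero (fun s => (h2 s).differentiableAt)
    (fun s => (h2 s).deriv) 1 0
  simp only [one_smul, mul_one, zero_smul, mul_zero, Real.exp_zero, exp_zero,
    Matrix.one_mulVec] at h3
  rw [← h3, mul_comm, mul_assoc, ← Real.exp_add, neg_add_cancel, Real.exp_zero, mul_one]

end Pool.Agent.LFD
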