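import Pool.Agent.LFD.St

/-!
# LFD: separable specialisation (helper98)

Module `Sep`: `thm_Sep : St_Sep`.
-/

set_option autoImplicit false

noncomputable section

namespace Pool.Agent.LFD

open scoped Polynomial
open MvPolynomial Helper28.Nij RRC

namespace Sepx

section Gauss

variable {R : Type} [CommRing R] [IsDomain R] [IsIntegrallyClosed R] [CharZero R]

/-- A squarefree monic polynomial over an integrally closed domain is squarefree over the field of
fractions. -/
theorem squarefree_map {P : R[X]} (hP : P.Monic) (hs : Squarefree P) :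
    Squarefree (P.map (algebraMap R (FractionRing R))) := by
  set K := FractionRing R
  have hinj : Function.Injective (algebraMap R K) := IsFractionRing.injective R K
  have hne : P.map (algebraMap R K) ≠ 0 := (hP.map _).ne_zero
  intro y hy
  have hy1 : y ∣ P.map (algebraMap R K) := (dvd_mul_right y y).trans hy
  have hy0 : y ≠ 0 := ne_zero_of_dvd_ne_zero hne hy1
  obtain ⟨g, hg⟩ := IsIntegrallyClosed.eq_map_mul_C_of_dvd K hP hy1
  have hlc : y.leadingCoeff ≠ 0 := Polynomial.leadingCoeff_ne_zero.2 hy0
  have hu : IsUnit (Polynomial.C y.leadingCoeff : K[X]) :=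
    Polynomial.isUnit_C.2 (isUnit_iff_ne_zero.2 hlc)
  have hgm : (g.map (algebraMap R K)).Monic := by
    have h1 := congrArg Polynomial.leadingCoeff hg
    rw [Polynomial.leadingCoeff_mul, Polynomial.leadingCoeff_C] at h1
    exact mul_right_cancel₀ hlc (by rw [h1, one_mul])
  have hgm' : g.Monic := Polynomial.monic_of_injective hinj hgm
  have h2 : (g * g).map (algebraMap R K) ∣ P.map (algebraMap R K) := by
    rw [Polynomial.map_mul]
    refine (mul_dvd_mul (Dvd.intro _ hg) (Dvd.intro _ hg)).trans hy
  have h3 : g * g ∣ P := (Polynomial.map_dvd_map _ hinj (hgm'.mul hgm')).1 h2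
  have h4 : IsUnit (g.map (algebraMap R K)) := by
    have := (hs g h3).map (Polynomial.mapRingHom (algebraMap R K))
    exact this
  rw [← hg]
  exact h4.mul hu

/-- A squarefree monic polynomial and its derivative have a nonzero constant combination. -/
theorem exists_combination {P : R[X]} (hP : P.Monic) (hs : Squarefree P) :
    ∃ (U V : R[X]) (d : R), d ≠ 0 ∧ U * P + V * Polynomial.derivative P = Polynomial.C d := by
  set K := FractionRing R with hK
  have hinj : Function.Injective (algebraMap R K) := IsFractionRing.injective R K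
  have : CharZero K := charZero_of_injective_algebraMap hinj
  have h1 : (P.map (algebraMap R K)).Separable :=
    PerfectField.separable_iff_squarefree.2 (squarefree_map hP hs)
  obtain ⟨a, b, hab⟩ := h1
  obtain ⟨d₁, hd₁, h2⟩ := IsLocalization.integerNormalization_spec (nonZeroDivisors R) a
  obtain ⟨d₂, hd₂, h3⟩ := IsLocalization.integerNormalization_spec (nonZeroDivisors R) b
  set A := IsLocalization.integerNormalization (nonZeroDivisors R) a
  set B := IsLocalization.integerNormalization (nonZeroDivisors R) b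
  have e2 : A.map (algebraMap R K) = Polynomial.C (algebraMap R K d₁) * a := by
    rw [h2, ← IsScalarTower.algebraMap_smul K d₁ a, Polynomial.smul_eq_C_mul]
  have e3 : B.map (algebraMap R K) = Polynomial.C (algebraMap R K d₂) * b := by
    rw [h3, ← IsScalarTower.algebraMap_smul K d₂ b, Polynomial.smul_eq_C_mul]
  refine ⟨Polynomial.C d₂ * A, Polynomial.C d₁ * B, d₁ * d₂,
    mul_ne_zero (nonZeroDivisors.ne_zero hd₁) (nonZeroDivisors.ne_zero hd₂), ?_⟩
  apply Polynomial.map_injective _ hinj
  simp only [Polynomial.map_add, Polynomial.map_mul, Polynomial.map_C, e2, e3, map_mul,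
    ← Polynomial.derivative_map]
  linear_combination (Polynomial.C (algebraMap R K d₁) * Polynomial.C (algebraMap R K d₂)) * hab

end Gauss

/-- `P` as a polynomial in `t` with coefficients in the polynomials in `x`. -/
def Pt {n : ℕ} (σ : Fin n → MvPolynomial (Fin n) ℝ) : (MvPolynomial (Fin n) ℝ)[X] :=
  Polynomial.X ^ n + ∑ k : Fin n, Polynomial.C (σ k) * Polynomial.X ^ (n - 1 - (k : ℕ))

theorem oe_rename {n : ℕ} (f : MvPolynomial (Fin n) ℝ) :
    optionEquivLeft ℝ (Fin n) (rename some f) = Polynomial.C f := by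
  induction f using MvPolynomial.induction_on with
  | C a => rw [rename_C, optionEquivLeft_C]
  | add p q hp hq => rw [map_add, map_add, hp, hq, map_add]
  | mul_X p i h => rw [map_mul, map_mul, h, rename_X, optionEquivLeft_X_some, map_mul]

theorem oe_PP {n : ℕ} (σ : Fin n → MvPolynomial (Fin n) ℝ) :
    optionEquivLeft ℝ (Fin n) (PP σ) = Pt σ := by
  rw [PP, Pt, map_add, map_pow, optionEquivLeft_X_none, map_sum]
  refine congrArg _ (Finset.sum_congr rfl fun k _ => ?_)
  rw [map_mul, map_pow, optionEquivLeft_X_none, oe_rename]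

theorem degree_tail {R : Type} [CommRing R] [Nontrivial R] {n : ℕ} (c : Fin n → R) :
    (∑ k : Fin n, Polynomial.C (c k) * Polynomial.X ^ (n - 1 - (k : ℕ)) : R[X]).degree < n := by
  refine lt_of_le_of_lt (Polynomial.degree_sum_le _ _) ?_
  refine (Finset.sup_lt_iff (WithBot.bot_lt_coe n)).2 fun k _ => ?_
  refine lt_of_le_of_lt (Polynomial.degree_C_mul_X_pow_le _ _) ?_
  have := k.2
  exact WithBot.coe_lt_coe.2 (by omega : n - 1 - (k : ℕ) < n)

theorem Pt_monic {n : ℕ} (σ : Fin n → MvPolynomial (Fin n) ℝ) : (Pt σ).Monic :=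
  Polynomial.monic_X_pow_add (degree_tail σ)

/-- A monic polynomial of degree `n` from its coefficients. -/
theorem eq_of_coeff {R : Type} [CommRing R] {n : ℕ} {p : R[X]} (hp : p.Monic)
    (hn : p.natDegree = n) :
    p = Polynomial.X ^ n + ∑ k : Fin n,
      Polynomial.C (p.coeff (n - 1 - k)) * Polynomial.X ^ (n - 1 - (k : ℕ)) := by
  have h1 := hp.as_sum
  rw [hn] at h1
  have h2 : ∑ k : Fin n, Polynomial.C (p.coeff (n - 1 - k)) * Polynomial.X ^ (n - 1 - (k : ℕ)) =
      ∑ i ∈ Finset.range n, Polynomial.C (p.coeff i) * Polynomial.X ^ i := by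
    rw [Fin.sum_univ_eq_sum_range (fun i => Polynomial.C (p.coeff (n - 1 - i)) *
      Polynomial.X ^ (n - 1 - i)) n]
    exact Finset.sum_range_reflect (fun i => Polynomial.C (p.coeff i) * Polynomial.X ^ i) n
  rw [h2]
  exact h1

end Sepx

open Sepx in
theorem thm_Sep : St_Sep := by
  intro n σ hsq
  -- the image under the equivalence is squarefree
  have h1 : Squarefree (Polynomial.X * Pt σ) := by
    intro y hy
    have h2 : (optionEquivLeft ℝ (Fin n)).symm y * (optionEquivLeft ℝ (Fin n)).symm y ∣
        X none * PP σ := by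
      have h3 := map_dvd (optionEquivLeft ℝ (Fin n)).symm hy
      rw [map_mul, map_mul, optionEquivLeft_symm_X, ← oe_PP, AlgEquiv.symm_apply_apply] at h3
      exact h3
    have h4 := (hsq _ h2).map (optionEquivLeft ℝ (Fin n))
    rwa [AlgEquiv.apply_symm_apply] at h4
  have hPs : Squarefree (Pt σ) := h1.squarefree_of_dvd (dvd_mul_left _ _)
  have hc0 : (Pt σ).coeff 0 ≠ 0 := by
    intro h0
    have h2 : Polynomial.X ∣ Pt σ := Polynomial.X_dvd_iff.2 h0
    exact Polynomial.not_isUnit_X (h1 _ (mul_dvd_mul_left _ h2))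
  obtain ⟨U, V, d, hd, hUV⟩ := exists_combination (Pt_monic σ) hPs
  obtain ⟨x, hx⟩ : ∃ x : Fin n → ℝ, MvPolynomial.eval x (d * (Pt σ).coeff 0) ≠ 0 := by
    by_contra hcon
    push Not at hcon
    exact mul_ne_zero hd hc0 (MvPolynomial.funext fun x => by rw [hcon x, map_zero])
  rw [map_mul] at hx
  refine ⟨x, fun p hp hn hcoef => ?_⟩
  have hpe : p = (Pt σ).map (MvPolynomial.eval x) := by
    rw [eq_of_coeff hp hn, Pt, Polynomial.map_add, Polynomial.map_pow, Polynomial.map_X,
      Polynomial.map_sum]
    refine congrArg _ (Finset.sum_congr rfl fun k _ => ?_)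
    rw [Polynomial.map_mul, Polynomial.map_C, Polynomial.map_pow, Polynomial.map_X, hcoef k]
  have hd' : MvPolynomial.eval x d ≠ 0 := left_ne_zero_of_mul hx
  constructor
  · have h5 := congrArg (Polynomial.map (MvPolynomial.eval x)) hUV
    rw [Polynomial.map_add, Polynomial.map_mul, Polynomial.map_mul, Polynomial.map_C,
      ← Polynomial.derivative_map, ← hpe] at h5
    refine ⟨Polynomial.C (MvPolynomial.eval x d)⁻¹ * U.map (MvPolynomial.eval x),
      Polynomial.C (MvPolynomial.eval x d)⁻¹ * V.map (MvPolynomial.eval x), ?_⟩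
    have h6 : (Polynomial.C (MvPolynomial.eval x d)⁻¹ : ℝ[X]) *
        Polynomial.C (MvPolynomial.eval x d) = 1 := by
      rw [← Polynomial.C_mul, inv_mul_cancel₀ hd', Polynomial.C_1]
    linear_combination (Polynomial.C (MvPolynomial.eval x d)⁻¹ : ℝ[X]) * h5 + h6
  · rw [← Polynomial.coeff_zero_eq_eval_zero, hpe, Polynomial.coeff_map]
    exact right_ne_zero_of_mul hx

end Pool.Agent.LFD
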