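import Pool.Agent.LFD.St

/-!
LFD, Sqf: `t P` is squarefree if `det J ≠ 0` (helper79).
-/

set_option autoImplicit false

namespace Pool.Agent.LFD

open MvPolynomial Helper28.Nij

namespace Sqfx

variable {n : ℕ}

/-- polynomials in `t` over the polynomials in `x` -/
noncomputable def phi (n : ℕ) :
    MvPolynomial (Option (Fin n)) ℝ ≃ₐ[ℝ] Polynomial (MvPolynomial (Fin n) ℝ) :=
  optionEquivLeft ℝ (Fin n)

theorem phi_X : phi n (X none) = Polynomial.X := by
  simp [phi]

theorem phi_rename (p : MvPolynomial (Fin n) ℝ) : phi n (rename some p) = Polynomial.C p := by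
  induction p using MvPolynomial.induction_on with
  | C a =>
    rw [rename_C]
    simp [phi]
  | add p q hp hq => rw [map_add, map_add, hp, hq, Polynomial.C_add]
  | mul_X p i hp =>
    rw [map_mul, map_mul, hp, rename_X, Polynomial.C_mul]
    simp [phi]

/-- `P` as a polynomial in `t` -/
noncomputable def Q (σ : Fin n → MvPolynomial (Fin n) ℝ) : Polynomial (MvPolynomial (Fin n) ℝ) :=
  Polynomial.X ^ n + ∑ k : Fin n, Polynomial.C (σ k) * Polynomial.X ^ (n - 1 - (k : ℕ))

theorem phi_PP (σ : Fin n → MvPolynomial (Fin n) ℝ) : phi n (PP σ) = Q σ := by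
  unfold PP Q
  rw [map_add, map_pow, map_sum, phi_X]
  congr 1
  refine Finset.sum_congr rfl fun k _ => ?_
  rw [map_mul, map_pow, phi_X, phi_rename]

theorem Q_monic (σ : Fin n → MvPolynomial (Fin n) ℝ) : (Q σ).Monic := by
  unfold Q
  refine Polynomial.monic_X_pow_add ?_
  refine Polynomial.mem_degreeLT.1 (Submodule.sum_mem _ fun k _ => Polynomial.mem_degreeLT.2 ?_)
  refine lt_of_le_of_lt (Polynomial.degree_C_mul_X_pow_le _ _) ?_
  have hk := k.2
  exact_mod_cast (by omega : n - 1 - (k : ℕ) < n)

theorem Q_coeff {m : ℕ} (σ : Fin (m + 1) → MvPolynomial (Fin (m + 1)) ℝ) :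
    (Q σ).coeff 0 = σ (Fin.last m) := by
  unfold Q
  rw [Polynomial.coeff_zero_eq_eval_zero]
  simp only [Polynomial.eval_add, Polynomial.eval_pow, Polynomial.eval_X,
    Polynomial.eval_finsetSum, Polynomial.eval_mul, Polynomial.eval_C]
  rw [Fin.sum_univ_castSucc]
  have h1 : ∀ i : Fin m, (0 : MvPolynomial (Fin (m + 1)) ℝ) ^ (m - (i : ℕ)) = 0 := by
    intro i
    refine zero_pow ?_
    have := i.2
    omega
  simp [h1]

/-- the derivative of `t P` in the direction `x_j` -/
theorem pd (σ : Fin n → MvPolynomial (Fin n) ℝ) (j : Fin n) :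
    pderiv (some j) (X none * PP σ) =
      X none * ∑ k : Fin n, rename some (pderiv j (σ k)) * X none ^ (n - 1 - (k : ℕ)) := by
  have hX : pderiv (some j) (X none : MvPolynomial (Option (Fin n)) ℝ) = 0 :=
    pderiv_X_of_ne (by simp)
  have hXp : ∀ a : ℕ, pderiv (some j) ((X none : MvPolynomial (Option (Fin n)) ℝ) ^ a) = 0 := by
    intro a
    rw [Derivation.leibniz_pow, hX]
    simp
  rw [pderiv_mul, hX, zero_mul, zero_add]
  congr 1
  unfold PP
  rw [map_add, hXp, zero_add, map_sum]
  refine Finset.sum_congr rfl fun k _ => ?_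
  rw [pderiv_mul, hXp, mul_zero, add_zero, pderiv_rename (Option.some_injective _)]

end Sqfx

open Sqfx

theorem thm_Sqf : St_Sqf := by
  classical
  intro n σ hJ q hq
  -- it is enough to work with `phi q`
  have hunit : IsUnit (phi n q) → IsUnit q := by
    intro h
    have h1 := h.map (phi n).symm
    rwa [AlgEquiv.symm_apply_apply] at h1
  apply hunit
  have hQQ : phi n q * phi n q ∣ Polynomial.X * Q σ := by
    have h1 := map_dvd (phi n) hq
    rwa [map_mul, map_mul, phi_X, phi_PP] at h1
  have hmon : (Polynomial.X * Q σ).Monic := Polynomial.monic_X.mul (Q_monic σ)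
  obtain ⟨r, hr⟩ := hQQ
  have hlc : IsUnit (phi n q).leadingCoeff := by
    have h1 := congrArg Polynomial.leadingCoeff hr
    rw [hmon.leadingCoeff, Polynomial.leadingCoeff_mul, Polynomial.leadingCoeff_mul, mul_assoc] at h1
    exact IsUnit.of_mul_eq_one _ h1.symm
  -- derivatives
  have hdj : ∀ j : Fin n, phi n q ∣ Polynomial.X * ∑ k : Fin n,
      Polynomial.C (pderiv j (σ k)) * Polynomial.X ^ (n - 1 - (k : ℕ)) := by
    intro j
    have h1 : q ∣ pderiv (some j) (X none * PP σ) := by
      obtain ⟨s, hs⟩ := hq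
      rw [hs, pderiv_mul, pderiv_mul]
      refine ⟨(pderiv (some j) q * s + pderiv (some j) q * s + q * pderiv (some j) s), ?_⟩
      ring
    rw [pd] at h1
    have h2 := map_dvd (phi n) h1
    rw [map_mul, phi_X, map_sum] at h2
    simp only [map_mul, map_pow, phi_X, phi_rename] at h2
    exact h2
  cases n with
  | zero =>
    have hQ1 : Q σ = 1 := by
      unfold Q
      simp
    have h1 : phi 0 q * phi 0 q ∣ Polynomial.X := ⟨r, by rw [← hr, hQ1, mul_one]⟩
    exact Polynomial.prime_X.irreducible.squarefree _ h1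
  | succ m =>
    have hdet : phi (m + 1) q ∣ Polynomial.X * Polynomial.C (jac σ).det := by
      have h1 : phi (m + 1) q ∣ ∑ j : Fin (m + 1), Polynomial.C ((jac σ).adjugate j (Fin.last m)) *
          (Polynomial.X * ∑ k : Fin (m + 1),
            Polynomial.C (pderiv j (σ k)) * Polynomial.X ^ (m + 1 - 1 - (k : ℕ))) :=
        Finset.dvd_sum fun j _ => Dvd.dvd.mul_left (hdj j) _
      have h2 : ∑ j : Fin (m + 1), Polynomial.C ((jac σ).adjugate j (Fin.last m)) *
          (Polynomial.X * ∑ k : Fin (m + 1),
            Polynomial.C (pderiv j (σ k)) * Polynomial.X ^ (m + 1 - 1 - (k : ℕ))) =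
          Polynomial.X * ∑ k : Fin (m + 1), Polynomial.C ((jac σ * (jac σ).adjugate) k (Fin.last m)) *
            Polynomial.X ^ (m + 1 - 1 - (k : ℕ)) := by
        have h3 : ∀ k : Fin (m + 1), (jac σ * (jac σ).adjugate) k (Fin.last m) =
            ∑ j, pderiv j (σ k) * (jac σ).adjugate j (Fin.last m) := by
          intro k
          rw [Matrix.mul_apply]
          rfl
        simp only [h3, Finset.mul_sum, Finset.sum_mul, map_sum, Polynomial.C_mul]
        rw [Finset.sum_comm]
        refine Finset.sum_congr rfl fun k _ => Finset.sum_congr rfl fun j _ => ?_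
        ring
      rw [h2, Matrix.mul_adjugate] at h1
      have h4 : ∑ k : Fin (m + 1), Polynomial.C (((jac σ).det • (1 : Matrix (Fin (m + 1)) (Fin (m + 1))
          (MvPolynomial (Fin (m + 1)) ℝ))) k (Fin.last m)) *
            Polynomial.X ^ (m + 1 - 1 - (k : ℕ)) = Polynomial.C (jac σ).det := by
        rw [Finset.sum_eq_single (Fin.last m)]
        · simp
        · intro k _ hk
          rw [Matrix.smul_apply, Matrix.one_apply_ne hk]
          simp
        · intro h
          exact absurd (Finset.mem_univ _) h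
      rwa [h4] at h1
    obtain ⟨s, hs⟩ := hdet
    have hD0 : Polynomial.C (jac σ).det ≠ 0 := by
      rwa [Ne, Polynomial.C_eq_zero]
    have hXD : Polynomial.X * Polynomial.C (jac σ).det ≠ 0 :=
      mul_ne_zero Polynomial.X_ne_zero hD0
    have hq0 : phi (m + 1) q ≠ 0 := by
      intro h
      rw [h, zero_mul] at hs
      exact hXD hs
    have hs0 : s ≠ 0 := by
      intro h
      rw [h, mul_zero] at hs
      exact hXD hs
    have hdeg : (phi (m + 1) q).natDegree + s.natDegree = 1 := by
      rw [← Polynomial.natDegree_mul hq0 hs0, ← hs,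
        Polynomial.natDegree_mul Polynomial.X_ne_zero hD0, Polynomial.natDegree_X,
        Polynomial.natDegree_C]
    by_cases h0 : (phi (m + 1) q).natDegree = 0
    · rw [Polynomial.eq_C_of_natDegree_eq_zero h0]
      rw [Polynomial.leadingCoeff, h0] at hlc
      exact hlc.map Polynomial.C
    · exfalso
      have h1 : (phi (m + 1) q).natDegree = 1 := by omega
      have h2 : s.natDegree = 0 := by omega
      obtain ⟨e, he⟩ : ∃ e, s = Polynomial.C e := ⟨_, Polynomial.eq_C_of_natDegree_eq_zero h2⟩
      have he0 : e ≠ 0 := by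
        rintro rfl
        rw [Polynomial.C_0] at he
        exact hs0 he
      have hb : (phi (m + 1) q).coeff 0 = 0 := by
        have h3 := congrArg (fun f => Polynomial.coeff f 0) hs
        simp only [he, Polynomial.coeff_zero_eq_eval_zero,
          Polynomial.eval_mul, Polynomial.eval_X, zero_mul, Polynomial.eval_C] at h3
        rw [Polynomial.coeff_zero_eq_eval_zero]
        rcases mul_eq_zero.1 h3.symm with h4 | h4
        · exact h4
        · exact absurd h4 he0
      obtain ⟨u, hu⟩ := Polynomial.X_dvd_iff.2 hb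
      have h5 : Polynomial.X ∣ Q σ := by
        rw [hu] at hr
        have h6 : (Polynomial.X : Polynomial (MvPolynomial (Fin (m + 1)) ℝ)) * Q σ =
            Polynomial.X * (Polynomial.X * (u * u * r)) := by
          rw [hr]
          ring
        have h7 := mul_left_cancel₀ Polynomial.X_ne_zero h6
        exact ⟨_, h7⟩
      have h8 : σ (Fin.last m) = 0 := by
        rw [← Q_coeff σ]
        exact Polynomial.X_dvd_iff.1 h5
      apply hJ
      refine Matrix.det_eq_zero_of_row_eq_zero (Fin.last m) fun j => ?_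
      show pderiv j (σ (Fin.last m)) = 0
      rw [h8, map_zero]

end Pool.Agent.LFD

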