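import Pool.Agent.LFD.St

/-!
# Admissible collections and linear free divisors: linear free divisors with a linear factor
-/

set_option autoImplicit false

noncomputable section

namespace Pool.Agent.LFD

open scoped Polynomial
open MvPolynomial Helper28.Nij RRC

namespace Trix

/-- a matrix with a given column and the other columns in a hyperplane -/
theorem exists_matrix {n : ℕ} (a q : Option (Fin n) → ℝ) (h : ∑ i, a i * q i ≠ 0) :
    ∃ B : Matrix (Option (Fin n)) (Option (Fin n)) ℝ, IsUnit B.det ∧ (∀ i, B i none = q i) ∧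
      ∀ j : Fin n, ∑ i, a i * B i (some j) = 0 := by
  classical
  let φ : (Option (Fin n) → ℝ) →ₗ[ℝ] ℝ := Fintype.linearCombination ℝ a
  have hφ : ∀ v, φ v = ∑ i, a i * v i := by
    intro v
    change Fintype.linearCombination ℝ a v = _
    rw [Fintype.linearCombination_apply]
    exact Finset.sum_congr rfl fun i _ => by rw [smul_eq_mul, mul_comm]
  have hφ0 : φ ≠ 0 := by
    intro h0
    apply h
    rw [← hφ, h0]
    rfl
  have hfr : Module.finrank ℝ (LinearMap.ker φ) = n := by
    have h1 := φ.finrank_range_add_finrank_ker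
    have h2 : Module.finrank ℝ (LinearMap.range φ) = 1 := by
      rw [LinearMap.range_eq_top.2 (LinearMap.surjective hφ0), finrank_top,
        Module.finrank_self]
    rw [h2, Module.finrank_fintype_fun_eq_card, Fintype.card_option, Fintype.card_fin] at h1
    omega
  let b : Module.Basis (Fin n) ℝ (LinearMap.ker φ) := Module.finBasisOfFinrankEq ℝ _ hfr
  let v : Option (Fin n) → Option (Fin n) → ℝ := fun j => Option.elim j q fun i => (b i : _)
  have hv : LinearIndependent ℝ v := by
    rw [linearIndependent_option]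
    constructor
    · exact b.linearIndependent.map' (LinearMap.ker φ).subtype (Submodule.ker_subtype _)
    · intro h1
      have h2 : Submodule.span ℝ (Set.range (v ∘ (some : Fin n → Option (Fin n)))) ≤
          LinearMap.ker φ := by
        rw [Submodule.span_le]
        rintro _ ⟨i, rfl⟩
        exact (b i).2
      have h3 : φ q = 0 := h2 h1
      rw [hφ] at h3
      exact h h3
  refine ⟨Matrix.of fun i j => v j i, ?_, fun i => rfl, fun j => ?_⟩
  · rw [← Matrix.isUnit_iff_isUnit_det, ← Matrix.linearIndependent_cols_iff_isUnit]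
    exact hv
  · have h1 : φ (b j) = 0 := (b j).2
    rw [hφ] at h1
    exact h1

theorem sub_lin {n : ℕ} (a q : Option (Fin n) → ℝ)
    (B : Matrix (Option (Fin n)) (Option (Fin n)) ℝ) (hBq : ∀ i, B i none = q i)
    (hB0 : ∀ j : Fin n, ∑ i, a i * B i (some j) = 0) :
    sub B (∑ i, C (a i) * X i) = C (∑ i, a i * q i) * X none := by
  unfold sub
  rw [map_sum]
  have h1 : ∀ i, aeval (fun i => fld B i) (C (a i) * X i : MvPolynomial (Option (Fin n)) ℝ) =
      ∑ j, C (a i * B i j) * X j := by
    intro i
    rw [map_mul, aeval_X, algHom_C]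
    unfold fld
    rw [Finset.mul_sum]
    refine Finset.sum_congr rfl fun j _ => ?_
    rw [C_mul, mul_assoc]
    rfl
  rw [Finset.sum_congr rfl fun i _ => h1 i, Finset.sum_comm]
  have h2 : ∀ j, ∑ i, (C (a i * B i j) * X j : MvPolynomial (Option (Fin n)) ℝ) =
      C (∑ i, a i * B i j) * X j := by
    intro j
    rw [map_sum, Finset.sum_mul]
  rw [Finset.sum_congr rfl fun j _ => h2 j, Fintype.sum_option]
  have h3 : ∑ j : Fin n, (C (∑ i, a i * B i (some j)) * X (some j) :
      MvPolynomial (Option (Fin n)) ℝ) = 0 := by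
    refine Finset.sum_eq_zero fun j _ => ?_
    rw [hB0, C_0, zero_mul]
  rw [h3, add_zero]
  simp only [hBq]

/-- a cofactor of a variable -/
theorem hom_cofactor {n : ℕ} (u : MvPolynomial (Option (Fin n)) ℝ)
    (h : (X none * u).IsHomogeneous (n + 1)) : u.IsHomogeneous n := by
  intro d hd
  have h1 : coeff (Finsupp.single none 1 + d) (X none * u) ≠ 0 := by
    rw [coeff_X_mul]
    exact hd
  have h2 := h h1
  rw [map_add, Finsupp.weight_single] at h2
  simp only [Pi.one_apply, smul_eq_mul, mul_one] at h2
  omega

end Trix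

open Trix in
theorem thm_Tri (hCom : St_Com) (hLin : St_Lin) (hFrm : St_Frm) (hA : St_MainA) : St_Tri := by
  intro n h hh a q hdiv hq
  have haq : ∑ i, a i * q i ≠ 0 := by
    obtain ⟨w, rfl⟩ := hdiv
    rw [map_mul, map_sum] at hq
    have h1 := left_ne_zero_of_mul hq
    intro h2
    apply h1
    rw [← h2]
    refine Finset.sum_congr rfl fun i _ => ?_
    rw [map_mul, eval_C, eval_X]
  obtain ⟨B, hB, hBq, hB0⟩ := exists_matrix a q haq
  have hL := sub_lin a q B hBq hB0
  have h1 : LinFree (sub B h) := hLin.1 _ h B hB hh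
  have hhom : (sub B h).IsHomogeneous (n + 1) := by
    obtain ⟨sq, A, hA1, c, hc, hdet⟩ := h1
    have h2 := (hCom.1 _ (sub B h) sq A c hA1 hc hdet).1
    rwa [Fintype.card_option, Fintype.card_fin] at h2
  have hX : (X none : MvPolynomial (Option (Fin n)) ℝ) ∣ sub B h := by
    have h2 : sub B (∑ i, C (a i) * X i) ∣ sub B h := by
      unfold sub
      exact map_dvd _ hdiv
    rw [hL] at h2
    exact (Dvd.intro_left _ rfl).trans h2
  obtain ⟨u, hu⟩ := hX
  have hu1 : u.IsHomogeneous n := hom_cofactor u (hu ▸ hhom)
  have hev : MvPolynomial.eval (fun i => Option.elim i 1 fun _ => 0) u =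
      MvPolynomial.eval q h := by
    have h2 : MvPolynomial.eval (fun i => Option.elim i 1 fun _ => (0 : ℝ)) (sub B h) =
        MvPolynomial.eval q h := by
      unfold sub
      have h3 : (MvPolynomial.eval (fun i : Option (Fin n) => Option.elim i 1 fun _ => (0 : ℝ))).comp
          (aeval (fun i => fld B i) : MvPolynomial (Option (Fin n)) ℝ →ₐ[ℝ] _).toRingHom =
          MvPolynomial.eval q := by
        apply MvPolynomial.ringHom_ext
        · intro r
          simp
        · intro i
          rw [RingHom.comp_apply]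
          change MvPolynomial.eval _ (aeval (fun i => fld B i) (X i)) = _
          rw [aeval_X, eval_X]
          unfold fld
          rw [map_sum, Fintype.sum_option]
          simp [hBq]
      exact DFunLike.congr_fun h3 h
    rw [hu, map_mul, eval_X] at h2
    rw [← h2]
    exact (one_mul _).symm
  obtain ⟨σ, hσ⟩ := hFrm n u _ hu1 hev hq
  have hfin : sub B h = C (MvPolynomial.eval q h) * (X none * PP σ) := by
    rw [hu, hσ]
    ring
  refine ⟨B, σ, hB, hBq, hL, hfin, (hA n σ).2 ?_⟩
  rw [hfin] at h1
  exact (hLin.2 _ _ _ hq).1 h1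

end Pool.Agent.LFD
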