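import Pool.Agent.LFD.Sai
import Pool.Agent.LFD.Com
import Pool.Agent.LFD.Lin
import Pool.Agent.LFD.Lf1
import Pool.Agent.LFD.Sep
import Pool.Agent.LFD.Ndc
import Pool.Agent.LFD.Back
import Pool.Agent.LFD.Fwd
import Pool.Agent.LFD.Sqf
import Pool.Agent.LFD.MainA
import Pool.Agent.LFD.Frm
import Pool.Agent.LFD.Tri
import Pool.Agent.LFD.Inj
import Pool.Agent.LFD.Prd
import Pool.Agent.LFD.MainB
import Pool.Agent.LFD.Sem
import Pool.Agent.LFD.Opn
import Pool.Agent.LFD.Orb
import Pool.Agent.LFD.Iso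

/-!
# Admissible collections and linear free divisors: assembly
-/

namespace Pool.Agent.LFD

theorem all_Com : St_Com := thm_Com thm_Sai

theorem all_Back : St_Back := thm_Back (thm_Lf1 all_Com) thm_Sep thm_Ndc

theorem all_MainA : St_MainA := thm_MainA thm_Fwd thm_Sqf all_Back

theorem all_Tri : St_Tri := thm_Tri all_Com thm_Lin thm_Frm all_MainA

theorem all_MainB : St_MainB := thm_MainB all_Com thm_Lin thm_Frm thm_Prd all_MainA

theorem all_Iso : St_Iso := thm_Iso (thm_Orb (thm_Opn thm_Sem)) thm_Inj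

end Pool.Agent.LFD
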