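import Pool.Agent.Helper28.NijDefs

/-!
# Linear free divisors (MP_835236_al): definitions
-/

open MvPolynomial

namespace Pool.Agent.LFD

section

variable {ι : Type} [Fintype ι]

/-- The coefficients of the linear vector field `v ↦ A v`: the `i`-th one is the linear form
`∑_j A_ij X_j`. -/
noncomputable def fld (A : Matrix ι ι ℝ) (i : ι) : MvPolynomial ι ℝ := ∑ j, C (A i j) * X j

/-- The derivative of `f` along the linear vector field `v ↦ A v`. -/
noncomputable def der (A : Matrix ι ι ℝ) (f : MvPolynomial ι ℝ) : MvPolynomial ι ℝ :=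
  ∑ i, fld A i * pderiv i f

/-- The linear substitution `f(B v)`. -/
noncomputable def sub (B : Matrix ι ι ℝ) (f : MvPolynomial ι ℝ) : MvPolynomial ι ℝ :=
  aeval (fun i => fld B i) f

/-- `f = 0` is a linear free divisor (Saito's criterion): `f` is squarefree, and there are as many
linear vector fields `A_k` as variables, tangent to `f = 0` (`f` divides `A_k f`), whose determinant
is `c f`, `c ≠ 0`. -/
def LinFree [DecidableEq ι] (f : MvPolynomial ι ℝ) : Prop :=
  Squarefree f ∧ ∃ A : ι → Matrix ι ι ℝ, (∀ k, f ∣ der (A k) f) ∧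
    ∃ c : ℝ, c ≠ 0 ∧ (Matrix.of fun k i => fld (A k) i).det = C c * f

end

/-- The polynomial `P = t^n + σ_1 t^(n-1) + … + σ_n` in the variables `x_i = X (some i)`,
`t = X none`. -/
noncomputable def PP {n : ℕ} (σ : Fin n → MvPolynomial (Fin n) ℝ) :
    MvPolynomial (Option (Fin n)) ℝ :=
  X none ^ n + ∑ k : Fin n, rename some (σ k) * X none ^ (n - 1 - (k : ℕ))

end Pool.Agent.LFD
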