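import Pool.Agent.LFD.St2
import Pool.Agent.LFD.Lin
import Pool.Agent.LFD.Inj

/-!
# Module Iso: the classification of collections is the classification of triples
-/

set_option autoImplicit false

namespace Pool.Agent.LFD

open MvPolynomial Helper28.Nij

namespace Isox

section gen

variable {ι : Type} [Fintype ι]

theorem mul (B : Matrix ι ι ℝ) (f g : MvPolynomial ι ℝ) : sub B (f * g) = sub B f * sub B g := by
  unfold sub
  rw [map_mul]

theorem subC (B : Matrix ι ι ℝ) (c : ℝ) : sub B (C c) = C c := by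
  unfold sub
  rw [← algebraMap_eq, AlgHom.commutes]

theorem subCm (B : Matrix ι ι ℝ) (c : ℝ) (f : MvPolynomial ι ℝ) :
    sub B (C c * f) = C c * sub B f := by
  rw [mul, subC]

theorem evs (B : Matrix ι ι ℝ) (f : MvPolynomial ι ℝ) (v : ι → ℝ) :
    MvPolynomial.eval v (sub B f) = MvPolynomial.eval (B.mulVec v) f := by
  have h1 : ∀ i, MvPolynomial.eval v (fld B i) = B.mulVec v i := by
    intro i
    unfold fld
    rw [map_sum, Matrix.mulVec, dotProduct]
    refine Finset.sum_congr rfl fun j _ => ?_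
    rw [map_mul, eval_C, eval_X]
  induction f using MvPolynomial.induction_on with
  | C a => rw [subC, eval_C, eval_C]
  | add p q hp hq =>
    have : sub B (p + q) = sub B p + sub B q := by
      unfold sub
      rw [map_add]
    rw [this, map_add, map_add, hp, hq]
  | mul_X p i hp =>
    rw [mul, map_mul, map_mul, hp, eval_X]
    congr 1
    unfold sub
    rw [aeval_X, h1]

omit [Fintype ι] in
theorem evC (c : ℝ) (f : MvPolynomial ι ℝ) (v : ι → ℝ) :
    MvPolynomial.eval v (C c * f) = c * MvPolynomial.eval v f := by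
  rw [map_mul, eval_C]

omit [Fintype ι] in
theorem Ccancel (c : ℝ) (hc : c ≠ 0) {f g : MvPolynomial ι ℝ} (h : C c * f = C c * g) : f = g := by
  have hC : (C c : MvPolynomial ι ℝ) ≠ 0 := by
    rw [Ne, C_eq_zero]
    exact hc
  exact mul_left_cancel₀ hC h

variable [DecidableEq ι]

theorem inv1 (B : Matrix ι ι ℝ) (hB : IsUnit B.det) (f : MvPolynomial ι ℝ) :
    sub B⁻¹ (sub B f) = f := by
  rw [Linx.sub_sub, Matrix.mul_nonsing_inv B hB, Linx.sub_one]

theorem inv2 (B : Matrix ι ι ℝ) (hB : IsUnit B.det) (f : MvPolynomial ι ℝ) :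
    sub B (sub B⁻¹ f) = f := by
  rw [Linx.sub_sub, Matrix.nonsing_inv_mul B hB, Linx.sub_one]

/-- The transfer of one polynomial, forward direction. -/
theorem fwd (S E T : Matrix ι ι ℝ) (hT : IsUnit T.det) (f f' F F' : MvPolynomial ι ℝ) (s s' : ℝ)
    (hs' : s' ≠ 0) (h1 : sub S f = C s * F) (h2 : sub T f' = C s' * F') (h3 : sub E F = F') :
    ∃ c : ℝ, sub (S * E * T⁻¹) f = C c * f' := by
  refine ⟨s * s'⁻¹, ?_⟩
  have h4 : C s' * sub T⁻¹ F' = f' := by
    rw [← subCm, ← h2, inv1 T hT]
  rw [← Linx.sub_sub, ← Linx.sub_sub, h1, subCm, subCm, h3, ← h4, ← mul_assoc, ← C_mul, mul_assoc,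
    inv_mul_cancel₀ hs', mul_one]

/-- The transfer of one polynomial, backward direction. -/
theorem bwd (S T B g : Matrix ι ι ℝ) (hS : IsUnit S.det) (hg : IsUnit g.det)
    (f f' F F' : MvPolynomial ι ℝ) (s s' c d : ℝ)
    (hs : s ≠ 0) (h1 : sub S f = C s * F) (h2 : sub T f' = C s' * F')
    (h3 : sub B f = C c * f') (h4 : sub g f = C d * f) (e : ι → ℝ)
    (he : (S⁻¹ * g⁻¹ * B * T).mulVec e = e)
    (hF : MvPolynomial.eval e F = 1) (hF' : MvPolynomial.eval e F' = 1) :
    sub (S⁻¹ * g⁻¹ * B * T) F = F' := by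
  have hF0 : F ≠ 0 := by
    rintro rfl
    rw [map_zero] at hF
    exact zero_ne_one hF
  have hd : d ≠ 0 := by
    rintro rfl
    rw [C_0, zero_mul] at h4
    have h5 : f = 0 := by
      rw [← inv1 g hg f, h4]
      unfold sub
      rw [map_zero]
    have h6 : C s * F = 0 := by
      rw [← h1, h5]
      unfold sub
      rw [map_zero]
    rcases mul_eq_zero.1 h6 with h7 | h7
    · exact hs (C_eq_zero.1 h7)
    · exact hF0 h7
  have h5 : C d * sub g⁻¹ f = f := by
    rw [← subCm, ← h4, inv1 g hg]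
  have h6 : C (s * d) * sub (S⁻¹ * g⁻¹ * B * T) F = C (c * s') * F' := by
    have h7 : C s * sub (S⁻¹ * g⁻¹ * B * T) F = sub T (sub B (sub g⁻¹ f)) := by
      rw [← subCm, ← h1, Linx.sub_sub, Linx.sub_sub, Linx.sub_sub]
      congr 1
      rw [← Matrix.mul_assoc, ← Matrix.mul_assoc, ← Matrix.mul_assoc,
        Matrix.mul_nonsing_inv S hS, Matrix.one_mul, Matrix.mul_assoc]
    rw [C_mul, mul_comm (C s) (C d), mul_assoc, h7, ← subCm, ← subCm, h5, h3, subCm, h2, C_mul,
      mul_assoc]
  have h8 := congrArg (MvPolynomial.eval e) h6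
  rw [evC, evC, evs, he, hF, hF', mul_one, mul_one] at h8
  rw [h8] at h6
  exact Ccancel (c * s') (by rw [← h8]; exact mul_ne_zero hs hd) h6

/-- The substitution as a ring automorphism; irreducibility. -/
theorem irr (B : Matrix ι ι ℝ) (hB : IsUnit B.det) (f : MvPolynomial ι ℝ)
    (h : Irreducible (sub B f)) : Irreducible f := by
  let E : MvPolynomial ι ℝ ≃* MvPolynomial ι ℝ :=
    { toFun := sub B
      invFun := sub B⁻¹
      left_inv := inv1 B hB
      right_inv := inv2 B hB
      map_mul' := mul B }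
  exact (MulEquiv.irreducible_iff E).1 h

end gen

section opt

variable {n : ℕ}

/-- The point `x = 0`, `t = 1`. -/
noncomputable def pt (n : ℕ) : Option (Fin n) → ℝ := fun l => if l = none then 1 else 0

theorem col (B : Matrix (Option (Fin n)) (Option (Fin n)) ℝ) (i : Option (Fin n)) :
    B.mulVec (pt n) i = B i none := by
  rw [← Injx.eval_fld B i none]
  unfold fld
  rw [map_sum, Matrix.mulVec, dotProduct]
  refine Finset.sum_congr rfl fun j _ => ?_
  rw [map_mul, eval_C, eval_X]
  rfl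

theorem evl (a q : Option (Fin n) → ℝ) :
    MvPolynomial.eval q (∑ i, C (a i) * X i) = ∑ i, a i * q i := by
  rw [map_sum]
  refine Finset.sum_congr rfl fun j _ => ?_
  rw [map_mul, eval_C, eval_X]

theorem nz (h : MvPolynomial (Option (Fin n)) ℝ) (a q : Option (Fin n) → ℝ)
    (hd : (∑ i, C (a i) * X i) ∣ h) (hq : MvPolynomial.eval q h ≠ 0) : ∑ i, a i * q i ≠ 0 := by
  obtain ⟨u, hu⟩ := hd
  intro h0
  apply hq
  rw [hu, map_mul, evl, h0, zero_mul]

end opt

end Isox

open Isox in
/-- The classification of admissible collections is the classification of the triples. -/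
theorem thm_Iso (hOrb : St_Orb) (hInj : St_Inj) : St_Iso := by
  intro n h h' a a' q q' σ τ hL hL' hd hd' hP hP'
  obtain ⟨hq, S, hS, hSc, hSl, hSh⟩ := hP
  obtain ⟨hq', T, hT, hTc, hTl, hTh⟩ := hP'
  have haq := nz h a q hd hq
  have haq' := nz h' a' q' hd' hq'
  have hSe : S.mulVec (pt n) = q := by
    funext i
    rw [col, hSc]
  have hTe : T.mulVec (pt n) = q' := by
    funext i
    rw [col, hTc]
  rw [hInj n σ τ]
  constructor
  · rintro ⟨E, hE, hE1, hE2, hE3⟩
    have hEe : E.mulVec (pt n) = pt n := by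
      funext i
      rw [col]
      cases i with
      | none =>
        rw [← Injx.eval_fld E none none]
        have h5 := hE2
        unfold sub at h5
        rw [aeval_X] at h5
        rw [h5, eval_X]
        rfl
      | some i => rw [hE1]; rfl
    have hTi : (T⁻¹).mulVec q' = pt n := by
      rw [← hTe, Matrix.mulVec_mulVec, Matrix.nonsing_inv_mul T hT, Matrix.one_mulVec]
    refine ⟨S * E * T⁻¹, ?_, ?_, ?_, ?_⟩
    · rw [Matrix.det_mul, Matrix.det_mul]
      exact (hS.mul hE).mul (Matrix.isUnit_nonsing_inv_det T hT)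
    · exact fwd S E T hT h h' _ _ _ _ hq' hSh hTh hE3
    · exact fwd S E T hT _ _ _ _ _ _ haq' hSl hTl hE2
    · have h6 : (S * E * T⁻¹).mulVec q' = q := by
        rw [← Matrix.mulVec_mulVec, hTi, ← Matrix.mulVec_mulVec, hEe, hSe]
      rw [h6]
      exact JoinedIn.refl hq
  · rintro ⟨B, hB, ⟨c, hc⟩, ⟨d, hd2⟩, hJ⟩
    have hirr : Irreducible (∑ i, C (a i) * X i : MvPolynomial (Option (Fin n)) ℝ) := by
      apply irr S hS
      rw [hSl]
      have hu : IsUnit (C (∑ i, a i * q i) : MvPolynomial (Option (Fin n)) ℝ) :=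
        (isUnit_iff_ne_zero.2 haq).map C
      obtain ⟨u, hu⟩ := hu
      rw [← hu, irreducible_units_mul]
      exact X_prime.irreducible
    obtain ⟨g, hg, hgq, ⟨c1, hc1⟩, c2, hc2⟩ := hOrb _ h hL _ hirr hd q (B.mulVec q') hJ
    have hEe : (S⁻¹ * g⁻¹ * B * T).mulVec (pt n) = pt n := by
      rw [← Matrix.mulVec_mulVec, hTe, ← Matrix.mulVec_mulVec, ← hgq, ← Matrix.mulVec_mulVec,
        Matrix.mulVec_mulVec q, Matrix.nonsing_inv_mul g hg, Matrix.one_mulVec, ← hSe,
        Matrix.mulVec_mulVec, Matrix.nonsing_inv_mul S hS, Matrix.one_mulVec]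
    refine ⟨S⁻¹ * g⁻¹ * B * T, ?_, ?_, ?_, ?_⟩
    · rw [Matrix.det_mul, Matrix.det_mul, Matrix.det_mul]
      exact (((Matrix.isUnit_nonsing_inv_det S hS).mul
        (Matrix.isUnit_nonsing_inv_det g hg)).mul hB).mul hT
    · intro i
      have h5 := congrFun hEe (some i)
      rw [col] at h5
      exact h5
    · refine bwd S T B g hS hg _ _ _ _ _ _ d c2 haq hSl hTl hd2 hc2 (pt n) hEe ?_ ?_
      · rw [eval_X]; rfl
      · rw [eval_X]; rfl
    · refine bwd S T B g hS hg _ _ _ _ _ _ c c1 hq hSh hTh hc hc1 (pt n) hEe ?_ ?_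
      · have h5 := congrArg (MvPolynomial.eval (pt n)) hSh
        rw [evC, evs, hSe] at h5
        have h6 : MvPolynomial.eval q h * 1 = MvPolynomial.eval q h *
            MvPolynomial.eval (pt n) (X none * PP σ) := by rw [mul_one]; exact h5
        exact (mul_left_cancel₀ hq h6).symm
      · have h5 := congrArg (MvPolynomial.eval (pt n)) hTh
        rw [evC, evs, hTe] at h5
        have h6 : MvPolynomial.eval q' h' * 1 = MvPolynomial.eval q' h' *
            MvPolynomial.eval (pt n) (X none * PP τ) := by rw [mul_one]; exact h5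
        exact (mul_left_cancel₀ hq' h6).symm

end Pool.Agent.LFD
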