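import Pool.Agent.LFD.Defs
import Pool.Agent.RRC.St3

/-!
# Admissible collections and linear free divisors (MP_835236_al): statements (helper69)

`σ = (σ_1, …, σ_n)`, `P = PP σ = t^n + σ_1 t^(n-1) + … + σ_n`. THEOREM: `σ` is admissible if and only if `t P = 0` is a
linear free divisor in `ℝ^(n+1)`; every linear free divisor with a linear factor and a base point arises in this way.
`R_x = m.flip x`, `a * x = m a x`, `s = tr m`. Module `X` proves `theorem thm_X (h.. : St_..) : St_X` in
`Pool/Agent/LFD/X.lean`, namespace `Pool.Agent.LFD`; the hypotheses may be the statements listed after `needs`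
(theorems `thm_..` of `Pool/Agent/RRC` may be imported and used directly, they are all proved: `thm_K1`, `thm_Cr`, `thm_B1a`,
`thm_B1b`, `thm_B2`, `all_DF`, in `RRC/All.lean`). Auxiliary lemmas in the sub-namespace `Xx`.
-/

set_option autoImplicit false

noncomputable section

namespace Pool.Agent.LFD

open scoped Polynomial
open MvPolynomial Helper28.Nij RRC

/-! ### A. Saito's criterion -/

/-- **Sai.** The determinant of linear fields tangent to `h = 0` is divisible by `h`.

Proof. `M_ki = fld (A k) i`, `der (A k) h = h g_k`, so `M ∇h = h g`; multiply by `adjugate M`: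
`det M * ∂_i h = h * (adj(M) g)_i`, so `h ∣ det M * ∂_i h` for all `i`. Let `f` be irreducible, `h = f h'`, `f ∤ h'`
(squarefree). `∂_i h = (∂_i f) h' + f ∂_i h'`, so `f ∣ det M * (∂_i f) * h'`, `f` is prime (UFD). If `f ∤ det M` then
`f ∣ ∂_i f` for all `i`, but `totalDegree (∂_i f) < totalDegree f`, so `∂_i f = 0` for all `i` and `f` is constant
(characteristic 0; `Helper28.Nij.eq_C_of_pderiv` for `Fin n`, same proof for all `ι`), a unit or `0`: contradiction. So every
irreducible divisor of `h` divides `det M`, and `h ∣ det M` as `h` is squarefree (induction over a factorisation into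
pairwise non associated primes; `UniqueFactorizationMonoid`). needs: nothing -/
def St_Sai : Prop := ∀ (ι : Type) [Fintype ι] [DecidableEq ι] (h : MvPolynomial ι ℝ),
  Squarefree h → ∀ A : ι → Matrix ι ι ℝ, (∀ k, h ∣ der (A k) h) →
    h ∣ (Matrix.of fun k i => fld (A k) i).det

/-- **Com.** The linear fields tangent to a linear free divisor are linear combinations of the `A_k`, and they are
closed under commutators.

Proof. (1) `M_ki = fld (A k) i`, `det M = c h`. For `k` let `M_k` be `M` with the row `k` replaced by `fld B`. `h ∣ det M_k`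
(`Sai`). `det M` and `det M_k` are homogeneous of degree `N = card ι` (entries homogeneous of degree one), `h ≠ 0`
(squarefree), so `h` is homogeneous of degree `N` and `det M_k = C (c g_k) h` for a real `g_k` (if a nonzero homogeneous
polynomial of degree `N` divides a homogeneous polynomial `u` of degree `N` then the quotient has total degree `0`, also
if `u = 0`). Cramer (`Matrix.cramer`, for the transpose): `det M * fld B i = Σ_k det M_k * M_ki`. Cancel `c h`: `fld B i =
Σ_k g_k fld (A k) i`, and compare the coefficients of `X_j`. (2) `der A (der B f) - der B (der A f) = der (B A - A B) f`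
(product rule; `pderiv j (fld B i) = C (B i j)`, second derivatives commute). If `der A h = h u`, `der B h = h v` then
`der A (der B h) = h (u v + der A v)`. needs: Sai -/
def St_Com : Prop :=
  (∀ (ι : Type) [Fintype ι] [DecidableEq ι] (h : MvPolynomial ι ℝ), Squarefree h →
    ∀ (A : ι → Matrix ι ι ℝ) (c : ℝ), (∀ k, h ∣ der (A k) h) → c ≠ 0 →
      (Matrix.of fun k i => fld (A k) i).det = C c * h →
      h.IsHomogeneous (Fintype.card ι) ∧
      ∀ B : Matrix ι ι ℝ, h ∣ der B h → ∃ g : ι → ℝ, B = ∑ k, g k • A k) ∧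
  (∀ (ι : Type) [Fintype ι] (h : MvPolynomial ι ℝ) (A B : Matrix ι ι ℝ), h ∣ der A h →
    h ∣ der B h → h ∣ der (B * A - A * B) h)

/-- **Lin.** Linear changes of the variables and constants.

Proof. (1) `der (B⁻¹ A B) (sub B f) = sub B (der A f)` (chain rule: `pderiv j (sub B f) = Σ_i sub B (pderiv i f) * C (B i j)`;
`Helper28.Nij.pderiv_aeval`). With `A'_k = B⁻¹ A_k B`: `fld A'_k i = Σ_l (B⁻¹)_il sub B (fld (A k) l)`, so `det M' =
det(B⁻¹) sub B (det M)`. Squarefree: `sub B` is a ring automorphism with inverse `sub B⁻¹`. (2) clear. needs: nothing -/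
def St_Lin : Prop :=
  (∀ (ι : Type) [Fintype ι] [DecidableEq ι] (h : MvPolynomial ι ℝ) (B : Matrix ι ι ℝ),
    IsUnit B.det → LinFree h → LinFree (sub B h)) ∧
  (∀ (ι : Type) [Fintype ι] [DecidableEq ι] (h : MvPolynomial ι ℝ) (c : ℝ), c ≠ 0 →
    (LinFree (C c * h) ↔ LinFree h))

/-! ### B. From linear free divisors to algebras -/

/-- **Lf1.** A linear free divisor `t P = 0` defines a left-symmetric algebra with `det(t - R_x) = P(x, t)`.

Proof. `h = X none * PP σ`, `A_k`, `c`, `M` as in `LinFree`, `t = X none`, `q` = the point `x = 0`, `t = 1`. (a) `h` is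
homogeneous of degree `n + 1` (`Com`). `h(0, t) = t^(n+1) + Σ σ_k(0) t^(n-k)` and `h(0, t) = t^(n+1) h(0, 1)`, so (coefficient
of `t^(n+1)`) `h(q) = 1`. (b) `t ∤ P` (otherwise `t² ∣ h`). Let `A` be tangent to `h = 0` (`h ∣ der A h`): `der A h = fld A none * P + t * der A P`,
so `t ∣ fld A none * P`, `t ∣ fld A none` (`X_prime`): `A none (some j) = 0`. (c) The matrix `M(q)` has the entries
`A k i none` and the determinant `c h(q) = c ≠ 0`. So for every `w : Option (Fin n) → ℝ` there is exactly one linear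
combination `B` of the `A_k` with `B i none = w i` for all `i`; by `Com` these are all the tangent matrices. Let `B_k` be the
one for `w = e_k`. `det(fld (B_k) i) = c' h` (base change), and at `q` it is `det 1 = 1`, so `c' = 1`. (d) Put
`(m a x)_i = - Σ_j Σ_l a_j x_l (B_(some j))_(some i)(some l)`. The row `some j` of the matrix `fld (B_k) i` is
`(t δ_ij - (e_j * x)_i)_i, 0`, its column `none` is `(0, …, 0, t)` (by (b), and `B_none none none = 1`). So
`t P = h = t det(t δ_ij - (e_j * x)_i)`, `P = det(t - M)ᵀ`, and for real `x`: `P(x, t) = charpoly (m.flip x)`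
(`LinearMap.charpoly_toMatrix`, `Matrix.eval_det`, transpose), coefficients of `t^(n-1-k)`. (e) `X_a := Σ_j a_j B_(some j)`: the
matrix of `(x, t) ↦ (t a - a * x, 0)`. `Y := X_b X_a - X_a X_b` is tangent (`Com` (2)) and has the value
`Y q = (a * b - b * a, 0)` at `q`, so by the uniqueness in (c) `Y = X_d`, `d = a * b - b * a`: applied to `(x, 0)`:
`b * (a * x) - a * (b * x) = - d * x`, which is `LSA`. needs: Com -/
def St_Lf1 : Prop := ∀ (n : ℕ) (σ : Fin n → MvPolynomial (Fin n) ℝ),
  LinFree (X none * PP σ) → ∃ m : (Fin n → ℝ) →ₗ[ℝ] (Fin n → ℝ) →ₗ[ℝ] (Fin n → ℝ), LSA m ∧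
    ∀ (x : Fin n → ℝ) (k : Fin n),
      (m.flip x).charpoly.coeff (n - 1 - k) = MvPolynomial.eval x (σ k)

/-- **Sep.** Separable specialisation.

Proof. `R = MvPolynomial (Fin n) ℝ`, `P' = X^n + Σ C(σ_k) X^(n-1-k)` in `R[X]`, the image of `PP σ` under
`optionEquivLeft`; monic, squarefree (a divisor of a squarefree polynomial), and `P'.coeff 0 ≠ 0` (otherwise `t ∣ P`,
`t² ∣ t P`; for `n = 0` `P' = 1`). Over `K = FractionRing R` `P'` is squarefree by the Gauss lemma (a monic `Q` in `K[X]` with
`Q² ∣ P'` has coefficients in `R`: `IsIntegrallyClosed`, and the quotient too), so separable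
(`PerfectField.separable_iff_squarefree`): `U P' + V P'' = 1` in `K[X]`, `P''` the derivative. Clear denominators:
`U₁ P' + V₁ P'' = C d` in `R[X]`, `d ≠ 0`. Choose `x` with `eval x (d * P'.coeff 0) ≠ 0` (`MvPolynomial.funext`) and map the
coefficients by `eval x`. needs: nothing -/
def St_Sep : Prop := ∀ (n : ℕ) (σ : Fin n → MvPolynomial (Fin n) ℝ),
  Squarefree (X none * PP σ) → ∃ x : Fin n → ℝ, ∀ p : ℝ[X], p.Monic → p.natDegree = n →
    (∀ k : Fin n, p.coeff (n - 1 - k) = MvPolynomial.eval x (σ k)) →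
      p.Separable ∧ p.eval 0 ≠ 0

/-- **Ndc.** A criterion for nondegeneracy.

Proof. `R = R_x`, `χ` its characteristic polynomial, `l` runs through `cr R` (`RRC/St3.lean`), `n = dim V`. (i) If
`tr(f(R) g(R) R) = 0` for all real polynomials `f` then `Σ_l f(l) g(l) l = 0` (`thm_Cr` (2)) for all real, so for all complex
polynomials `f`; take `f(l) = conj(g(l) l)` on the finitely many `l` (`Lagrange.interpolate`): `Σ |g(l) l|² = 0`. As `l ≠ 0`
(`χ(0) ≠ 0`) `g(l) = 0` for all roots `l` of `χ`. `χ` is separable, so `χ ∣ g` (over `ℂ`, then over `ℝ`: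
`Polynomial.map_dvd_map'`), and `g(R) = 0`. (ii) If `g(R) x = 0` then `0 = s(f(R) g(R) x) = tr(f(R) g(R) R)` for all `f` (`K1` (3)
with the polynomial `f g` and `v = x`), so `χ ∣ g`. So the linear map `ℝ[X]_(< n) → V`, `g ↦ g(R) x`, is injective, so it is
surjective (dimensions). (iii) Let `s(R^k v) = 0` for all `k`, `v = g(R) x`: `0 = s(f(R) g(R) x) = tr(f(R) g(R) R)` for all `f`,
`g(R) = 0`, `v = 0`. needs: nothing (`thm_K1`, `thm_Cr`) -/
def St_Ndc : Prop := ∀ (V : Type) [AddCommGroup V] [Module ℝ V] [FiniteDimensional ℝ V]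
  (m : V →ₗ[ℝ] V →ₗ[ℝ] V), LSA m → ∀ x : V, (m.flip x).charpoly.Separable →
    (m.flip x).charpoly.eval 0 ≠ 0 → NDat m x

/-- **Back.** Assembly: `Lf1`, `Sep` (with `p = charpoly (m.flip x)`, monic of degree `n`), `Ndc`, `thm_B2`.
needs: Lf1, Sep, Ndc -/
def St_Back : Prop := ∀ (n : ℕ) (σ : Fin n → MvPolynomial (Fin n) ℝ),
  LinFree (X none * PP σ) → Admissible σ

/-! ### C. From admissible collections to linear free divisors -/

/-- **Fwd.** The tangent fields of an admissible collection.

Proof. `M` from `thm_B1a` (`jac σ * M = comp σ * jac σ`, `M_ij` linear forms), `(e_j * x)_i = M_ij(x)`. `A_none = 1` (the Euler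
field), `A_(some j)`: `(x, t) ↦ (t e_j - (M_ij(x))_i, 0)`. (1) Euler: `σ_k` is homogeneous of degree `k + 1`, so `t P` is
homogeneous of degree `n + 1` and `der 1 (t P) = (n + 1) t P` (`IsHomogeneous.sum_X_mul_pderiv` or similar). (2) With
`∂_j = pderiv (some j)` (of `rename some`: `pderiv_rename`): `der A_(some j) P = t ∂_j P - Σ_i M_ij ∂_i P`, and `Σ_i M_ij ∂_i σ_k =
(jac σ * M)_kj = (comp σ * jac σ)_kj = - σ_k ∂_j σ_1 + ∂_j σ_(k+1)` (`σ_(n+1) = 0`). So `der A_(some j) P = (∂_j σ_1) P` (telescoping).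
(`n = 0`: nothing.) `der A_(some j) t = 0`. (3) The determinant at a real point `(x, t)` (`MvPolynomial.funext`): row
`none` is `(x, t)`, row `some j` is `(t δ_ij - M_ij(x))_i, 0`: `t det(t - M(x))`, and `det(t - M) = P`: `det J det(t - M) =
det(t J - J M) = det(t - C) det J`, `det J ≠ 0` (`thm_B1a`), `det(t - C) = P` (see `RRC/B1b.lean`, where this is proved; or use
`thm_B1b`). needs: nothing -/
def St_Fwd : Prop := ∀ (n : ℕ) (σ : Fin n → MvPolynomial (Fin n) ℝ), Admissible σ →
  ∃ A : Option (Fin n) → Matrix (Option (Fin n)) (Option (Fin n)) ℝ,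
    (∀ k, (X none * PP σ) ∣ der (A k) (X none * PP σ)) ∧
    (Matrix.of fun k i => fld (A k) i).det = X none * PP σ

/-- **Sqf.** If `det J ≠ 0` then `t P` is squarefree.

Proof. `n = 0`: `t P = t` is prime. `n ≥ 1`. Let `q² ∣ t P`. Then `q ∣ ∂_j (t P) = t ∂_j P` for all `j : Fin n`
(`∂_j = pderiv (some j)`; `t P = q² r`). `∂_j P = Σ_k (∂_j σ_k) t^(n-1-k)`. Multiply by `adj(J)_(j, n-1)` and add over `j`
(`J_kj = ∂_j σ_k`, `J * adj J = det J`): `q ∣ t det J` (`det J` renamed by `some`). Work in `R[X]`, `R = MvPolynomial (Fin n) ℝ`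
(`optionEquivLeft`): `q² ∣ X P'`, `X P'` is monic, so the leading coefficient of `q` is a unit of `R`, and `q ∣ X C(det J)`.
If `q` has degree `0` it is a unit. Otherwise (degrees over the domain `R`: `X C(det J)` has degree `1`) `q` has degree one,
`q = u X + b`, `X C(det J) = q C(d)`, constant terms: `b d = 0`, `d ≠ 0`, so `b = 0`, `X ∣ q`, `X² ∣ X P'`, `X ∣ P'`, so
`σ_(n-1) = P'.coeff 0 = 0` and the last row of `J` vanishes, contradiction. needs: nothing -/
def St_Sqf : Prop := ∀ (n : ℕ) (σ : Fin n → MvPolynomial (Fin n) ℝ), (jac σ).det ≠ 0 →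
  Squarefree (X none * PP σ)

/-- **MainA.** `Fwd`, `thm_B1a`, `Sqf`; `Back`. needs: Fwd, Sqf, Back -/
def St_MainA : Prop := ∀ (n : ℕ) (σ : Fin n → MvPolynomial (Fin n) ℝ),
  Admissible σ ↔ LinFree (X none * PP σ)

/-! ### D. Surjectivity, injectivity, examples -/

/-- **Frm.** Homogeneous polynomials of degree `n` in `(x, t)` with `u(0, 1) ≠ 0` have the form `c PP σ`.

Proof. `u' = optionEquivLeft u` in `R[X]`, `R = MvPolynomial (Fin n) ℝ`; the coefficient of `X^j` is homogeneous of
degree `n - j` (`0` for `j > n`), for `j = n` it is a constant, `C (u(0, 1))` (evaluate at `x = 0`, `t = 1`: all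
coefficients of lower degree vanish at `x = 0`). `σ_k = C(c⁻¹) * u'.coeff (n-1-k)`. needs: nothing -/
def St_Frm : Prop := ∀ (n : ℕ) (u : MvPolynomial (Option (Fin n)) ℝ) (c : ℝ),
  u.IsHomogeneous n → MvPolynomial.eval (fun i => Option.elim i 1 fun _ => 0) u = c → c ≠ 0 →
    ∃ σ : Fin n → MvPolynomial (Fin n) ℝ, u = C c * PP σ

/-- **Tri.** Every linear free divisor `h` with a linear factor `Σ a_i X_i` and a point `q` with `h(q) ≠ 0` is of this form.

Proof. `a · q ≠ 0` (`Σ a_i X_i` divides `h`, `h(q) ≠ 0`). Let the column `none` of `B` be `q` and the other `n` columns a basis of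
the hyperplane `a · v = 0` (dimension `n`); `B` is invertible (`q` is not in the hyperplane; e.g. take a basis of the
hyperplane and `q`, `Basis` and `Matrix.det`/`LinearIndependent`). `sub B (Σ a_i X_i) = Σ_j (a · B e_j) X_j = (a · q) X none`.
`h₁ = sub B h` is linear free (`Lin`), homogeneous of degree `n + 1` (`Com`), divisible by `X none`: `h₁ = X none * u`, `u`
homogeneous of degree `n` (a factor of a homogeneous nonzero polynomial; or compare degrees), `u(0, 1) = h₁(0, 1) = h(q)`.
`Frm`: `u = C (h(q)) * PP σ`. `Lin` (2): `X none * PP σ` is linear free, `MainA`. needs: Com, Lin, Frm, MainA -/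
def St_Tri : Prop := ∀ (n : ℕ) (h : MvPolynomial (Option (Fin n)) ℝ), LinFree h →
  ∀ a q : Option (Fin n) → ℝ, (∑ i, C (a i) * X i) ∣ h → MvPolynomial.eval q h ≠ 0 →
    ∃ (B : Matrix (Option (Fin n)) (Option (Fin n)) ℝ) (σ : Fin n → MvPolynomial (Fin n) ℝ),
      IsUnit B.det ∧ (∀ i, B i none = q i) ∧
      sub B (∑ i, C (a i) * X i) = C (∑ i, a i * q i) * X none ∧
      sub B h = C (MvPolynomial.eval q h) * (X none * PP σ) ∧ Admissible σ

/-- **Inj.** Isomorphisms of the triples `(t P, t, (0, 1))` are linear equivalences of the collections.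

Proof. `⟹`: `B` = block diagonal `(A, 1)`. `⟸`: `sub B (X none) = X none` says that the row `none` of `B` is `(0, 1)`; the
column `none` is `(0, 1)`; so `B` is block diagonal `(A, 1)`, `det B = det A`. Cancel `X none`: `sub B (PP σ) = PP τ`, compare the
coefficients of `t^(n-1-k)` (`optionEquivLeft`, or evaluate at all `(x, t)`: polynomials in `t`). needs: nothing -/
def St_Inj : Prop := ∀ (n : ℕ) (σ τ : Fin n → MvPolynomial (Fin n) ℝ),
  LinEquiv σ τ ↔ ∃ B : Matrix (Option (Fin n)) (Option (Fin n)) ℝ, IsUnit B.det ∧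
    (∀ i : Fin n, B (some i) none = 0) ∧ sub B (X none) = X none ∧
    sub B (X none * PP σ) = X none * PP τ

/-- **Prd.** Linear free divisors `f` in `ℝ^n` and base points `p`: the divisor `t f(x + t p)`.

Proof. `f' = f(x + t p)`, `h = t f'`. The `ℝ`-algebra automorphism `x_i ↦ x_i + p_i t`, `t ↦ t` maps `t * rename some f` to `h`, so
for squarefreeness it suffices that `X none * rename some f` is squarefree: in `R[X]` (`optionEquivLeft`) `q² ∣ X * C f`: `q ∣ X * C f`
has degree at most one; degree one would give `q² ` of degree two; so `q = C g`, `g² ∣ f` (coefficient of `X`), `g` is a unit.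
Fields: `A'_(some k)`: `(x, t) ↦ (A_k (x + t p), 0)`: `der A'_(some k) f' = (der (A_k) f)(x + t p)`, divisible by `f'`. `A'_none`:
`(x, t) ↦ (- t p, t)`: `der A'_none f' = 0`, `der A'_none h = h`. The determinant: rows `some k`: `(fld (A_k) i (x + t p))_i, 0`, row
`none`: `(- t p, t)`: `t (det M)(x + t p) = c h`. needs: nothing -/
def St_Prd : Prop := ∀ (n : ℕ) (f : MvPolynomial (Fin n) ℝ) (p : Fin n → ℝ), LinFree f →
  LinFree (X none * aeval (fun i => X (some i) + C (p i) * X none :
    Fin n → MvPolynomial (Option (Fin n)) ℝ) f)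

/-- **MainB.** `f` is homogeneous of degree `n` (`Com`), so `f' = f(x + t p)` is homogeneous of degree `n` with
`f'(0, 1) = f(p)`. `Frm`: `f' = C (f(p)) * PP σ`; `Prd`, `Lin` (2), `MainA`. needs: Com, Lin, Frm, Prd, MainA -/
def St_MainB : Prop := ∀ (n : ℕ) (f : MvPolynomial (Fin n) ℝ) (p : Fin n → ℝ), LinFree f →
  MvPolynomial.eval p f ≠ 0 → ∃ σ : Fin n → MvPolynomial (Fin n) ℝ, Admissible σ ∧
    (aeval (fun i => X (some i) + C (p i) * X none :
      Fin n → MvPolynomial (Option (Fin n)) ℝ) f) = C (MvPolynomial.eval p f) * PP σ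

end Pool.Agent.LFD
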