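import Pool.Agent.LFD.St

/-!
# Admissible collections and linear free divisors, part 2 (MP_835236_al): statements (helper69)

The classes of admissible collections are the classes of the triples (linear free divisor `h`, linear factor of `h`,
connected component of the complement of `h = 0`).
-/

set_option autoImplicit false

noncomputable section

namespace Pool.Agent.LFD

open MvPolynomial Helper28.Nij

/-- **Sem.** Tangent fields integrate to symmetries.

Proof. `h = 0` is clear. `totalDegree (der A h) ≤ totalDegree h`, so the quotient is a constant: `der A h = C μ * h` (also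
if `der A h = 0`). For a real point `v` put `w(s) = exp(s A) v`, `φ(s) = h(w(s))`: `φ'(s) = Σ_i (∂_i h)(w) (A w)_i =
(der A h)(w) = μ φ(s)`, so `φ(s) exp(-μ s)` is constant and `h(exp(A) v) = exp(μ) h(v)`. `MvPolynomial.funext`;
`eval v (sub B f) = eval (B.mulVec v) f`. (See `Pool/Agent/LFD/Lin.lean`, `Com.lean` for lemmas on `sub`, `der`.)
needs: nothing -/
def St_Sem : Prop := ∀ (ι : Type) [Fintype ι] [DecidableEq ι] (h : MvPolynomial ι ℝ)
  (A : Matrix ι ι ℝ), h ∣ der A h →
    ∃ μ : ℝ, sub (NormedSpace.exp A) h = C (Real.exp μ) * h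

/-- The relation: a linear map with `g v = w` which preserves `h` and `l` up to constants. -/
def Rel {ι : Type} [Fintype ι] [DecidableEq ι] (h l : MvPolynomial ι ℝ) (v w : ι → ℝ) : Prop :=
  ∃ g : Matrix ι ι ℝ, IsUnit g.det ∧ g.mulVec v = w ∧
    (∃ c : ℝ, sub g h = C c * h) ∧ ∃ c : ℝ, sub g l = C c * l

/-- **Opn.** The orbits of the symmetries of a linear free divisor are open in the complement.

Proof. `A_k`, `c` as in `LinFree`. For `y : ι → ℝ` put `A(y) = Σ_k y_k A_k`; `h ∣ der A(y) h`. Also `l ∣ der A(y) l`: `h = l h'`,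
`l ∤ h'` (squarefree), `der A h = (der A l) h' + l (der A h')`, and `l` is prime. `F(y) = (exp A(y)) q` has the strict
derivative `y ↦ Σ_k y_k A_k q` at `0` (`hasStrictFDerivAt_exp_zero`, for a norm on the matrices, composed with linear
maps); its matrix has the rows `A_k q` and the determinant `(det M)(q) = c h(q) ≠ 0`, so it is bijective and
`map F (nhds 0) = nhds q` (`HasStrictFDerivAt.map_nhds_eq_of_equiv` or `_of_surj`). So every `v` near `q` is
`F(y)`; take `g = exp A(y)`, invertible, and `Sem` for `h` and for `l`. needs: Sem -/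
def St_Opn : Prop := ∀ (ι : Type) [Fintype ι] [DecidableEq ι] (h : MvPolynomial ι ℝ), LinFree h →
  ∀ l : MvPolynomial ι ℝ, Irreducible l → l ∣ h → ∀ q : ι → ℝ, MvPolynomial.eval q h ≠ 0 →
    ∀ᶠ v in nhds q, Rel h l q v

/-- **Orb.** Points in the same component are related.

Proof. `Rel h l` is reflexive, symmetric and transitive (`sub (g g') f = sub g' (sub g f)`; the constants are nonzero
because `sub g` is injective; if `sub g h = C c h` then `sub g⁻¹ h = C c⁻¹ h`). Let `γ` be a path from `q` to `q'` in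
`h ≠ 0`. `{s | Rel h l q (γ s)}` is open (`Opn` at `γ s`, continuity, transitivity), and so is its complement (symmetry and
transitivity), and it contains `0`: it is everything (`unitInterval` is connected). needs: Opn -/
def St_Orb : Prop := ∀ (ι : Type) [Fintype ι] [DecidableEq ι] (h : MvPolynomial ι ℝ), LinFree h →
  ∀ l : MvPolynomial ι ℝ, Irreducible l → l ∣ h → ∀ q q' : ι → ℝ,
    JoinedIn {v | MvPolynomial.eval v h ≠ 0} q q' → Rel h l q q'

/-- `σ` is a collection of the triple: the divisor `h = 0`, the linear factor `Σ a_i X_i` of `h`, the point `q`. -/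
def Pres {n : ℕ} (h : MvPolynomial (Option (Fin n)) ℝ) (a q : Option (Fin n) → ℝ)
    (σ : Fin n → MvPolynomial (Fin n) ℝ) : Prop :=
  MvPolynomial.eval q h ≠ 0 ∧ ∃ B : Matrix (Option (Fin n)) (Option (Fin n)) ℝ,
    IsUnit B.det ∧ (∀ i, B i none = q i) ∧
      sub B (∑ i, C (a i) * X i) = C (∑ i, a i * q i) * X none ∧
      sub B h = C (MvPolynomial.eval q h) * (X none * PP σ)

/-- **Iso.** The classification of admissible collections = the classification of the triples.

Proof. Write `l`, `l'` for the linear forms, `e` for the point `x = 0`, `t = 1`; `B_σ e = q`, `B_τ e = q'`. `sub (B C) f =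
sub C (sub B f)`. (⟹) `Inj` gives `E` with `E e = e` (row `none` of `E` is `(0, 1)` because `sub E (X none) = X none`),
`sub E (X none) = X none`, `sub E (X none * PP σ) = X none * PP τ`. `B = B_σ E B_τ⁻¹`: `sub B h = sub B_τ⁻¹ (sub E (sub B_σ h)) =
C (h(q) / h'(q')) h'`, the same for `l` (`a' · q' ≠ 0` because `l' ∣ h'`, `h'(q') ≠ 0`), and `B q' = q`; `JoinedIn.refl`.
(⟸) `l` is irreducible (a linear form, not `0` because `l ∣ h`, `h ≠ 0`; or `sub B_σ l` is a nonzero multiple of `X none`,
which is prime, and `sub B_σ` is an automorphism). `Orb`: `g` with `g q = B q'`. `E := B_σ⁻¹ g⁻¹ B B_τ`: `E e = e`; `sub E t` and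
`sub E (t P_σ)` are multiples of `t`, `t P_τ` by constants; evaluate at `e`: `(t P_σ)(e) = 1 = (t P_τ)(e)` (from
`eval e (sub B_σ h) = h(q)`), `t(e) = 1`, so the constants are `1`, and `Inj` gives `LinEquiv σ τ`. needs: Orb, Inj -/
def St_Iso : Prop := ∀ (n : ℕ) (h h' : MvPolynomial (Option (Fin n)) ℝ)
  (a a' q q' : Option (Fin n) → ℝ) (σ τ : Fin n → MvPolynomial (Fin n) ℝ), LinFree h → LinFree h' →
    (∑ i, C (a i) * X i) ∣ h → (∑ i, C (a' i) * X i) ∣ h' → Pres h a q σ → Pres h' a' q' τ →
    (LinEquiv σ τ ↔ ∃ B : Matrix (Option (Fin n)) (Option (Fin n)) ℝ, IsUnit B.det ∧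
      (∃ c : ℝ, sub B h = C c * h') ∧
      (∃ c : ℝ, sub B (∑ i, C (a i) * X i) = C c * ∑ i, C (a' i) * X i) ∧
      JoinedIn {v | MvPolynomial.eval v h ≠ 0} q (B.mulVec q'))

end Pool.Agent.LFD
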